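import Pool.Agent.P.MP_b7645d_gt.Defs

set_option autoImplicit false

open MeasureTheory ProbabilityTheory Set Real Filter Topology

namespace Pool.Agent.P.MP_b7645d_gt

/-- the test function, as a function of `c = tan (p (1/2 - x))` and `n` -/
noncomputable def Ps (p H c n : ℝ) : ℝ :=
  p * c * (n * (1 - n ^ 2) ^ 2) ^ 2 - H * (n ^ 3 / 3 - 3 * n ^ 5 / 10)

/-- its derivative in `x` -/
noncomputable def Px (p c n : ℝ) : ℝ := -(p ^ 2 * (1 + c ^ 2) * (n * (1 - n ^ 2) ^ 2) ^ 2)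

/-- its derivative in `n` -/
noncomputable def Pn (p H c n : ℝ) : ℝ :=
  2 * p * c * (n * (1 - n ^ 2) ^ 2) * ((1 - n ^ 2) * (1 - 5 * n ^ 2)) - H * (n ^ 2 - 3 * n ^ 4 / 2)

lemma quartic_nonneg {m : ℝ} (h0 : 0 ≤ m) (h1 : m ≤ 1) :
    0 ≤ 376 / 25 - 6919 / 75 * m + 205 * m ^ 2 - 562 / 3 * m ^ 3 + 60 * m ^ 4 := by
  nlinarith [mul_nonneg (mul_nonneg h0 (sub_nonneg.2 h1)) (sq_nonneg (m - 9 / 20)),
    sq_nonneg (m ^ 2 - 3 / 2 * m + 1 / 2), sq_nonneg (m - 9 / 20), mul_nonneg h0 (sub_nonneg.2 h1),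
    mul_nonneg (sub_nonneg.2 h1) (sq_nonneg (m - 9 / 20))]

lemma quad_nonneg {m y H : ℝ} (h0 : 0 ≤ m) (h1 : m ≤ 1) :
    0 ≤ (1 - m) * ((6 - 5 * m) * (2 - 6 * m + 5 * m ^ 2)) * y ^ 2 -
      y * H * ((1 - m) ^ 2 * m * (13 - 15 * m) / 2) +
      H ^ 2 * m * (1 / 3 - 3 / 10 * m - (1 - m) * (1 - 3 / 2 * m) ^ 2 / 4 - 1 / 200) := by
  set a := (6 - 5 * m) * (2 - 6 * m + 5 * m ^ 2) with ha
  have ha0 : 0 < a := mul_pos (by linarith) (by nlinarith [sq_nonneg (m - 3 / 5)])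
  refine le_of_mul_le_mul_left ?_ (show 0 < 4 * a by positivity)
  have h2 := mul_nonneg (sub_nonneg.2 h1)
    (sq_nonneg (2 * a * y - H * (1 - m) * m * (13 - 15 * m) / 2))
  have h3 := mul_nonneg (mul_nonneg (sq_nonneg H) h0) (quartic_nonneg h0 h1)
  have h4 : 4 * a * ((1 - m) * a * y ^ 2 - y * H * ((1 - m) ^ 2 * m * (13 - 15 * m) / 2) +
      H ^ 2 * m * (1 / 3 - 3 / 10 * m - (1 - m) * (1 - 3 / 2 * m) ^ 2 / 4 - 1 / 200)) =
      (1 - m) * (2 * a * y - H * (1 - m) * m * (13 - 15 * m) / 2) ^ 2 +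
      H ^ 2 * m * (376 / 25 - 6919 / 75 * m + 205 * m ^ 2 - 562 / 3 * m ^ 3 + 60 * m ^ 4) / 4 := by
    rw [ha]; ring
  rw [h4]
  linarith

lemma test_ineq {p H c n : ℝ} (hp : p ^ 2 ≤ 16) (hH : 128 ≤ H) (hn : |n| ≤ 1) :
    p ^ 2 * n ^ 2 + n ^ 4 ≤
      (1 - n ^ 2) * (-Px p c n - Pn p H c n ^ 2 / 4) - H * Ps p H c n * n := by
  set m := n ^ 2 with hm
  have h0 : 0 ≤ m := sq_nonneg n
  have h1 : m ≤ 1 := (sq_le_one_iff_abs_le_one n).2 hn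
  have h2 := mul_nonneg h0 (quad_nonneg (y := p * c * (n * (1 - n ^ 2) ^ 2)) (H := H) h0 h1)
  have h3 : (1 - n ^ 2) * (-Px p c n - Pn p H c n ^ 2 / 4) - H * Ps p H c n * n =
      p ^ 2 * (m * (1 - m) ^ 5) + H ^ 2 * m ^ 2 / 200 +
      m * ((1 - m) * ((6 - 5 * m) * (2 - 6 * m + 5 * m ^ 2)) *
        (p * c * (n * (1 - n ^ 2) ^ 2)) ^ 2 -
      (p * c * (n * (1 - n ^ 2) ^ 2)) * H * ((1 - m) ^ 2 * m * (13 - 15 * m) / 2) +
      H ^ 2 * m * (1 / 3 - 3 / 10 * m - (1 - m) * (1 - 3 / 2 * m) ^ 2 / 4 - 1 / 200)) := by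
    simp only [Px, Pn, Ps, hm]; ring
  have h4 : 1 - 5 * m ≤ (1 - m) ^ 5 := by
    have := one_add_mul_le_pow (a := -m) (by linarith) 5
    simpa [sub_eq_add_neg] using this
  have h5 : p ^ 2 * (m * (1 - 5 * m)) ≤ p ^ 2 * (m * (1 - m) ^ 5) := by gcongr
  have h6 : (16384 : ℝ) ≤ H ^ 2 := by nlinarith
  have h7 : n ^ 4 = m ^ 2 := by rw [hm]; ring
  rw [← hm] at h3
  rw [h3, h7]
  nlinarith [mul_le_mul_of_nonneg_right h6 (sq_nonneg m), mul_le_mul_of_nonneg_right hp (sq_nonneg m)]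

lemma test_bounds (p H T : ℝ) : ∃ B, 0 ≤ B ∧ ∀ c n, |c| ≤ T → |n| ≤ 1 →
    |Ps p H c n| ≤ B * |n| ∧ |Px p c n| ≤ B ∧ |Pn p H c n| ≤ B := by
  have hK : IsCompact (Icc (-T) T ×ˢ Icc (-1 : ℝ) 1) := isCompact_Icc.prod isCompact_Icc
  have hc : Continuous fun w : ℝ × ℝ =>
      |p * w.1 * w.2 * (1 - w.2 ^ 2) ^ 4 - H * (w.2 ^ 2 / 3 - 3 * w.2 ^ 4 / 10)| +
        |Px p w.1 w.2| + |Pn p H w.1 w.2| := by
    unfold Px Pn; fun_prop
  obtain ⟨B, hB⟩ := hK.exists_bound_of_continuousOn hc.continuousOn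
  refine ⟨|B|, abs_nonneg _, fun c n hc hn => ?_⟩
  have h := ((le_abs_self _).trans (hB (c, n) ⟨abs_le.1 hc, abs_le.1 hn⟩)).trans (le_abs_self B)
  simp only at h
  have h1 := abs_nonneg (p * c * n * (1 - n ^ 2) ^ 4 - H * (n ^ 2 / 3 - 3 * n ^ 4 / 10))
  have h2 := abs_nonneg (Px p c n)
  have h3 := abs_nonneg (Pn p H c n)
  refine ⟨?_, by linarith, by linarith⟩
  have : Ps p H c n = (p * c * n * (1 - n ^ 2) ^ 4 - H * (n ^ 2 / 3 - 3 * n ^ 4 / 10)) * n := by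
    unfold Ps; ring
  rw [this, abs_mul]
  exact mul_le_mul_of_nonneg_right (by linarith) (abs_nonneg _)

lemma test_ineq' {p H c n v B : ℝ} (hp : p ^ 2 ≤ 16) (hH : 128 ≤ H) (hn : |n| ≤ 1) (hv : |v| ≤ 1)
    (h1 : |Ps p H c n| ≤ B * |n|) (h2 : |Px p c n| ≤ B) (h3 : |Pn p H c n| ≤ B) :
    p ^ 2 * v ^ 2 + v ^ 4 - (2 * (B + B ^ 2 / 4) + H * B + 36) * |v - n| ≤
      (1 - v ^ 2) * (-Px p c n - Pn p H c n ^ 2 / 4) - H * Ps p H c n * v := by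
  have h0 := test_ineq (c := c) hp hH hn
  have hB : 0 ≤ B := (abs_nonneg _).trans h2
  set K := -Px p c n - Pn p H c n ^ 2 / 4
  set S := Ps p H c n
  have hK : |K| ≤ B + B ^ 2 / 4 := by
    have h4 : Pn p H c n ^ 2 ≤ B ^ 2 := by
      rw [← sq_abs]; exact pow_le_pow_left₀ (abs_nonneg _) h3 2
    have := abs_le.1 h2
    exact abs_le.2 ⟨by simp only [K]; linarith, by simp only [K]; nlinarith⟩
  have hS : |S| ≤ B := h1.trans (mul_le_of_le_one_right hB hn)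
  have hd := abs_nonneg (v - n)
  have e1 : |v ^ 2 - n ^ 2| ≤ 2 * |v - n| := by
    rw [show v ^ 2 - n ^ 2 = (v + n) * (v - n) by ring, abs_mul]
    exact mul_le_mul_of_nonneg_right ((abs_add_le _ _).trans (by linarith)) hd
  have e2 : |v ^ 4 - n ^ 4| ≤ 4 * |v - n| := by
    rw [show v ^ 4 - n ^ 4 = (v ^ 2 + n ^ 2) * (v ^ 2 - n ^ 2) by ring, abs_mul]
    have : |v ^ 2 + n ^ 2| ≤ 2 := by
      rw [abs_of_nonneg (by positivity)]
      linarith [(sq_le_one_iff_abs_le_one n).2 hn, (sq_le_one_iff_abs_le_one v).2 hv]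
    nlinarith [abs_nonneg (v ^ 2 - n ^ 2)]
  have e3 : |(v ^ 2 - n ^ 2) * K| ≤ 2 * |v - n| * (B + B ^ 2 / 4) := by
    rw [abs_mul]; exact mul_le_mul e1 hK (abs_nonneg _) (by positivity)
  have e4 : |H * (S * (v - n))| ≤ H * (B * |v - n|) := by
    rw [abs_mul, abs_mul, abs_of_nonneg (by linarith : 0 ≤ H)]
    gcongr
  have e5 : |p ^ 2 * (v ^ 2 - n ^ 2)| ≤ 16 * (2 * |v - n|) := by
    rw [abs_mul, abs_of_nonneg (sq_nonneg p)]
    gcongr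
  have := (abs_le.1 e2).2
  have := (abs_le.1 e3).2
  have := (abs_le.1 e4).2
  have := (abs_le.1 e5).2
  nlinarith

/-- completing the square in the first variation -/
lemma vector_ineq {ι : Type} [Fintype ι] [DecidableEq ι] (i : ι) {g a b : ℝ} {d z : ι → ℝ}
    (hg : 0 ≤ g) (hd : g ^ 2 = ∑ j, d j ^ 2) :
    ((a + b * z i) * g - d i * (∑ j, d j * ((if j = i then a else 0) + b * z j)) / g) +
      g * ((1 - (d i / g) ^ 2) * (-a - b ^ 2 / 4)) ≤ g * ∑ j, z j ^ 2 := by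
  rcases hg.eq_or_lt with h | h
  · simp [← h]
  obtain ⟨v, rfl⟩ : ∃ v : ι → ℝ, d = fun j => g * v j :=
    ⟨fun j => d j / g, funext fun j => by field_simp⟩
  have hv : ∑ j, v j ^ 2 = 1 := by
    simp only [mul_pow, ← Finset.mul_sum] at hd
    field_simp at hd
    linarith
  have h1 : ∑ j, g * v j * ((if j = i then a else 0) + b * z j) =
      g * (v i * a + b * ∑ j, v j * z j) := by
    simp only [mul_add, Finset.sum_add_distrib, mul_ite, mul_zero, Finset.sum_ite_eq',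
      Finset.mem_univ, if_true, Finset.mul_sum]
    congr 1
    · ring
    · exact Finset.sum_congr rfl fun j _ => by ring
  have h2 : 0 ≤ ∑ j, (z j - b / 2 * ((if j = i then 1 else 0) - v i * v j)) ^ 2 :=
    Finset.sum_nonneg fun _ _ => sq_nonneg _
  have h3 : ∑ j, (z j - b / 2 * ((if j = i then 1 else 0) - v i * v j)) ^ 2 =
      ∑ j, z j ^ 2 - b * (z i - v i * ∑ j, v j * z j) + b ^ 2 / 4 * (1 - v i ^ 2) := by
    have : ∀ j, (z j - b / 2 * ((if j = i then 1 else 0) - v i * v j)) ^ 2 =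
        z j ^ 2 + b * v i * (v j * z j) + b ^ 2 / 4 * v i ^ 2 * v j ^ 2 +
          (if j = i then -b * z i + b ^ 2 / 4 * (1 - 2 * v i ^ 2) else 0) := fun j => by
      split_ifs with hj
      · subst hj; ring
      · ring
    simp only [this, Finset.sum_add_distrib, ← Finset.mul_sum, hv, Finset.sum_ite_eq',
      Finset.mem_univ, if_true]
    ring
  rw [h3] at h2
  simp only [h1]
  have h4 : g * v i * (g * (v i * a + b * ∑ j, v j * z j)) / g =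
      g * (v i * (v i * a + b * ∑ j, v j * z j)) := by field_simp
  rw [h4, mul_div_cancel_left₀ _ h.ne']
  nlinarith [mul_nonneg hg h2]

/-- the profile `tan (p (1/2 - x))` -/
noncomputable def cc (p x : ℝ) : ℝ := tan (p * (1 / 2 - x))

lemma cc_arg_mem {p x : ℝ} (hp0 : 0 < p) (hx : x ∈ Ioo (0 : ℝ) 1) :
    p * (1 / 2 - x) ∈ Ioo (-(p / 2)) (p / 2) := by
  constructor <;> nlinarith [hx.1, hx.2]

lemma hasDerivAt_cc {p x : ℝ} (hp0 : 0 < p) (hp : p < π) (hx : x ∈ Ioo (0 : ℝ) 1) :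
    HasDerivAt (cc p) (-(p * (1 + cc p x ^ 2))) x := by
  have hm := cc_arg_mem hp0 hx
  have hcos : 0 < cos (p * (1 / 2 - x)) :=
    cos_pos_of_mem_Ioo ⟨by linarith [hm.1], by linarith [hm.2]⟩
  have h1 : HasDerivAt (fun y : ℝ => p * (1 / 2 - y)) (p * (-1)) x :=
    ((hasDerivAt_id x).const_sub (1 / 2)).const_mul p
  refine ((hasDerivAt_tan hcos.ne').comp x h1).congr_deriv ?_
  rw [cc, ← inv_one_add_tan_sq hcos.ne']
  field_simp

lemma abs_cc_le {p x : ℝ} (hp0 : 0 < p) (hp : p < π) (hx : x ∈ Ioo (0 : ℝ) 1) :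
    |cc p x| ≤ tan (p / 2) := by
  have hm := cc_arg_mem hp0 hx
  refine abs_le.2 ⟨?_, ?_⟩
  · rw [← tan_neg]
    exact (tan_lt_tan_of_lt_of_lt_pi_div_two (by linarith) (by linarith [hm.2]) hm.1).le
  · exact (tan_lt_tan_of_lt_of_lt_pi_div_two (by linarith [hm.1]) (by linarith) hm.2).le

variable {ι : Type} [Fintype ι] [DecidableEq ι]

lemma hasFDerivAt_test {p H : ℝ} (hp0 : 0 < p) (hp : p < π) {ζ : (ι → ℝ) → ℝ} (i : ι)
    {x : ι → ℝ} (hx : x ∈ Q ι) (hζ : DifferentiableAt ℝ ζ x) :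
    HasFDerivAt (fun y => Ps p H (cc p (y i)) (ζ y))
      (Px p (cc p (x i)) (ζ x) • ContinuousLinearMap.proj (R := ℝ) (φ := fun _ : ι => ℝ) i +
        Pn p H (cc p (x i)) (ζ x) • fderiv ℝ ζ x) x := by
  have h1 : HasFDerivAt (fun y : ι → ℝ => cc p (y i))
      (-(p * (1 + cc p (x i) ^ 2)) • ContinuousLinearMap.proj (R := ℝ) (φ := fun _ : ι => ℝ) i) x :=
    HasDerivAt.comp_hasFDerivAt (f := fun h : ι → ℝ => h i) x (hasDerivAt_cc hp0 hp (hx i))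
      (hasFDerivAt_apply i x)
  have h2 : ∀ n : ℝ, HasDerivAt (fun n : ℝ => (n * (1 - n ^ 2) ^ 2) ^ 2)
      (2 * (n * (1 - n ^ 2) ^ 2) * ((1 - n ^ 2) * (1 - 5 * n ^ 2))) n := fun n =>
    (((hasDerivAt_id n).mul (((hasDerivAt_pow 2 n).const_sub 1).pow 2)).pow 2).congr_deriv
      (by simp only [Pi.mul_apply, Pi.pow_apply, id]; norm_num [-mul_eq_mul_left_iff]; ring)
  have h3 : ∀ n : ℝ, HasDerivAt (fun n : ℝ => n ^ 3 / 3 - 3 * n ^ 5 / 10)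
      (n ^ 2 - 3 * n ^ 4 / 2) n := fun n =>
    (((hasDerivAt_pow 3 n).div_const 3).sub
      (((hasDerivAt_pow 5 n).const_mul 3).div_const 10)).congr_deriv (by simp; ring)
  have h4 := (h2 (ζ x)).comp_hasFDerivAt x hζ.hasFDerivAt
  have h5 := (h3 (ζ x)).comp_hasFDerivAt x hζ.hasFDerivAt
  refine (((h1.const_mul p).mul h4).sub (h5.const_mul H)).congr_fderiv ?_
  ext v
  simp [Px, Pn]
  ring

lemma D_test {p H : ℝ} (hp0 : 0 < p) (hp : p < π) {ζ : (ι → ℝ) → ℝ} (i : ι)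
    {x : ι → ℝ} (hx : x ∈ Q ι) (hζ : DifferentiableAt ℝ ζ x) (j : ι) :
    D (fun y => Ps p H (cc p (y i)) (ζ y)) j x =
      (if j = i then Px p (cc p (x i)) (ζ x) else 0) + Pn p H (cc p (x i)) (ζ x) * D ζ j x := by
  rw [D, (hasFDerivAt_test hp0 hp i hx hζ).fderiv]
  by_cases h : j = i
  · subst h; simp [D]
  · simp [D, h, Ne.symm h]

end Pool.Agent.P.MP_b7645d_gt
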