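import Mathlib

set_option autoImplicit false

open MeasureTheory ProbabilityTheory Set Real

namespace Pool.Agent.P.MP_b7645d_gt

/-- the open unit cube -/
def Q (ι : Type) : Set (ι → ℝ) := {x | ∀ i, x i ∈ Set.Ioo (0 : ℝ) 1}

variable {ι : Type} [Fintype ι] [DecidableEq ι]

/-- the `i`-th first-order derivative -/
noncomputable def D (f : (ι → ℝ) → ℝ) (i : ι) (x : ι → ℝ) : ℝ := fderiv ℝ f x (Pi.single i 1)

/-- Euclidean norm of the gradient -/
noncomputable def gn (f : (ι → ℝ) → ℝ) (x : ι → ℝ) : ℝ := √(∑ i, D f i x ^ 2)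

/-- standard Gaussian density -/
noncomputable def phi (x : ℝ) : ℝ := gaussianPDFReal 0 1 x

/-- standard Gaussian distribution function -/
noncomputable def Phi (x : ℝ) : ℝ := cdf (gaussianReal 0 1) x

/-- its inverse on `(0,1)` -/
noncomputable def PhiInv (u : ℝ) : ℝ := Function.invFun Phi u

open Classical in
/-- the Gaussian isoperimetric profile, extended by zero -/
noncomputable def Iso (u : ℝ) : ℝ := if u ∈ Set.Ioo (0 : ℝ) 1 then phi (PhiInv u) else 0

/-- the standard Gaussian measure on `ι → ℝ` -/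
noncomputable def gam (ι : Type) [Fintype ι] : Measure (ι → ℝ) :=
  Measure.pi fun _ => gaussianReal 0 1

instance : IsProbabilityMeasure (gam ι) := by unfold gam; infer_instance

/-- Gaussian averaging at scale `r` (heat semigroup at time `r^2/2`) -/
noncomputable def heat (r : ℝ) (F : (ι → ℝ) → ℝ) (x : ι → ℝ) : ℝ :=
  ∫ z, F (x + r • z) ∂(gam ι)

/-- admissible functions on the cube -/
structure Adm (u : (ι → ℝ) → ℝ) : Prop where
  diff : ∀ x ∈ Q ι, DifferentiableAt ℝ u x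
  range : ∃ κ > 0, ∀ x ∈ Q ι, u x ∈ Icc κ (1 - κ)
  grad : ∃ C, ∀ x ∈ Q ι, ∀ i, |D u i x| ≤ C

/-- globally admissible functions -/
structure GAdm (f : (ι → ℝ) → ℝ) : Prop where
  diff : Differentiable ℝ f
  range : ∃ κ > 0, ∀ x, f x ∈ Icc κ (1 - κ)
  grad : ∃ C, ∀ x i, |D f i x| ≤ C

/-- Bobkov's functional for the Gaussian factor of variance `1/π^2` -/
noncomputable def Bob (u : (ι → ℝ) → ℝ) : ℝ :=
  ∫ x in Q ι, √((π * Iso (u x)) ^ 2 + gn u x ^ 2)

/-- the relaxed infinite dimensional profile -/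
noncomputable def J (t : ℝ) : ℝ :=
  sInf {b | ∃ (d : ℕ) (u : (Fin d → ℝ) → ℝ), Adm u ∧ ∫ x in Q (Fin d), u x = t ∧ Bob u = b}

/-- De Giorgi perimeter relative to the cube -/
noncomputable def Per {d : ℕ} (E : Set (Fin d → ℝ)) : ENNReal :=
  ⨆ (φ : (Fin d → ℝ) → (Fin d → ℝ)) (_ : ContDiff ℝ 1 φ)
    (_ : HasCompactSupport φ)
    (_ : tsupport φ ⊆ {x : Fin d → ℝ | ∀ i, x i ∈ Set.Ioo (0:ℝ) 1})
    (_ : ∀ x, ∑ i, (φ x i) ^ 2 ≤ 1),
    ENNReal.ofReal (∫ x in E, ∑ i, fderiv ℝ φ x (Pi.single i 1) i)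

/-- the isoperimetric profile of the cube of dimension `d` -/
noncomputable def Prof (d : ℕ) (t : ℝ) : ENNReal :=
  ⨅ (E : Set (Fin d → ℝ)) (_ : MeasurableSet E)
    (_ : E ⊆ {x : Fin d → ℝ | ∀ i, x i ∈ Set.Ioo (0:ℝ) 1})
    (_ : MeasureTheory.volume E = ENNReal.ofReal t), Per E

/-- reflection in the `k`-th coordinate -/
def flip (k : ι) (x : ι → ℝ) : ι → ℝ := Function.update x k (-x k)

/-- `F` is `2`-periodic in each coordinate and has parity `s k` in coordinate `k` -/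
structure Sym (s : ι → ℝ) (F : (ι → ℝ) → ℝ) : Prop where
  per : ∀ k x, F (x + Pi.single k 2) = F x
  par : ∀ k x, F (flip k x) = s k * F x

/-- odd in coordinate `i`, even in the others -/
def sgnAt (i : ι) : ι → ℝ := fun k => if k = i then -1 else 1

omit [DecidableEq ι] in
lemma isOpen_Q : IsOpen (Q ι) := by
  have : Q ι = Set.pi univ (fun _ => Ioo (0 : ℝ) 1) := by
    ext x; simp [Q]
  rw [this]
  exact isOpen_set_pi finite_univ (fun _ _ => isOpen_Ioo)

omit [DecidableEq ι] in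
lemma measurableSet_Q : MeasurableSet (Q ι) := isOpen_Q.measurableSet

omit [DecidableEq ι] in
lemma volume_Q : volume (Q ι) = 1 := by
  have : Q ι = Set.pi univ (fun _ => Ioo (0 : ℝ) 1) := by
    ext x; simp [Q]
  rw [this, volume_pi_pi]
  simp

instance : IsProbabilityMeasure ((volume : Measure (ι → ℝ)).restrict (Q ι)) :=
  ⟨by rw [Measure.restrict_apply_univ, volume_Q]⟩

omit [DecidableEq ι] in
lemma restrict_Q_eq_pi : (volume : Measure (ι → ℝ)).restrict (Q ι) =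
    Measure.pi fun _ : ι => (volume : Measure ℝ).restrict (Ioo 0 1) := by
  have : Q ι = Set.pi univ (fun _ => Ioo (0 : ℝ) 1) := by
    ext x; simp [Q]
  rw [this, volume_pi, Measure.restrict_pi_pi]

omit [DecidableEq ι] in
lemma integrableOn_Q {F : (ι → ℝ) → ℝ} (hm : AEStronglyMeasurable F (volume.restrict (Q ι)))
    {C : ℝ} (hb : ∀ x ∈ Q ι, |F x| ≤ C) : IntegrableOn F (Q ι) := by
  refine Integrable.of_bound hm C ?_
  exact (ae_restrict_iff' measurableSet_Q).2 (Filter.Eventually.of_forall hb)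

lemma measurable_D (f : (ι → ℝ) → ℝ) (i : ι) : Measurable (D f i) :=
  measurable_fderiv_apply_const ℝ f _

lemma measurable_gn (f : (ι → ℝ) → ℝ) : Measurable (gn f) := by
  unfold gn
  exact (Finset.measurable_sum _ fun i _ => (measurable_D f i).pow_const 2).sqrt

lemma gn_nonneg (f : (ι → ℝ) → ℝ) (x : ι → ℝ) : 0 ≤ gn f x := Real.sqrt_nonneg _

lemma gn_sq (f : (ι → ℝ) → ℝ) (x : ι → ℝ) : gn f x ^ 2 = ∑ i, D f i x ^ 2 :=
  Real.sq_sqrt (Finset.sum_nonneg fun _ _ => sq_nonneg _)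

lemma abs_D_le_gn (f : (ι → ℝ) → ℝ) (i : ι) (x : ι → ℝ) : |D f i x| ≤ gn f x :=
  Real.abs_le_sqrt (Finset.single_le_sum (f := fun i => D f i x ^ 2)
    (fun _ _ => sq_nonneg _) (Finset.mem_univ i))

lemma gn_le_of_abs_D_le {f : (ι → ℝ) → ℝ} {x : ι → ℝ} {C : ℝ} (h : ∀ i, |D f i x| ≤ C) :
    gn f x ≤ Fintype.card ι * |C| := by
  unfold gn
  rw [Real.sqrt_le_left (by positivity)]
  calc ∑ i, D f i x ^ 2 ≤ ∑ _i : ι, |C| ^ 2 := Finset.sum_le_sum fun i _ => by
        rw [← sq_abs]; exact pow_le_pow_left₀ (abs_nonneg _) ((h i).trans (le_abs_self _)) 2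
    _ = Fintype.card ι * |C| ^ 2 := by simp
    _ ≤ (Fintype.card ι * |C|) ^ 2 := by
        rw [mul_pow]
        refine mul_le_mul_of_nonneg_right ?_ (by positivity)
        have : (Fintype.card ι : ℝ) ≤ (Fintype.card ι : ℝ) ^ 2 := by
          exact_mod_cast Nat.le_self_pow two_ne_zero _
        exact this

/-- a linear functional is determined by its values on the basis -/
lemma fderiv_apply_eq_sum (f : (ι → ℝ) → ℝ) (x v : ι → ℝ) :
    fderiv ℝ f x v = ∑ i, v i * D f i x := by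
  conv_lhs => rw [pi_eq_sum_univ' v]
  simp [map_sum, D]

lemma GAdm.adm {f : (ι → ℝ) → ℝ} (hf : GAdm f) : Adm f :=
  ⟨fun x _ => hf.diff x, hf.range.imp fun _ h => ⟨h.1, fun x _ => h.2 x⟩,
    hf.grad.imp fun _ h x _ => h x⟩

lemma Adm.continuousOn {u : (ι → ℝ) → ℝ} (hu : Adm u) : ContinuousOn u (Q ι) :=
  fun x hx => (hu.diff x hx).continuousAt.continuousWithinAt

lemma Adm.aesm {u : (ι → ℝ) → ℝ} (hu : Adm u) :
    AEStronglyMeasurable u (volume.restrict (Q ι)) :=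
  hu.continuousOn.aestronglyMeasurable measurableSet_Q

lemma Adm.mem_Ioo {u : (ι → ℝ) → ℝ} (hu : Adm u) {x : ι → ℝ} (hx : x ∈ Q ι) :
    u x ∈ Ioo (0 : ℝ) 1 := by
  obtain ⟨κ, hκ, h⟩ := hu.range
  exact ⟨hκ.trans_le (h x hx).1, (h x hx).2.trans_lt (by linarith)⟩

lemma Adm.integrableOn {u : (ι → ℝ) → ℝ} (hu : Adm u) : IntegrableOn u (Q ι) :=
  integrableOn_Q hu.aesm (C := 1) fun _ hx =>
    abs_le.2 ⟨by linarith [(hu.mem_Ioo hx).1], (hu.mem_Ioo hx).2.le⟩

lemma Adm.integrableOn_gn {u : (ι → ℝ) → ℝ} (hu : Adm u) : IntegrableOn (gn u) (Q ι) := by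
  obtain ⟨C, hC⟩ := hu.grad
  refine integrableOn_Q (measurable_gn u).aestronglyMeasurable
    (C := Fintype.card ι * |C|) fun x hx => ?_
  rw [abs_of_nonneg (gn_nonneg _ _)]
  exact gn_le_of_abs_D_le (hC x hx)

end Pool.Agent.P.MP_b7645d_gt
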