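import Pool.Agent.P.MP_b7645d_gt.Upper3

set_option autoImplicit false

open MeasureTheory ProbabilityTheory Set Real Filter Topology

namespace Pool.Agent.P.MP_b7645d_gt

lemma measurableSet_TT_le (m : ℕ) (s : ℝ) : MeasurableSet {y | TT m y ≤ s} :=
  measurableSet_le (continuous_TT m).measurable measurable_const

lemma integral_le_FF {m : ℕ} {f : (Fin m → ℝ) → ℝ} (h0 : ∀ y, 0 ≤ f y) (h1 : ∀ y, f y ≤ 1) {s : ℝ}
    (h : ∀ y, s < TT m y → f y = 0) : ∫ y in Q (Fin m), f y ≤ FF m s := by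
  rw [FF, ← integral_indicator_one (measurableSet_TT_le m s)]
  refine integral_mono_of_nonneg (Eventually.of_forall h0)
    ((integrable_const _).indicator (measurableSet_TT_le m s)) (Eventually.of_forall fun y => ?_)
  by_cases hy : TT m y ≤ s
  · simpa [indicator, hy] using h1 y
  · simp [indicator, hy, h y (not_le.1 hy)]

lemma FF_le_integral {m : ℕ} {f : (Fin m → ℝ) → ℝ} (hf : IntegrableOn f (Q (Fin m)))
    (h0 : ∀ y, 0 ≤ f y) {s : ℝ} (h : ∀ y, TT m y ≤ s → f y = 1) :
    FF m s ≤ ∫ y in Q (Fin m), f y := by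
  rw [FF, ← integral_indicator_one (measurableSet_TT_le m s)]
  refine integral_mono ((integrable_const _).indicator (measurableSet_TT_le m s)) hf fun y => ?_
  by_cases hy : TT m y ≤ s
  · simp [indicator, hy, h y hy]
  · simpa [indicator, hy] using h0 y

lemma phi_sub_le {M s t : ℝ} (hs : s ∈ Icc (-M) M) (ht : t ∈ Icc (-M) M) :
    |phi s - phi t| ≤ M * |s - t| := by
  refine (convex_Icc (-M) M).norm_image_sub_le_of_norm_hasDerivWithin_le
    (f := phi) (f' := fun x => -x * phi x) (fun x _ => (hasDerivAt_phi x).hasDerivWithinAt)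
    (fun x hx => ?_) ht hs
  have h1 : |x| ≤ M := abs_le.2 hx
  rw [Real.norm_eq_abs, abs_mul, abs_neg, abs_of_pos (phi_pos x)]
  have := phi_le_half x
  have := phi_pos x
  nlinarith [abs_nonneg x]

lemma Phi_sub_le {M p ρ α β : ℝ} (hαβ : α < β) (hα : p - ρ ≤ α) (hβ : β ≤ p + ρ)
    (hM : |p| + ρ ≤ M) : Phi β - Phi α ≤ (β - α) * (phi p + M * ρ) := by
  obtain ⟨ξ, hξ, h⟩ := exists_hasDerivAt_eq_slope Phi phi hαβ continuous_Phi.continuousOn
    fun x _ => hasDerivAt_Phi x
  have hρ : 0 ≤ ρ := by linarith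
  have hp := le_abs_self p
  have hp' := neg_abs_le p
  have hM0 : 0 ≤ M := by linarith [abs_nonneg p]
  have h1 := phi_sub_le (M := M) (s := ξ) (t := p) ⟨by linarith [hξ.1], by linarith [hξ.2]⟩
    ⟨by linarith, by linarith⟩
  have h2 : |ξ - p| ≤ ρ := abs_le.2 ⟨by linarith [hξ.1], by linarith [hξ.2]⟩
  have h3 : phi ξ ≤ phi p + M * ρ := by
    have := (le_abs_self _).trans (h1.trans (mul_le_mul_of_nonneg_left h2 hM0))
    linarith
  rw [eq_div_iff (by linarith)] at h
  rw [← h, mul_comm]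
  exact mul_le_mul_of_nonneg_left h3 (by linarith)

lemma exists_gap (M : ℝ) {ε : ℝ} (hε : 0 < ε) :
    ∃ γ > 0, ∀ s ∈ Icc (-M) M, γ ≤ Phi (s + ε) - Phi s := by
  rcases (Icc (-M) M).eq_empty_or_nonempty with h | h
  · exact ⟨1, one_pos, by simp [h]⟩
  obtain ⟨s, -, hs⟩ := isCompact_Icc.exists_isMinOn h
    (f := fun s => Phi (s + ε) - Phi s)
    ((continuous_Phi.comp (by fun_prop)).sub continuous_Phi).continuousOn
  exact ⟨_, sub_pos.2 (strictMono_Phi (by linarith : s < s + ε)), fun t ht => hs ht⟩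

lemma sqrt_fluct (A Z : ℝ) : √(A ^ 2 + π ^ 2 * (1 - Z)) ≤ √(A ^ 2 + π ^ 2) + π * |Z| := by
  have h1 : π ≤ √(A ^ 2 + π ^ 2) := Real.le_sqrt_of_sq_le (by nlinarith [sq_nonneg A])
  have h2 : √(A ^ 2 + π ^ 2) ^ 2 = A ^ 2 + π ^ 2 := Real.sq_sqrt (by positivity)
  have h3 := pi_pos
  have h4 := abs_nonneg Z
  have h5 := neg_abs_le Z
  rw [Real.sqrt_le_left (by positivity), add_sq, h2]
  have h6 : π * (π * |Z|) ≤ √(A ^ 2 + π ^ 2) * (π * |Z|) :=
    mul_le_mul_of_nonneg_right h1 (by positivity)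
  have h7 : π ^ 2 * -Z ≤ π ^ 2 * |Z| := mul_le_mul_of_nonneg_left (by linarith) (by positivity)
  nlinarith [sq_nonneg (π * |Z|), mul_nonneg (sq_nonneg π) h4]

lemma arith_main {g f ε G M τ E : ℝ} (hε : 0 < ε) (hε1 : ε ≤ 1) (hg0 : 0 ≤ g) (hg : g ≤ G)
    (hf0 : 0 ≤ f) (hf : f ≤ 1) (hM : 0 ≤ M) (hτ : 0 ≤ τ)
    (hE : E ≤ (ε + ε ^ 2) * (f + M * (3 * ε)) + 2 * τ) :
    E / ε * (g + ε) ≤ f * g + ε * (3 * M * G + (G + 2) * (1 + 3 * M)) + 2 * τ / ε * (G + 1) := by
  have h1 : E / ε ≤ (1 + ε) * (f + M * (3 * ε)) + 2 * τ / ε := by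
    rw [div_le_iff₀ hε, add_mul, div_mul_cancel₀ _ hε.ne']
    linarith
  have hG : 0 ≤ G := hg0.trans hg
  have h2 : (1 + ε) * (g + ε) ≤ g + ε * (G + 2) := by nlinarith
  have h3 : 0 ≤ f + M * (3 * ε) := by positivity
  have h4 : f + M * (3 * ε) ≤ 1 + 3 * M := by nlinarith
  have h5 : 0 ≤ 2 * τ / ε := by positivity
  calc E / ε * (g + ε) ≤ ((1 + ε) * (f + M * (3 * ε)) + 2 * τ / ε) * (g + ε) :=
        mul_le_mul_of_nonneg_right h1 (by positivity)
    _ = (1 + ε) * (g + ε) * (f + M * (3 * ε)) + 2 * τ / ε * (g + ε) := by ring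
    _ ≤ (g + ε * (G + 2)) * (f + M * (3 * ε)) + 2 * τ / ε * (G + 1) := by
        gcongr
    _ = f * g + ε * (3 * M * g) + ε * ((G + 2) * (f + M * (3 * ε))) + 2 * τ / ε * (G + 1) := by
        ring
    _ ≤ f * g + ε * (3 * M * G) + ε * ((G + 2) * (1 + 3 * M)) + 2 * τ / ε * (G + 1) := by
        gcongr
    _ = _ := by ring

theorem prof_le_abs {d : ℕ} {q : (Fin d → ℝ) → ℝ} (hqm : Measurable q)
    (hd : ∀ x ∈ Q (Fin d), DifferentiableAt ℝ q x) {C : ℝ} (hC : 0 ≤ C)
    (hq : ∀ x ∈ Q (Fin d), |q x| ≤ C) (hg : ∀ x ∈ Q (Fin d), ∀ i, |D q i x| ≤ C)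
    (N : ℕ) {η : ℝ} (hη : 0 < η) :
    ∃ n, N ≤ n ∧ Prof n (∫ x in Q (Fin d), Phi (-q x))
      ≤ ENNReal.ofReal ((∫ x in Q (Fin d), phi (-q x) * √(gn q x ^ 2 + π ^ 2)) + η) := by
  set g : (Fin d → ℝ) → ℝ := fun x => √(gn q x ^ 2 + π ^ 2) with hgdef
  have hgm : Measurable g := (((measurable_gn q).pow_const 2).add_const _).sqrt
  set G : ℝ := √((Fintype.card (Fin d) * |C|) ^ 2 + π ^ 2) with hG
  have hgG : ∀ x ∈ Q (Fin d), g x ≤ G := fun x hx => by
    refine Real.sqrt_le_sqrt ?_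
    have := pow_le_pow_left₀ (gn_nonneg q x) (gn_le_of_abs_D_le (hg x hx)) 2
    linarith
  have hG0 : 0 ≤ G := Real.sqrt_nonneg _
  set M : ℝ := C + 3 with hM
  have hM0 : 0 < M := by linarith
  set K : ℝ := 3 * M * G + (G + 2) * (1 + 3 * M) with hK
  have hK0 : 0 < K := by positivity
  set ε : ℝ := min 1 (η / 3 / K) with hεdef
  have hε : 0 < ε := lt_min one_pos (by positivity)
  have hε1 : ε ≤ 1 := min_le_left _ _
  have hεK : ε * K ≤ η / 3 := (le_div_iff₀ hK0).1 (min_le_right _ _)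
  obtain ⟨γ, hγ, hgap⟩ := exists_gap M hε
  set τ : ℝ := min γ (η / 3 * ε / (2 * (G + 1))) with hτdef
  have hτ : 0 < τ := lt_min hγ (by positivity)
  have hτγ : τ ≤ γ := min_le_left _ _
  have hτη : 2 * τ / ε * (G + 1) ≤ η / 3 := by
    have := (le_div_iff₀ (by positivity)).1 (min_le_right γ (η / 3 * ε / (2 * (G + 1))))
    rw [div_mul_eq_mul_div, div_le_iff₀ hε]
    linarith
  obtain ⟨m, ⟨hm1, hm2⟩, hm3, hm4⟩ := (((FF_unif M hτ).and
    (eventually_integral_abs_ZZ (θ := η / 3 * ε / π) (by positivity))).and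
    ((eventually_ge_atTop N).and (eventually_gt_atTop 0))).exists
  refine ⟨d + m + 1, by omega, ?_⟩
  set μ := (volume.restrict (Q (Fin d))).prod (volume.restrict (Q (Fin m))) with hμ
  have hae : ∀ᵐ p ∂μ, p.1 ∈ Q (Fin d) :=
    Measure.quasiMeasurePreserving_fst.ae (ae_restrict_mem measurableSet_Q)
  have hTm := (continuous_TT m).measurable
  have hTd : ∀ y, DifferentiableAt ℝ (TT m) y := fun y => (hasFDerivAt_TT m y).differentiableAt
  have ham : Measurable fun p : (Fin d → ℝ) × (Fin m → ℝ) => q p.1 + TT m p.2 :=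
    (hqm.comp measurable_fst).add (hTm.comp measurable_snd)
  -- the volume function
  set V : ℝ → ℝ := fun c => ∫ p, clamp ((c - (q p.1 + TT m p.2)) / ε + 1) ∂μ with hV
  have hVm : ∀ c, Measurable fun p : (Fin d → ℝ) × (Fin m → ℝ) =>
      clamp ((c - (q p.1 + TT m p.2)) / ε + 1) := fun c =>
    continuous_clamp.measurable.comp (((ham.const_sub c).div_const ε).add_const 1)
  have hcb : ∀ s, ‖clamp s‖ ≤ 1 := fun s => by
    rw [Real.norm_eq_abs, abs_of_nonneg (clamp_nonneg s)]
    exact clamp_le_one s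
  have hVc : Continuous V := by
    refine continuous_of_dominated (bound := fun _ => 1) (fun c => (hVm c).aestronglyMeasurable)
      (fun c => Eventually.of_forall fun p => hcb _) (integrable_const _)
      (Eventually.of_forall fun p => continuous_clamp.comp (by fun_prop))
  have hVi : ∀ c, Integrable (fun p : (Fin d → ℝ) × (Fin m → ℝ) =>
      clamp ((c - (q p.1 + TT m p.2)) / ε + 1)) μ := fun c =>
    Integrable.of_bound (hVm c).aestronglyMeasurable 1 (Eventually.of_forall fun p => hcb _)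
  have hPi : IntegrableOn (fun x => Phi (-q x)) (Q (Fin d)) :=
    integrableOn_Q (continuous_Phi.measurable.comp hqm.neg).aestronglyMeasurable (C := 1)
      fun x _ => abs_le.2 ⟨by linarith [(Phi_mem_Ioo (-q x)).1], (Phi_mem_Ioo _).2.le⟩
  have hV1 : V (-2 * ε) ≤ ∫ x in Q (Fin d), Phi (-q x) := by
    simp only [hV, hμ]
    rw [integral_prod _ (hVi _)]
    refine setIntegral_mono_on (hVi _).integral_prod_left hPi measurableSet_Q fun x hx => ?_
    have hqx := abs_le.1 (hq x hx)
    have hs : -q x - ε ∈ Icc (-M) M := ⟨by linarith [hqx.2], by linarith [hqx.1]⟩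
    refine (integral_le_FF (s := -q x - ε) (fun y => clamp_nonneg _) (fun y => clamp_le_one _)
      fun y hy => ?_).trans ?_
    · have : (-2 * ε - (q x + TT m y)) / ε + 1 ≤ 0 := by
        rw [div_add_one hε.ne']
        exact div_nonpos_of_nonpos_of_nonneg (by linarith) hε.le
      simp only [clamp]
      exact max_eq_left ((min_le_right _ _).trans this)
    · have h1 := abs_le.1 (hm1 _ hs)
      have h2 := hgap _ hs
      rw [sub_add_cancel] at h2
      linarith [h1.2]
  have hV2 : ∫ x in Q (Fin d), Phi (-q x) ≤ V ε := by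
    simp only [hV, hμ]
    rw [integral_prod _ (hVi _)]
    refine setIntegral_mono_on hPi (hVi _).integral_prod_left measurableSet_Q fun x hx => ?_
    have hqx := abs_le.1 (hq x hx)
    have hs : -q x + ε ∈ Icc (-M) M := ⟨by linarith [hqx.2], by linarith [hqx.1]⟩
    have hs' : -q x ∈ Icc (-M) M := ⟨by linarith [hqx.2], by linarith [hqx.1]⟩
    refine le_trans ?_ (FF_le_integral (s := -q x + ε) ?_ (fun y => clamp_nonneg _)
      fun y hy => ?_)
    · have h1 := abs_le.1 (hm1 _ hs)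
      have h2 := hgap _ hs'
      linarith [h1.1]
    · exact Integrable.of_bound ((hVm ε).comp measurable_prodMk_left).aestronglyMeasurable 1
        (Eventually.of_forall fun y => hcb _)
    · have : 1 ≤ (ε - (q x + TT m y)) / ε + 1 :=
        le_add_of_nonneg_left (div_nonneg (by linarith) hε.le)
      simp only [clamp]
      rw [min_eq_left this, max_eq_right zero_le_one]
  obtain ⟨c, hc, hcV⟩ := intermediate_value_Icc (by linarith : -2 * ε ≤ ε) hVc.continuousOn
    ⟨hV1, hV2⟩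
  have had : ∀ w ∈ Q (Fin d ⊕ Fin m), DifferentiableAt ℝ (ssum q (TT m)) w := fun w hw =>
    differentiableAt_ssum (hd _ (pre_mem_Q _ hw)) (hTd _)
  have hag : ∀ w ∈ Q (Fin d ⊕ Fin m), ∀ j, |D (ssum q (TT m)) j w| ≤ C + (√m)⁻¹ * (√2 * π) :=
    fun w hw j => by
      have h0 : 0 ≤ (√m)⁻¹ * (√2 * π) := by positivity
      refine abs_D_ssum_le (hd _ (pre_mem_Q _ hw)) (hTd _) (fun i => ?_) (fun i => ?_) j
      · linarith [hg _ (pre_mem_Q Sum.inl hw) i]
      · linarith [abs_D_TT_le m (pre Sum.inr w) i]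
  have key := prof_le_slab (ι := Fin d ⊕ Fin m) (n := d + m + 1) (by simp)
    (measurable_ssum hqm hTm) had hag c hε
    (B := (∫ x in Q (Fin d), phi (-q x) * g x) + η) ?_
  · rw [← hcV]
    convert key using 2
    exact (integral_pre_sum fun p => clamp ((c - (q p.1 + TT m p.2)) / ε + 1)).symm
  have hk1 : ∀ᶠ k : ℕ in atTop, 1 ≤ (k : ℝ) * ε ^ 2 :=
    (tendsto_natCast_atTop_atTop.atTop_mul_const (by positivity)).eventually_ge_atTop 1
  filter_upwards [hk1] with k hk1
  set Δ : ℝ → ℝ := fun s => hk k c (s - ε) - hk k c s with hΔ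
  have hΔ0 : ∀ s, 0 ≤ Δ s := fun s => sub_nonneg.2 (antitone_hk k c (by linarith))
  have hΔ1 : ∀ s, Δ s ≤ 1 := fun s => by
    simp only [hΔ]
    linarith [hk_le_one k c (s - ε), hk_nonneg k c s]
  have hΔc : Continuous Δ := ((continuous_hk k c).comp (by fun_prop)).sub (continuous_hk k c)
  set H : (Fin d → ℝ) × (Fin m → ℝ) → ℝ :=
    fun p => Δ (q p.1 + TT m p.2) / ε * (g p.1 + ε) + π / ε * |ZZ m p.2| with hH
  have hHm : Measurable H :=
    (((hΔc.measurable.comp ham).div_const ε).mul ((hgm.comp measurable_fst).add_const ε)).add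
      (((continuous_ZZ m).abs.measurable.comp measurable_snd).const_mul _)
  have hHb : ∀ p : (Fin d → ℝ) × (Fin m → ℝ), p.1 ∈ Q (Fin d) →
      |H p| ≤ 1 / ε * (G + ε) + π / ε * 1 := fun p hp => by
    have h0 : 0 ≤ g p.1 := Real.sqrt_nonneg _
    have h1 := hΔ0 (q p.1 + TT m p.2)
    have h2 := hΔ1 (q p.1 + TT m p.2)
    have h3 := hgG _ hp
    have h4 := abs_ZZ_le m p.2
    have h5 := pi_pos
    rw [abs_of_nonneg (by positivity)]
    simp only [hH]
    gcongr
  have hHi : Integrable H μ :=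
    Integrable.of_bound hHm.aestronglyMeasurable _ (hae.mono fun p hp => hHb p hp)
  have hBi : IntegrableOn (fun x => phi (-q x) * g x) (Q (Fin d)) := by
    refine integrableOn_Q ((continuous_phi.measurable.comp hqm.neg).mul hgm).aestronglyMeasurable
      (C := 1 / 2 * G) fun x hx => ?_
    have h0 : 0 ≤ g x := Real.sqrt_nonneg _
    rw [abs_of_nonneg (mul_nonneg (phi_pos _).le h0)]
    exact mul_le_mul (phi_le_half _) (hgG x hx) h0 (by norm_num)
  calc ∫ w in Q (Fin d ⊕ Fin m), Δ (ssum q (TT m) w) / ε * (gn (ssum q (TT m)) w + ε)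
      ≤ ∫ w in Q (Fin d ⊕ Fin m), H (pre Sum.inl w, pre Sum.inr w) := by
        refine integral_mono_of_nonneg (Eventually.of_forall fun w => mul_nonneg
          (div_nonneg (hΔ0 _) hε.le) (add_nonneg (gn_nonneg _ _) hε.le)) ?_ ?_
        · exact integrableOn_Q (hHm.comp ((measurable_pre Sum.inl).prodMk
            (measurable_pre Sum.inr))).aestronglyMeasurable
            fun w hw => hHb _ (pre_mem_Q Sum.inl hw)
        · refine (ae_restrict_iff' measurableSet_Q).2 (Eventually.of_forall fun w hw => ?_)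
          have h1 : gn (ssum q (TT m)) w ≤ g (pre Sum.inl w) + π * |ZZ m (pre Sum.inr w)| := by
            rw [gn_ssum (hd _ (pre_mem_Q _ hw)) (hTd _), gn_TT_sq hm4]
            exact sqrt_fluct _ _
          have h2 := hΔ0 (ssum q (TT m) w)
          have h3 := hΔ1 (ssum q (TT m) w)
          have h5 := pi_pos
          calc Δ (ssum q (TT m) w) / ε * (gn (ssum q (TT m)) w + ε)
              ≤ Δ (ssum q (TT m) w) / ε
                * (g (pre Sum.inl w) + π * |ZZ m (pre Sum.inr w)| + ε) := by gcongr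
            _ = Δ (ssum q (TT m) w) / ε * (g (pre Sum.inl w) + ε)
                + Δ (ssum q (TT m) w) * (π / ε * |ZZ m (pre Sum.inr w)|) := by ring
            _ ≤ Δ (ssum q (TT m) w) / ε * (g (pre Sum.inl w) + ε)
                + 1 * (π / ε * |ZZ m (pre Sum.inr w)|) := by gcongr
            _ = H (pre Sum.inl w, pre Sum.inr w) := by rw [one_mul]; rfl
    _ = ∫ p, H p ∂μ := integral_pre_sum H
    _ = ∫ x in Q (Fin d), ∫ y in Q (Fin m), H (x, y) := integral_prod _ hHi
    _ ≤ ∫ x in Q (Fin d), (phi (-q x) * g x + η) := by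
        refine setIntegral_mono_on hHi.integral_prod_left (hBi.add (integrable_const _))
          measurableSet_Q fun x hx => ?_
        have hqx := abs_le.1 (hq x hx)
        have hint : ∀ s : ℝ, IntegrableOn (fun y => hk k c (q x + TT m y - s)) (Q (Fin m)) :=
          fun s => integrableOn_Q ((continuous_hk k c).comp
            ((continuous_const.add (continuous_TT m)).sub continuous_const)).aestronglyMeasurable
            (C := 1) fun y _ => by rw [abs_of_nonneg (hk_nonneg _ _ _)]; exact hk_le_one _ _ _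
        have hint0 : IntegrableOn (fun y => hk k c (q x + TT m y)) (Q (Fin m)) := by
          simpa using hint 0
        have e1 : ∫ y in Q (Fin m), H (x, y)
            = ((∫ y in Q (Fin m), hk k c (q x + TT m y - ε))
              - ∫ y in Q (Fin m), hk k c (q x + TT m y)) / ε * (g x + ε)
              + π / ε * ∫ y in Q (Fin m), |ZZ m y| := by
          simp only [hH, hΔ]
          have hi : Integrable (fun y => (hk k c (q x + TT m y - ε) - hk k c (q x + TT m y)) / ε
              * (g x + ε)) (volume.restrict (Q (Fin m))) :=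
            (((hint ε).sub hint0).div_const ε).mul_const _
          rw [integral_add hi
            ((integrableOn_abs_ZZ m).const_mul _), integral_mul_const, integral_div,
            integral_sub (hint ε) hint0, integral_const_mul]
        have e2 : ∫ y in Q (Fin m), hk k c (q x + TT m y - ε) ≤ FF m (-q x + c + ε) :=
          integral_le_FF (fun y => hk_nonneg _ _ _) (fun y => hk_le_one _ _ _)
            fun y hy => hk_of_le (by linarith)
        have e3 : FF m (-q x + c - ε ^ 2) ≤ ∫ y in Q (Fin m), hk k c (q x + TT m y) :=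
          FF_le_integral hint0 (fun y => hk_nonneg _ _ _) fun y hy => hk_of_one_le
            (hk1.trans (mul_le_mul_of_nonneg_left (by linarith) (Nat.cast_nonneg _)))
        have hε2 : ε ^ 2 ≤ ε := by nlinarith
        have hε3 : 0 < ε ^ 2 := by positivity
        have f1 := abs_le.1 (hm1 (-q x + c + ε)
          ⟨by linarith [hqx.2, hc.1], by linarith [hqx.1, hc.2]⟩)
        have f2 := abs_le.1 (hm1 (-q x + c - ε ^ 2)
          ⟨by linarith [hqx.2, hc.1], by linarith [hqx.1, hc.2]⟩)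
        have f3 := Phi_sub_le (M := M) (p := -q x) (ρ := 3 * ε) (α := -q x + c - ε ^ 2)
          (β := -q x + c + ε) (by linarith) (by linarith [hc.1]) (by linarith [hc.2])
          (by rw [abs_neg]; linarith [hq x hx])
        have f4 := arith_main (g := g x) (f := phi (-q x)) (G := G) (M := M) (τ := τ)
          (E := (∫ y in Q (Fin m), hk k c (q x + TT m y - ε))
              - ∫ y in Q (Fin m), hk k c (q x + TT m y)) hε hε1 (Real.sqrt_nonneg _) (hgG x hx)
          (phi_pos _).le ((phi_le_half _).trans (by norm_num)) hM0.le hτ.le (by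
            rw [show -q x + c + ε - (-q x + c - ε ^ 2) = ε + ε ^ 2 by ring] at f3
            linarith [f1.2, f2.1])
        have f5 : π / ε * ∫ y in Q (Fin m), |ZZ m y| ≤ η / 3 := by
          calc π / ε * ∫ y in Q (Fin m), |ZZ m y| ≤ π / ε * (η / 3 * ε / π) :=
                mul_le_mul_of_nonneg_left hm2 (by positivity)
            _ = η / 3 := by field_simp
        rw [e1]
        linarith
    _ = _ := by
        rw [integral_add hBi (integrable_const _)]
        simp

/-- the cube profile in high dimension is bounded by Bobkov's functional (CLT competitor) -/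
theorem prof_le_bob {d : ℕ} {u : (Fin d → ℝ) → ℝ} (hu : Adm u) (N : ℕ) {η : ℝ} (hη : 0 < η) :
    ∃ n, N ≤ n ∧ Prof n (∫ x in Q (Fin d), u x) ≤ ENNReal.ofReal (Bob u + η) := by
  classical
  obtain ⟨κ, hκ, hr⟩ := hu.range
  obtain ⟨C₀, hC₀⟩ := hu.grad
  obtain ⟨C, hC, hb⟩ := exists_bounds hκ
  set q : (Fin d → ℝ) → ℝ := (Q (Fin d)).piecewise (fun x => -PhiInv (u x)) 0 with hq
  have hqe : ∀ x ∈ Q (Fin d), q x = -PhiInv (u x) := fun x hx => piecewise_eq_of_mem _ _ _ hx
  have hqe' : ∀ x ∈ Q (Fin d), q =ᶠ[𝓝 x] fun x => -PhiInv (u x) := fun x hx => by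
    filter_upwards [isOpen_Q.mem_nhds hx] with y hy using hqe y hy
  have hd0 : ∀ x ∈ Q (Fin d), DifferentiableAt ℝ (fun x => -PhiInv (u x)) x := fun x hx =>
    ((hasDerivAt_PhiInv (hu.mem_Ioo hx)).differentiableAt.comp x (hu.diff x hx)).neg
  have hqm : Measurable q :=
    ContinuousOn.measurable_piecewise
      (fun x hx => (hd0 x hx).continuousAt.continuousWithinAt) continuousOn_const measurableSet_Q
  have hd : ∀ x ∈ Q (Fin d), DifferentiableAt ℝ q x := fun x hx =>
    (hd0 x hx).congr_of_eventuallyEq (hqe' x hx)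
  have hD : ∀ x ∈ Q (Fin d), ∀ i, D q i x = -(Iso (u x))⁻¹ * D u i x := fun x hx i => by
    rw [← D_comp (h := fun s => -PhiInv s) (hasDerivAt_PhiInv (hu.mem_Ioo hx)).neg (hu.diff x hx) i]
    unfold D
    rw [(hqe' x hx).fderiv_eq]
  have hC' : 0 ≤ C * |C₀| := by positivity
  obtain ⟨n, hn, h⟩ := prof_le_abs hqm hd (C := C + C * |C₀|) (by linarith)
    (fun x hx => by
      rw [hqe x hx, abs_neg]
      linarith [(hb _ (hr x hx)).1])
    (fun x hx i => by
      rw [hD x hx, abs_mul, abs_neg, abs_of_pos (inv_pos.2 (Iso_pos (hu.mem_Ioo hx)))]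
      have := mul_le_mul (hb _ (hr x hx)).2 ((hC₀ x hx i).trans (le_abs_self _)) (abs_nonneg _)
        hC.le
      linarith) N hη
  refine ⟨n, hn, ?_⟩
  have e1 : ∫ x in Q (Fin d), u x = ∫ x in Q (Fin d), Phi (-q x) := by
    refine setIntegral_congr_fun measurableSet_Q fun x hx => ?_
    simp only [hqe x hx, neg_neg, Phi_PhiInv (hu.mem_Ioo hx)]
  have e2 : Bob u = ∫ x in Q (Fin d), phi (-q x) * √(gn q x ^ 2 + π ^ 2) := by
    refine setIntegral_congr_fun measurableSet_Q fun x hx => ?_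
    have hI := Iso_pos (hu.mem_Ioo hx)
    have h1 : gn q x ^ 2 = (Iso (u x))⁻¹ ^ 2 * gn u x ^ 2 := by
      rw [gn_sq, gn_sq, Finset.mul_sum]
      refine Finset.sum_congr rfl fun i _ => ?_
      rw [hD x hx]
      ring
    simp only [hqe x hx, neg_neg, ← Iso_of_mem (hu.mem_Ioo hx), h1]
    rw [← Real.sqrt_sq hI.le, ← Real.sqrt_mul (sq_nonneg _), Real.sqrt_sq hI.le]
    congr 1
    field_simp
    ring
  rw [e1, e2]
  exact h

end Pool.Agent.P.MP_b7645d_gt
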