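import Pool.Agent.P.MP_b7645d_gt.StepCD
import Pool.Agent.P.MP_b7645d_gt.Upper

set_option autoImplicit false

open MeasureTheory ProbabilityTheory Set Real Filter Topology

namespace Pool.Agent.P.MP_b7645d_gt

lemma lim_le {F G : ℝ → ℝ} (hF : ContinuousAt F 0) (hG : ContinuousAt G 0)
    (h : ∀ᶠ x in 𝓝[>] (0 : ℝ), F x ≤ G x) : F 0 ≤ G 0 :=
  le_of_tendsto_of_tendsto (hF.tendsto.mono_left nhdsWithin_le_nhds)
    (hG.tendsto.mono_left nhdsWithin_le_nhds) h

lemma eventually_small {c d : ℝ} (hd : 0 < d) : ∀ᶠ x in 𝓝[>] (0 : ℝ), 0 < x ∧ x * c < d := by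
  have h : ∀ᶠ x in 𝓝 (0 : ℝ), x * c < d :=
    (continuous_id.mul continuous_const).continuousAt.eventually_lt continuousAt_const
      (by simpa using hd)
  exact (eventually_mem_nhdsWithin).and (h.filter_mono nhdsWithin_le_nhds)

/-- the relaxed profile is not approached in a fixed dimension at a point of large slope -/
theorem no_almost_min {N : ℕ} (hN : 0 < N) {t H M ρ : ℝ} (hH : 128 ≤ H) (hM : 0 ≤ M) (hρ : 0 < ρ)
    (hP : 0 < J t) (supp : ∀ s, |s - t| ≤ ρ → J t + H * (s - t) - M * (s - t) ^ 2 ≤ J s)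
    (hex : ∀ β, 0 < β → ∃ f : (Fin N → ℝ) → ℝ, GAdm f ∧ Sym 1 f ∧ ∫ x in Q (Fin N), f x = t ∧
      ∫ x in Q (Fin N), gn f x ≤ J t + β ∧ ∫ x in Q (Fin N), Iso (f x) ≤ β) : False := by
  have main : ∀ p, 0 < p → p < π → (p ^ 2 + 1 / N) * J t ≤ π ^ 2 * J t := by
    intro p hp0 hp
    obtain ⟨B, hB, hB'⟩ := test_bounds p H (tan (p / 2))
    set C₂ := 2 * (B + B ^ 2 / 4) + H * B + 36 with hC₂
    have s3 : ∀ ϑ, 0 < ϑ → ∀ r, 0 < r → π * r < 1 →
        (p ^ 2 + 1 / N) * J t - C₂ * N * ϑ * J t ≤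
          (π ^ 2 + C₂ * (π * r) ^ 2 / ϑ) * J t / (1 - π * r) := by
      intro ϑ hϑ r hr hr'
      set C := B + B * (1 / r) with hC
      have hC0 : 0 ≤ C := by positivity
      have s1 : ∀ ε, 0 < ε → ε * (C * N) < 1 / 2 → ε * (C * (J t + 1)) < ρ →
          (p ^ 2 + 1 / N) * J t - C₂ * N * ϑ * J t -
            N * (ε * (2 * N * C ^ 2) * J t + M * ε * (C * J t) ^ 2) ≤
          (2 / r ^ 2 + 2 * C₂ / ϑ) * ((π * r) ^ 2 / 2 * J t / (1 - π * r)) := by
        intro ε hε h1 h2
        have := lim_le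
          (F := fun β => (p ^ 2 + 1 / N) * (J t - π * β) - C₂ * N * ϑ * (J t + β) -
            N * ((2 * π + 1) * β / ε + ε * (2 * N * C ^ 2) * (J t + β) +
              M * ε * (C * (J t + β)) ^ 2))
          (G := fun β => (2 / r ^ 2 + 2 * C₂ / ϑ) *
            (((π * r) ^ 2 / 2 * (J t + β) + (π + 1) * β) / (1 - π * r)))
          (by fun_prop) (by fun_prop) ((eventually_small (c := 1) one_pos).mono fun β hβ => by
            obtain ⟨f, hf, hs, hft, hV, hI⟩ := hex β hβ.1
            refine stepD hN hf hs supp hM hH hp0 hp hB hB' hft hV hI hβ.1.le hr hr' hϑ hε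
              (by rw [mul_assoc]; exact h1.le) (le_trans ?_ h2.le)
            have := hβ.2
            gcongr
            linarith)
        simpa using this
      have := lim_le
        (F := fun ε => (p ^ 2 + 1 / N) * J t - C₂ * N * ϑ * J t -
            N * (ε * (2 * N * C ^ 2) * J t + M * ε * (C * J t) ^ 2))
        (G := fun _ => (2 / r ^ 2 + 2 * C₂ / ϑ) * ((π * r) ^ 2 / 2 * J t / (1 - π * r)))
        (by fun_prop) (by fun_prop)
        (((eventually_small (c := C * N) one_half_pos).and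
          (eventually_small (c := C * (J t + 1)) hρ)).mono fun ε hε =>
            s1 ε hε.1.1 hε.1.2 hε.2.2)
      simp only [zero_mul, mul_zero, add_zero, sub_zero] at this
      refine this.trans_eq ?_
      have : 1 - π * r ≠ 0 := by linarith
      field_simp
    have s4 : ∀ ϑ, 0 < ϑ → (p ^ 2 + 1 / N) * J t - C₂ * N * ϑ * J t ≤ π ^ 2 * J t := by
      intro ϑ hϑ
      have := lim_le (F := fun _ => (p ^ 2 + 1 / N) * J t - C₂ * N * ϑ * J t)
        (G := fun r => (π ^ 2 + C₂ * (π * r) ^ 2 / ϑ) * J t / (1 - π * r)) (by fun_prop)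
        (by fun_prop (disch := simp))
        ((eventually_small (c := π) one_pos).mono fun r hr =>
          s3 ϑ hϑ r hr.1 (by rw [mul_comm]; exact hr.2))
      simpa using this
    have := lim_le (F := fun ϑ => (p ^ 2 + 1 / N) * J t - C₂ * N * ϑ * J t)
      (G := fun _ => π ^ 2 * J t) (by fun_prop) (by fun_prop)
      (eventually_mem_nhdsWithin.mono s4)
    simpa using this
  have := lim_le (F := fun δ => ((π - δ) ^ 2 + 1 / N) * J t) (G := fun _ => π ^ 2 * J t)
    (by fun_prop) (by fun_prop) ((eventually_small (c := 1) pi_pos).mono fun δ hδ =>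
      main _ (by linarith [hδ.2]) (by linarith [hδ.1]))
  have h1 : 0 < 1 / (N : ℝ) * J t := by positivity
  simp only [sub_zero] at this
  linarith

/-- the isoperimetric profile of the cube is not eventually constant in the dimension -/
theorem not_eventually_const :
    ¬ ∀ t ∈ Set.Icc (0 : ℝ) 1, ∃ N : ℕ, ∀ d ≥ N, Prof d t = Prof N t := by
  intro h
  obtain ⟨t, H, M, ρ, ht, hH, hM, hρ, hP, supp⟩ := exists_support 128 (by norm_num)
  obtain ⟨N₀, hN₀⟩ := h t (Ioo_subset_Icc_self ht)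
  refine no_almost_min (N := N₀ + 1) (Nat.succ_pos _) hH hM hρ hP supp fun β hβ => ?_
  obtain ⟨d, u, hu, hut, hb⟩ := exists_bob_lt ht (η := β / 3) (by positivity)
  obtain ⟨n, hn, hle⟩ := prof_le_bob hu N₀ (η := β / 3) (by positivity)
  rw [hut, hN₀ n hn, ← hN₀ (N₀ + 1) (Nat.le_succ _)] at hle
  have hlt : Prof (N₀ + 1) t < ENNReal.ofReal (J t + β) :=
    hle.trans_lt ((ENNReal.ofReal_lt_ofReal_iff (by linarith)).2 (by linarith))
  simp only [Prof, iInf_lt_iff] at hlt
  obtain ⟨E, hE, hEQ, hvol, hPer⟩ := hlt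
  exact exists_smooth hE hEQ ht hvol (by linarith) hPer.le hβ

end Pool.Agent.P.MP_b7645d_gt
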