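import Pool.Agent.P.MP_b7645d_gt.Gauss1

set_option autoImplicit false

open MeasureTheory ProbabilityTheory Set Real Filter Topology

namespace Pool.Agent.P.MP_b7645d_gt

variable {ι : Type} [Fintype ι] [DecidableEq ι]

namespace FV

/-- the hypotheses on the deformation field -/
structure Hyp (Φ : (ι → ℝ) → ℝ) (i : ι) (C ε : ℝ) : Prop where
  hC : 0 ≤ C
  hε : 0 < ε
  hεC : ε * C * Fintype.card ι ≤ 1 / 2
  hΦ : ∀ x ∈ Q ι, DifferentiableAt ℝ Φ x
  hΦ' : ∀ x ∈ Q ι, ∀ j, |D Φ j x| ≤ C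
  hΦ0 : ∀ x ∈ Q ι, |Φ x| ≤ C * min (x i) (1 - x i)

/-- the deformation -/
noncomputable def psi (Φ : (ι → ℝ) → ℝ) (i : ι) (ε : ℝ) (x : ι → ℝ) : ι → ℝ :=
  x + (ε * Φ x) • (Pi.single i 1 : ι → ℝ)

/-- its derivative -/
noncomputable def L (Φ : (ι → ℝ) → ℝ) (i : ι) (ε : ℝ) (x : ι → ℝ) : (ι → ℝ) →L[ℝ] (ι → ℝ) :=
  ContinuousLinearMap.id ℝ _ + (ε • fderiv ℝ Φ x).smulRight (Pi.single i 1 : ι → ℝ)

omit [Fintype ι] [DecidableEq ι] in
lemma convex_Q : Convex ℝ (Q ι) := by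
  have : Q ι = Set.pi univ (fun _ => Ioo (0 : ℝ) 1) := by
    ext x; simp [Q]
  rw [this]
  exact convex_pi fun _ _ => convex_Ioo _ _

lemma det_L (Φ : (ι → ℝ) → ℝ) (i : ι) (ε : ℝ) (x : ι → ℝ) :
    (L Φ i ε x).det = 1 + ε * D Φ i x := by
  have h : LinearMap.toMatrix' (L Φ i ε x : (ι → ℝ) →ₗ[ℝ] (ι → ℝ)) =
      1 + Matrix.replicateCol Unit (Pi.single i (1 : ℝ) : ι → ℝ) *
        Matrix.replicateRow Unit (fun j => ε * D Φ j x) := by
    ext a b
    simp [L, D, LinearMap.toMatrix'_apply, Matrix.mul_apply, Matrix.one_apply, Pi.single_apply,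
      mul_comm]
  rw [ContinuousLinearMap.det, ← LinearMap.det_toMatrix', h,
    Matrix.det_one_add_replicateCol_mul_replicateRow]
  simp

variable {Φ : (ι → ℝ) → ℝ} {i : ι} {C ε : ℝ}

lemma Hyp.εC (h : Hyp Φ i C ε) : ε * C ≤ 1 / 2 := by
  have h1 : (1 : ℝ) ≤ Fintype.card ι := by
    have : 0 < Fintype.card ι := Fintype.card_pos_iff.2 ⟨i⟩
    exact_mod_cast this
  have h2 : 0 ≤ ε * C := mul_nonneg h.hε.le h.hC
  nlinarith [h.hεC]

lemma Hyp.abs_εD (h : Hyp Φ i C ε) {x : ι → ℝ} (hx : x ∈ Q ι) (j : ι) :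
    |ε * D Φ j x| ≤ 1 / 2 := by
  rw [abs_mul, abs_of_pos h.hε]
  exact (mul_le_mul_of_nonneg_left (h.hΦ' x hx j) h.hε.le).trans h.εC

lemma Hyp.det_mem (h : Hyp Φ i C ε) {x : ι → ℝ} (hx : x ∈ Q ι) :
    1 / 2 ≤ 1 + ε * D Φ i x ∧ 1 + ε * D Φ i x ≤ 3 / 2 := by
  have := abs_le.1 (h.abs_εD hx i)
  constructor <;> linarith [this.1, this.2]

lemma Hyp.abs_εΦ (h : Hyp Φ i C ε) {x : ι → ℝ} (hx : x ∈ Q ι) :
    |ε * Φ x| ≤ min (x i) (1 - x i) / 2 := by
  have h0 : 0 ≤ min (x i) (1 - x i) := le_min (hx i).1.le (by linarith [(hx i).2])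
  rw [abs_mul, abs_of_pos h.hε]
  calc ε * |Φ x| ≤ ε * (C * min (x i) (1 - x i)) :=
        mul_le_mul_of_nonneg_left (h.hΦ0 x hx) h.hε.le
    _ = ε * C * min (x i) (1 - x i) := by ring
    _ ≤ 1 / 2 * min (x i) (1 - x i) := mul_le_mul_of_nonneg_right h.εC h0
    _ = _ := by ring

lemma Hyp.hasFDerivAt (h : Hyp Φ i C ε) {x : ι → ℝ} (hx : x ∈ Q ι) :
    HasFDerivAt (psi Φ i ε) (L Φ i ε x) x := by
  have h1 : HasFDerivAt (fun y => ε * Φ y) (ε • fderiv ℝ Φ x) x :=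
    (h.hΦ x hx).hasFDerivAt.const_mul ε
  exact (hasFDerivAt_id x).add (h1.smul_const _)

lemma Hyp.mapsTo (h : Hyp Φ i C ε) {x : ι → ℝ} (hx : x ∈ Q ι) : psi Φ i ε x ∈ Q ι := by
  intro j
  by_cases hj : j = i
  · subst hj
    have h1 := abs_le.1 (h.abs_εΦ hx)
    have h2 := min_le_left (x j) (1 - x j)
    have h3 := min_le_right (x j) (1 - x j)
    have h4 := hx j
    simp only [psi, Pi.add_apply, Pi.smul_apply, Pi.single_eq_same, smul_eq_mul, mul_one]
    constructor <;> linarith [h1.1, h1.2, h4.1, h4.2]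
  · simpa [psi, hj] using hx j

lemma Hyp.norm_fderiv_le (h : Hyp Φ i C ε) {x : ι → ℝ} (hx : x ∈ Q ι) :
    ‖fderiv ℝ Φ x‖ ≤ C * Fintype.card ι := by
  refine ContinuousLinearMap.opNorm_le_bound _ (mul_nonneg h.hC (Nat.cast_nonneg _)) fun v => ?_
  rw [fderiv_apply_eq_sum, Real.norm_eq_abs]
  calc |∑ j, v j * D Φ j x| ≤ ∑ j, |v j * D Φ j x| := Finset.abs_sum_le_sum_abs _ _
    _ ≤ ∑ _j : ι, ‖v‖ * C := Finset.sum_le_sum fun j _ => by
        rw [abs_mul]
        exact mul_le_mul (norm_le_pi_norm v j) (h.hΦ' x hx j) (abs_nonneg _) (norm_nonneg _)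
    _ = _ := by simp; ring

lemma Hyp.antilip (h : Hyp Φ i C ε) {x y : ι → ℝ} (hx : x ∈ Q ι) (hy : y ∈ Q ι) :
    ‖x - y‖ ≤ 2 * ‖psi Φ i ε x - psi Φ i ε y‖ := by
  have h1 : ‖Φ x - Φ y‖ ≤ C * Fintype.card ι * ‖x - y‖ :=
    convex_Q.norm_image_sub_le_of_norm_fderiv_le h.hΦ (fun z hz => h.norm_fderiv_le hz) hy hx
  have h2 : x - y = (psi Φ i ε x - psi Φ i ε y) -
      (ε * (Φ x - Φ y)) • (Pi.single i 1 : ι → ℝ) := by
    simp only [psi, mul_sub, sub_smul]; abel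
  have h3 : ‖(ε * (Φ x - Φ y)) • (Pi.single i 1 : ι → ℝ)‖ ≤ 1 / 2 * ‖x - y‖ := by
    rw [norm_smul, Pi.norm_single, norm_one, mul_one, norm_mul, Real.norm_of_nonneg h.hε.le]
    calc ε * ‖Φ x - Φ y‖ ≤ ε * (C * Fintype.card ι * ‖x - y‖) :=
          mul_le_mul_of_nonneg_left h1 h.hε.le
      _ = ε * C * Fintype.card ι * ‖x - y‖ := by ring
      _ ≤ _ := mul_le_mul_of_nonneg_right h.hεC (norm_nonneg _)
  have h4 := norm_sub_le (psi Φ i ε x - psi Φ i ε y) ((ε * (Φ x - Φ y)) • (Pi.single i 1 : ι → ℝ))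
  rw [← h2] at h4
  linarith

lemma Hyp.injOn (h : Hyp Φ i C ε) : InjOn (psi Φ i ε) (Q ι) := fun x hx y hy hxy => by
  have := h.antilip hx hy
  rw [hxy, sub_self, norm_zero, mul_zero] at this
  exact sub_eq_zero.1 (norm_le_zero_iff.1 this)

lemma Hyp.surjOn (h : Hyp Φ i C ε) {y : ι → ℝ} (hy : y ∈ Q ι) :
    ∃ x ∈ Q ι, psi Φ i ε x = y := by
  have hyi := hy i
  have hmem : ∀ s ∈ Icc (y i / 2) ((1 + y i) / 2), Function.update y i s ∈ Q ι := by
    intro s hs j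
    by_cases hj : j = i
    · subst hj
      rw [Function.update_self]
      constructor <;> linarith [hs.1, hs.2, hyi.1, hyi.2]
    · rw [Function.update_of_ne hj]; exact hy j
  have hle : y i / 2 ≤ (1 + y i) / 2 := by linarith
  have hcont : ContinuousOn (fun s => s + ε * Φ (Function.update y i s))
      (Icc (y i / 2) ((1 + y i) / 2)) := by
    refine continuousOn_id.add (continuousOn_const.mul fun s hs => ?_)
    exact (((h.hΦ _ (hmem s hs)).continuousAt).comp (f := fun s => Function.update y i s)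
      (continuous_const.update i continuous_id).continuousAt).continuousWithinAt
  have ha := abs_le.1 (h.abs_εΦ (hmem _ ⟨le_rfl, hle⟩))
  have hb := abs_le.1 (h.abs_εΦ (hmem _ ⟨hle, le_rfl⟩))
  rw [Function.update_self] at ha hb
  have ha' := min_le_left (y i / 2) (1 - y i / 2)
  have hb' := min_le_right ((1 + y i) / 2) (1 - (1 + y i) / 2)
  obtain ⟨s, hs, hs'⟩ := intermediate_value_Icc hle hcont
    (show y i ∈ Icc (y i / 2 + ε * Φ (Function.update y i (y i / 2)))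
      ((1 + y i) / 2 + ε * Φ (Function.update y i ((1 + y i) / 2))) from
      ⟨by linarith [ha.2, hyi.1], by linarith [hb.1, hyi.2]⟩)
  refine ⟨Function.update y i s, hmem s hs, ?_⟩
  funext j
  by_cases hj : j = i
  · subst hj
    simpa [psi] using hs'
  · simp [psi, hj]

lemma Hyp.image (h : Hyp Φ i C ε) : psi Φ i ε '' Q ι = Q ι := by
  apply Subset.antisymm
  · rintro _ ⟨x, hx, rfl⟩; exact h.mapsTo hx
  · intro y hy; exact h.surjOn hy

/-- change of variables -/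
lemma Hyp.cov (h : Hyp Φ i C ε) (G : (ι → ℝ) → ℝ) :
    ∫ y in Q ι, G y = ∫ x in Q ι, (1 + ε * D Φ i x) * G (psi Φ i ε x) := by
  have := integral_image_eq_integral_abs_det_fderiv_smul (volume : Measure (ι → ℝ))
    measurableSet_Q (fun x hx => (h.hasFDerivAt hx).hasFDerivWithinAt) h.injOn G
  rw [h.image] at this
  rw [this]
  refine setIntegral_congr_fun measurableSet_Q fun x hx => ?_
  simp only [det_L, smul_eq_mul]
  rw [abs_of_pos (by linarith [(h.det_mem hx).1])]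

lemma integrableOn_D {F : (ι → ℝ) → ℝ} {j : ι} {K : ℝ} (hK : ∀ x ∈ Q ι, |D F j x| ≤ K) :
    IntegrableOn (D F j) (Q ι) :=
  integrableOn_Q (measurable_D F j).aestronglyMeasurable hK

lemma Hyp.integral_D (h : Hyp Φ i C ε) : ∫ x in Q ι, D Φ i x = 0 := by
  have h1 := h.cov fun _ => 1
  simp only [mul_one] at h1
  rw [integral_add (integrable_const _)
    ((integrableOn_D fun x hx => h.hΦ' x hx i).const_mul ε), integral_const_mul] at h1
  have : ε * ∫ x in Q ι, D Φ i x = 0 := by linarith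
  exact (mul_eq_zero.1 this).resolve_left h.hε.ne'

lemma D_mul {f g : (ι → ℝ) → ℝ} {x : ι → ℝ} (hf : DifferentiableAt ℝ f x)
    (hg : DifferentiableAt ℝ g x) (j : ι) :
    D (fun y => f y * g y) j x = f x * D g j x + g x * D f j x := by
  unfold D
  rw [fderiv_fun_mul hf hg]
  simp

lemma Hyp.abs_le_C (h : Hyp Φ i C ε) {x : ι → ℝ} (hx : x ∈ Q ι) : |Φ x| ≤ C := by
  refine (h.hΦ0 x hx).trans ?_
  have : min (x i) (1 - x i) ≤ 1 := (min_le_left _ _).trans (hx i).2.le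
  nlinarith [h.hC]

/-- integration by parts -/
lemma Hyp.ibp (h : Hyp Φ i C ε) {f : (ι → ℝ) → ℝ} (hf : Adm f) :
    ∫ x in Q ι, D Φ i x * f x = - ∫ x in Q ι, Φ x * D f i x := by
  obtain ⟨K, hK⟩ := hf.grad
  have hf1 : ∀ x ∈ Q ι, |f x| ≤ 1 := fun x hx =>
    abs_le.2 ⟨by linarith [(hf.mem_Ioo hx).1], (hf.mem_Ioo hx).2.le⟩
  set C' : ℝ := C + C * |K| with hC'
  have hC'0 : 0 ≤ C' := add_nonneg h.hC (mul_nonneg h.hC (abs_nonneg _))
  have hpos : 0 < 2 * (C' * Fintype.card ι + 1) := by positivity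
  have H : Hyp (fun x => f x * Φ x) i C' (2 * (C' * Fintype.card ι + 1))⁻¹ := by
    refine ⟨hC'0, inv_pos.2 hpos, ?_, fun x hx => (hf.diff x hx).mul (h.hΦ x hx),
      fun x hx j => ?_, fun x hx => ?_⟩
    · rw [mul_assoc, inv_mul_le_iff₀ hpos]; linarith
    · rw [D_mul (hf.diff x hx) (h.hΦ x hx)]
      refine (abs_add_le _ _).trans (add_le_add ?_ ?_)
      · rw [abs_mul]
        exact (mul_le_mul (hf1 x hx) (h.hΦ' x hx j) (abs_nonneg _) zero_le_one).trans_eq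
          (one_mul _)
      · rw [abs_mul]
        exact mul_le_mul (h.abs_le_C hx) ((hK x hx j).trans (le_abs_self _)) (abs_nonneg _) h.hC
    · have h0 : 0 ≤ min (x i) (1 - x i) := le_min (hx i).1.le (by linarith [(hx i).2])
      rw [abs_mul]
      calc |f x| * |Φ x| ≤ 1 * (C * min (x i) (1 - x i)) :=
            mul_le_mul (hf1 x hx) (h.hΦ0 x hx) (abs_nonneg _) zero_le_one
        _ ≤ C' * min (x i) (1 - x i) := by
            rw [one_mul]
            exact mul_le_mul_of_nonneg_right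
              (le_add_of_nonneg_right (mul_nonneg h.hC (abs_nonneg _))) h0
  have h1 := H.integral_D
  have hΦm : AEStronglyMeasurable Φ (volume.restrict (Q ι)) :=
    ContinuousOn.aestronglyMeasurable
      (fun x hx => (h.hΦ x hx).continuousAt.continuousWithinAt) measurableSet_Q
  have i1 : IntegrableOn (fun x => D Φ i x * f x) (Q ι) :=
    integrableOn_Q ((measurable_D Φ i).aestronglyMeasurable.mul hf.aesm) (C := C * 1)
      fun x hx => by
        rw [abs_mul]; exact mul_le_mul (h.hΦ' x hx i) (hf1 x hx) (abs_nonneg _) h.hC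
  have i2 : IntegrableOn (fun x => Φ x * D f i x) (Q ι) :=
    integrableOn_Q (hΦm.mul (measurable_D f i).aestronglyMeasurable) (C := C * K)
      fun x hx => by
        rw [abs_mul]; exact mul_le_mul (h.abs_le_C hx) (hK x hx i) (abs_nonneg _) h.hC
  rw [setIntegral_congr_fun measurableSet_Q
    (g := fun x => D Φ i x * f x + Φ x * D f i x)
    (fun x hx => by rw [D_mul (hf.diff x hx) (h.hΦ x hx)]; ring), integral_add i1 i2] at h1
  linarith

/-- the inverse deformation -/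
noncomputable def chi (Φ : (ι → ℝ) → ℝ) (i : ι) (ε : ℝ) : (ι → ℝ) → (ι → ℝ) :=
  Function.invFunOn (psi Φ i ε) (Q ι)

lemma Hyp.chi_mem (h : Hyp Φ i C ε) {y : ι → ℝ} (hy : y ∈ Q ι) : chi Φ i ε y ∈ Q ι :=
  Function.invFunOn_mem (h.surjOn hy)

lemma Hyp.psi_chi (h : Hyp Φ i C ε) {y : ι → ℝ} (hy : y ∈ Q ι) :
    psi Φ i ε (chi Φ i ε y) = y :=
  Function.invFunOn_eq (h.surjOn hy)

lemma Hyp.chi_psi (h : Hyp Φ i C ε) {x : ι → ℝ} (hx : x ∈ Q ι) :
    chi Φ i ε (psi Φ i ε x) = x :=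
  h.injOn (h.chi_mem (h.mapsTo hx)) hx (h.psi_chi (h.mapsTo hx))

lemma Hyp.continuousAt_chi (h : Hyp Φ i C ε) {y : ι → ℝ} (hy : y ∈ Q ι) :
    ContinuousAt (chi Φ i ε) y := by
  have hl : LipschitzOnWith 2 (chi Φ i ε) (Q ι) := by
    refine LipschitzOnWith.of_dist_le_mul fun a ha b hb => ?_
    have := h.antilip (h.chi_mem ha) (h.chi_mem hb)
    rw [h.psi_chi ha, h.psi_chi hb] at this
    simpa [dist_eq_norm] using this
  exact hl.continuousOn.continuousAt (isOpen_Q.mem_nhds hy)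

lemma Hyp.differentiableAt_chi (h : Hyp Φ i C ε) {y : ι → ℝ} (hy : y ∈ Q ι) :
    DifferentiableAt ℝ (chi Φ i ε) y := by
  have hx := h.chi_mem hy
  have hdet : (L Φ i ε (chi Φ i ε y)).det ≠ 0 := by
    rw [det_L]; linarith [(h.det_mem hx).1]
  have := HasFDerivAt.of_local_left_inverse (f := psi Φ i ε)
    (f' := (L Φ i ε (chi Φ i ε y)).toContinuousLinearEquivOfDetNeZero hdet)
    (h.continuousAt_chi hy)
    (by rw [ContinuousLinearMap.coe_toContinuousLinearEquivOfDetNeZero]; exact h.hasFDerivAt hx)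
    (Filter.mem_of_superset (isOpen_Q.mem_nhds hy) fun z hz => h.psi_chi hz)
  exact this.differentiableAt

lemma Hyp.D_comp (h : Hyp Φ i C ε) {f : (ι → ℝ) → ℝ} (hf : Adm f) {x : ι → ℝ} (hx : x ∈ Q ι)
    (j : ι) : (1 + ε * D Φ i x) * D (f ∘ chi Φ i ε) j (psi Φ i ε x) =
      D f j x + ε * (D Φ i x * D f j x - D Φ j x * D f i x) := by
  have hy := h.mapsTo hx
  have hg : DifferentiableAt ℝ (f ∘ chi Φ i ε) (psi Φ i ε x) :=
    (hf.diff _ (h.chi_mem hy)).comp _ (h.differentiableAt_chi hy)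
  have h1 : HasFDerivAt ((f ∘ chi Φ i ε) ∘ psi Φ i ε)
      ((fderiv ℝ (f ∘ chi Φ i ε) (psi Φ i ε x)).comp (L Φ i ε x)) x :=
    hg.hasFDerivAt.comp x (h.hasFDerivAt hx)
  have h2 : f =ᶠ[𝓝 x] (f ∘ chi Φ i ε) ∘ psi Φ i ε :=
    Filter.mem_of_superset (isOpen_Q.mem_nhds hx) fun z hz => by
      simp [h.chi_psi hz]
  have h3 := (h1.congr_of_eventuallyEq h2).fderiv
  have h4 : ∀ k, D f k x = D (f ∘ chi Φ i ε) k (psi Φ i ε x) +
      ε * D Φ k x * D (f ∘ chi Φ i ε) i (psi Φ i ε x) := fun k => by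
    conv_lhs => rw [D, h3]
    simp [L, D]
  rw [h4 j, h4 i]
  ring

omit [DecidableEq ι] in
lemma sqrt_bound {p w : ι → ℝ} {ε K : ℝ}
    (hw : ∑ j, w j ^ 2 ≤ 2 * K * ∑ j, p j ^ 2) :
    √(∑ j, (p j + ε * w j) ^ 2) ≤ √(∑ j, p j ^ 2) + ε * ((∑ j, p j * w j) / √(∑ j, p j ^ 2)) +
      ε ^ 2 * K * √(∑ j, p j ^ 2) := by
  have hP : 0 ≤ ∑ j, p j ^ 2 := Finset.sum_nonneg fun _ _ => sq_nonneg _
  have hW : 0 ≤ ∑ j, w j ^ 2 := Finset.sum_nonneg fun _ _ => sq_nonneg _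
  have hA : ∑ j, (p j + ε * w j) ^ 2 =
      ∑ j, p j ^ 2 + 2 * ε * ∑ j, p j * w j + ε ^ 2 * ∑ j, w j ^ 2 := by
    rw [Finset.mul_sum, Finset.mul_sum, ← Finset.sum_add_distrib, ← Finset.sum_add_distrib]
    exact Finset.sum_congr rfl fun j _ => by ring
  have hA0 : 0 ≤ ∑ j, (p j + ε * w j) ^ 2 := Finset.sum_nonneg fun _ _ => sq_nonneg _
  rcases hP.eq_or_lt with h0 | hpos
  · have hW0 : ∑ j, w j ^ 2 = 0 := le_antisymm (by rw [← h0] at hw; simpa using hw) hW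
    have hp : ∀ j, p j = 0 := fun j => by
      have := (Finset.sum_eq_zero_iff_of_nonneg (fun _ _ => sq_nonneg _)).1 h0.symm j
        (Finset.mem_univ j)
      exact pow_eq_zero_iff two_ne_zero |>.1 this
    rw [hA, hW0]
    simp [hp]
  · set n := √(∑ j, p j ^ 2) with hn
    have hn0 : 0 < n := Real.sqrt_pos.2 hpos
    have hn2 : n ^ 2 = ∑ j, p j ^ 2 := Real.sq_sqrt hP
    set a := √(∑ j, (p j + ε * w j) ^ 2) with ha
    have ha2 : a ^ 2 = ∑ j, (p j + ε * w j) ^ 2 := Real.sq_sqrt hA0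
    have key : a * n ≤ n ^ 2 + ε * ∑ j, p j * w j + ε ^ 2 * K * n ^ 2 := by
      have h1 : ε ^ 2 * ∑ j, w j ^ 2 ≤ ε ^ 2 * (2 * K * ∑ j, p j ^ 2) :=
        mul_le_mul_of_nonneg_left hw (sq_nonneg _)
      rw [← hn2] at h1 hA
      nlinarith [sq_nonneg (a - n)]
    have : n + ε * ((∑ j, p j * w j) / n) + ε ^ 2 * K * n =
        (n ^ 2 + ε * ∑ j, p j * w j + ε ^ 2 * K * n ^ 2) / n := by
      field_simp
    rw [this, le_div_iff₀ hn0]
    exact key

lemma Hyp.gn_comp_le (h : Hyp Φ i C ε) {f : (ι → ℝ) → ℝ} (hf : Adm f) {x : ι → ℝ}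
    (hx : x ∈ Q ι) : (1 + ε * D Φ i x) * gn (f ∘ chi Φ i ε) (psi Φ i ε x) ≤
      gn f x + ε * (D Φ i x * gn f x - D f i x * (∑ j, D f j x * D Φ j x) / gn f x) +
        ε ^ 2 * (2 * Fintype.card ι * C ^ 2) * gn f x := by
  have hδ : 0 ≤ 1 + ε * D Φ i x := by linarith [(h.det_mem hx).1]
  have h1 : (1 + ε * D Φ i x) * gn (f ∘ chi Φ i ε) (psi Φ i ε x) =
      √(∑ j, (D f j x + ε * (D Φ i x * D f j x - D Φ j x * D f i x)) ^ 2) := by
    rw [gn, ← Real.sqrt_sq hδ, ← Real.sqrt_mul (sq_nonneg _), Finset.mul_sum]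
    congr 1
    refine Finset.sum_congr rfl fun j _ => ?_
    rw [← h.D_comp hf hx j, mul_pow]
  have hcard : (1 : ℝ) ≤ Fintype.card ι := by
    have : 0 < Fintype.card ι := Fintype.card_pos_iff.2 ⟨i⟩
    exact_mod_cast this
  have hP : 0 ≤ ∑ j, D f j x ^ 2 := Finset.sum_nonneg fun _ _ => sq_nonneg _
  have hi : D f i x ^ 2 ≤ ∑ j, D f j x ^ 2 :=
    Finset.single_le_sum (f := fun j => D f j x ^ 2) (fun _ _ => sq_nonneg _) (Finset.mem_univ i)
  have hsq : ∀ j, D Φ j x ^ 2 ≤ C ^ 2 := fun j => by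
    rw [← sq_abs]; exact pow_le_pow_left₀ (abs_nonneg _) (h.hΦ' x hx j) 2
  have hw : ∑ j, (D Φ i x * D f j x - D Φ j x * D f i x) ^ 2 ≤
      2 * (2 * Fintype.card ι * C ^ 2) * ∑ j, D f j x ^ 2 := by
    calc ∑ j, (D Φ i x * D f j x - D Φ j x * D f i x) ^ 2
        ≤ ∑ j, (2 * C ^ 2 * D f j x ^ 2 + 2 * C ^ 2 * ∑ k, D f k x ^ 2) := by
          refine Finset.sum_le_sum fun j _ => ?_
          have a1 : D Φ i x ^ 2 * D f j x ^ 2 ≤ C ^ 2 * D f j x ^ 2 :=
            mul_le_mul_of_nonneg_right (hsq i) (sq_nonneg _)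
          have a2 : D Φ j x ^ 2 * D f i x ^ 2 ≤ C ^ 2 * ∑ k, D f k x ^ 2 :=
            mul_le_mul (hsq j) hi (sq_nonneg _) (sq_nonneg _)
          nlinarith [sq_nonneg (D Φ i x * D f j x + D Φ j x * D f i x)]
      _ = 2 * C ^ 2 * ∑ j, D f j x ^ 2 + Fintype.card ι * (2 * C ^ 2 * ∑ k, D f k x ^ 2) := by
          rw [Finset.sum_add_distrib, ← Finset.mul_sum]; simp
      _ ≤ _ := by
          have : 0 ≤ 2 * C ^ 2 * ∑ k, D f k x ^ 2 := by positivity
          nlinarith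
  have h2 := sqrt_bound (ε := ε) hw
  rw [h1]
  refine h2.trans_eq ?_
  have h3 : ∑ j, D f j x * (D Φ i x * D f j x - D Φ j x * D f i x) =
      D Φ i x * gn f x ^ 2 - D f i x * ∑ j, D f j x * D Φ j x := by
    rw [gn_sq, Finset.mul_sum, Finset.mul_sum, ← Finset.sum_sub_distrib]
    exact Finset.sum_congr rfl fun j _ => by ring
  have h4 : gn f x ^ 2 / gn f x = gn f x := by
    rcases eq_or_ne (gn f x) 0 with h0 | h0
    · simp [h0]
    · field_simp
  change gn f x + ε * (_ / gn f x) + _ * gn f x = _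
  rw [h3, sub_div, mul_div_assoc, h4]

end FV

open FV in
/-- deformation of `f` along the vector field `Φ e_i` -/
theorem firstVar {f Φ : (ι → ℝ) → ℝ} (hf : Adm f) (i : ι) {C ε : ℝ} (hC : 0 ≤ C) (hε : 0 < ε)
    (hεC : ε * C * Fintype.card ι ≤ 1 / 2) (hΦ : ∀ x ∈ Q ι, DifferentiableAt ℝ Φ x)
    (hΦ' : ∀ x ∈ Q ι, ∀ j, |D Φ j x| ≤ C)
    (hΦ0 : ∀ x ∈ Q ι, |Φ x| ≤ C * min (x i) (1 - x i)) :
    ∃ g : (ι → ℝ) → ℝ, Adm g ∧
      ∫ x in Q ι, g x = (∫ x in Q ι, f x) - ε * ∫ x in Q ι, Φ x * D f i x ∧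
      ∫ x in Q ι, Iso (g x) ≤ 2 * ∫ x in Q ι, Iso (f x) ∧
      ∫ x in Q ι, gn g x ≤ (∫ x in Q ι, gn f x) +
        ε * (∫ x in Q ι, (D Φ i x * gn f x - D f i x * (∑ j, D f j x * D Φ j x) / gn f x)) +
        ε ^ 2 * (2 * Fintype.card ι * C ^ 2) * ∫ x in Q ι, gn f x := by
  have h : Hyp Φ i C ε := ⟨hC, hε, hεC, hΦ, hΦ', hΦ0⟩
  obtain ⟨K, hK⟩ := hf.grad
  have hK' : ∀ x ∈ Q ι, ∀ j, |D f j x| ≤ |K| := fun x hx j => (hK x hx j).trans (le_abs_self _)
  have hf1 : ∀ x ∈ Q ι, |f x| ≤ 1 := fun x hx =>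
    abs_le.2 ⟨by linarith [(hf.mem_Ioo hx).1], (hf.mem_Ioo hx).2.le⟩
  refine ⟨f ∘ chi Φ i ε, ⟨fun y hy => (hf.diff _ (h.chi_mem hy)).comp _ (h.differentiableAt_chi hy),
    hf.range.imp fun κ hκ => ⟨hκ.1, fun y hy => hκ.2 _ (h.chi_mem hy)⟩, ⟨4 * |K|, ?_⟩⟩, ?_, ?_, ?_⟩
  · intro y hy j
    obtain ⟨x, hx, rfl⟩ := h.surjOn hy
    have h1 := h.D_comp hf hx j
    have h2 := (h.det_mem hx).1
    have h3 : |(1 + ε * D Φ i x) * D (f ∘ chi Φ i ε) j (psi Φ i ε x)| ≤ 2 * |K| := by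
      rw [h1]
      have e : D f j x + ε * (D Φ i x * D f j x - D Φ j x * D f i x) =
          D f j x + (ε * D Φ i x * D f j x - ε * D Φ j x * D f i x) := by ring
      rw [e]
      have a1 : |ε * D Φ i x * D f j x| ≤ 1 / 2 * |K| := by
        rw [abs_mul]
        exact mul_le_mul (h.abs_εD hx i) (hK' x hx j) (abs_nonneg _) (by norm_num)
      have a2 : |ε * D Φ j x * D f i x| ≤ 1 / 2 * |K| := by
        rw [abs_mul]
        exact mul_le_mul (h.abs_εD hx j) (hK' x hx i) (abs_nonneg _) (by norm_num)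
      have a3 := abs_add_le (D f j x) (ε * D Φ i x * D f j x - ε * D Φ j x * D f i x)
      have a4 := abs_sub (ε * D Φ i x * D f j x) (ε * D Φ j x * D f i x)
      linarith [hK' x hx j]
    rw [abs_mul, abs_of_pos (by linarith : 0 < 1 + ε * D Φ i x)] at h3
    nlinarith [abs_nonneg (D (f ∘ chi Φ i ε) j (psi Φ i ε x))]
  · have i1 : IntegrableOn (fun x => D Φ i x * f x) (Q ι) :=
      integrableOn_Q ((measurable_D Φ i).aestronglyMeasurable.mul hf.aesm) (C := C * 1)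
        fun x hx => by
          rw [abs_mul]; exact mul_le_mul (hΦ' x hx i) (hf1 x hx) (abs_nonneg _) hC
    rw [h.cov, setIntegral_congr_fun measurableSet_Q
      (g := fun x => f x + ε * (D Φ i x * f x))
      (fun x hx => by simp only [Function.comp, h.chi_psi hx]; ring),
      integral_add hf.integrableOn (i1.const_mul ε), integral_const_mul, h.ibp hf]
    ring
  · have i1 : IntegrableOn (fun x => Iso (f x)) (Q ι) :=
      integrableOn_Q (continuous_Iso.comp_aestronglyMeasurable hf.aesm) (C := 1 / 2)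
        fun x _ => by rw [abs_of_nonneg (Iso_nonneg _)]; exact Iso_le_half _
    rw [h.cov, ← integral_const_mul]
    refine integral_mono_of_nonneg ?_ (i1.const_mul 2) ?_
    · refine (ae_restrict_iff' measurableSet_Q).2 (Eventually.of_forall fun x hx => ?_)
      exact mul_nonneg (by linarith [(h.det_mem hx).1]) (Iso_nonneg _)
    · refine (ae_restrict_iff' measurableSet_Q).2 (Eventually.of_forall fun x hx => ?_)
      simp only [Function.comp, h.chi_psi hx]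
      exact mul_le_mul_of_nonneg_right (by linarith [(h.det_mem hx).2]) (Iso_nonneg _)
  · have i1 := hf.integrableOn_gn
    have i2 : IntegrableOn (fun x => D Φ i x * gn f x -
        D f i x * (∑ j, D f j x * D Φ j x) / gn f x) (Q ι) := by
      refine integrableOn_Q (Measurable.aestronglyMeasurable ?_)
        (C := C * (Fintype.card ι * |K|) + Fintype.card ι * (|K| * C)) fun x hx => ?_
      · exact ((measurable_D Φ i).mul (measurable_gn f)).sub (((measurable_D f i).mul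
          (Finset.measurable_sum _ fun j _ => (measurable_D f j).mul (measurable_D Φ j))).div
          (measurable_gn f))
      · refine (abs_sub _ _).trans (add_le_add ?_ ?_)
        · rw [abs_mul, abs_of_nonneg (gn_nonneg f x)]
          exact mul_le_mul (hΦ' x hx i) (gn_le_of_abs_D_le (hK x hx)) (gn_nonneg f x) hC
        · have a1 : |D f i x / gn f x| ≤ 1 := by
            rw [abs_div, abs_of_nonneg (gn_nonneg f x)]
            exact div_le_one_of_le₀ (abs_D_le_gn f i x) (gn_nonneg f x)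
          have a2 : |∑ j, D f j x * D Φ j x| ≤ Fintype.card ι * (|K| * C) := by
            calc |∑ j, D f j x * D Φ j x| ≤ ∑ j, |D f j x * D Φ j x| :=
                  Finset.abs_sum_le_sum_abs _ _
              _ ≤ ∑ _j : ι, |K| * C := Finset.sum_le_sum fun j _ => by
                  rw [abs_mul]
                  exact mul_le_mul (hK' x hx j) (hΦ' x hx j) (abs_nonneg _) (abs_nonneg _)
              _ = _ := by simp
          rw [mul_div_right_comm, abs_mul]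
          exact (mul_le_mul a1 a2 (abs_nonneg _) zero_le_one).trans_eq (one_mul _)
    have i3 : IntegrableOn (fun x => gn f x + ε * (D Φ i x * gn f x -
        D f i x * (∑ j, D f j x * D Φ j x) / gn f x)) (Q ι) := i1.add (i2.const_mul ε)
    rw [h.cov, ← integral_const_mul, ← integral_const_mul,
      ← integral_add i1 (i2.const_mul ε), ← integral_add i3 (i1.const_mul _)]
    refine integral_mono_of_nonneg ?_ (i3.add (i1.const_mul _)) ?_
    · refine (ae_restrict_iff' measurableSet_Q).2 (Eventually.of_forall fun x hx => ?_)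
      exact mul_nonneg (by linarith [(h.det_mem hx).1]) (gn_nonneg _ _)
    · refine (ae_restrict_iff' measurableSet_Q).2 (Eventually.of_forall fun x hx => ?_)
      exact h.gn_comp_le hf hx

end Pool.Agent.P.MP_b7645d_gt
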