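import Pool.Agent.P.MP_b7645d_gt.Defs

set_option autoImplicit false

open MeasureTheory ProbabilityTheory Set Real Filter Topology

namespace Pool.Agent.P.MP_b7645d_gt

lemma phi_eq (x : ℝ) : phi x = (√(2 * π))⁻¹ * rexp (-x ^ 2 / 2) := by
  simp [phi, gaussianPDFReal]

lemma phi_pos (x : ℝ) : 0 < phi x := gaussianPDFReal_pos _ _ _ one_ne_zero

lemma phi_le_half (x : ℝ) : phi x ≤ 1 / 2 := by
  rw [phi_eq]
  have h1 : rexp (-x ^ 2 / 2) ≤ 1 := Real.exp_le_one_iff.2 (by nlinarith [sq_nonneg x])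
  have h2 : (2 : ℝ) ≤ √(2 * π) := Real.le_sqrt_of_sq_le (by nlinarith [Real.pi_gt_three])
  have h3 : (√(2 * π))⁻¹ ≤ 1 / 2 := by
    rw [one_div]; exact inv_anti₀ (by norm_num) h2
  calc _ ≤ (√(2 * π))⁻¹ * 1 := by gcongr
    _ ≤ _ := by linarith

lemma phi_neg (x : ℝ) : phi (-x) = phi x := by simp [phi_eq]

lemma hasDerivAt_phi (x : ℝ) : HasDerivAt phi (-x * phi x) x := by
  have h : HasDerivAt (fun y : ℝ => -y ^ 2 / 2) (-x) x := by
    exact (((hasDerivAt_pow 2 x).neg).div_const 2).congr_deriv (by simp; ring)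
  have h2 := (h.exp).const_mul (√(2 * π))⁻¹
  have : phi = fun y => (√(2 * π))⁻¹ * rexp (-y ^ 2 / 2) := funext phi_eq
  rw [this]
  exact h2.congr_deriv (by ring)

lemma continuous_phi : Continuous phi :=
  continuous_iff_continuousAt.2 fun x => (hasDerivAt_phi x).continuousAt

lemma integrable_phi : Integrable phi := integrable_gaussianPDFReal 0 1

lemma Phi_eq (x : ℝ) : Phi x = ∫ t in Iic x, phi t := by
  rw [Phi, cdf_eq_real, Measure.real, gaussianReal_apply_eq_integral _ one_ne_zero,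
    ENNReal.toReal_ofReal (integral_nonneg fun t => gaussianPDFReal_nonneg _ _ _)]
  rfl

lemma hasStrictDerivAt_Phi (x : ℝ) : HasStrictDerivAt Phi (phi x) x := by
  have : Phi = fun y => (∫ t in (0 : ℝ)..y, phi t) + Phi 0 := by
    funext y
    rw [Phi_eq, Phi_eq, ← intervalIntegral.integral_Iic_sub_Iic integrable_phi.integrableOn
      integrable_phi.integrableOn]
    ring
  rw [this]
  exact (continuous_phi.integral_hasStrictDerivAt 0 x).add_const _

lemma hasDerivAt_Phi (x : ℝ) : HasDerivAt Phi (phi x) x := (hasStrictDerivAt_Phi x).hasDerivAt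

lemma continuous_Phi : Continuous Phi :=
  continuous_iff_continuousAt.2 fun x => (hasDerivAt_Phi x).continuousAt

lemma strictMono_Phi : StrictMono Phi := strictMono_of_hasDerivAt_pos hasDerivAt_Phi phi_pos

lemma Phi_mem_Ioo (x : ℝ) : Phi x ∈ Ioo (0 : ℝ) 1 :=
  ⟨(cdf_nonneg _ _).trans_lt (strictMono_Phi (sub_one_lt x)),
    (strictMono_Phi (lt_add_one x)).trans_le (cdf_le_one _ _)⟩

lemma tendsto_Phi_atBot : Tendsto Phi atBot (𝓝 0) := tendsto_cdf_atBot _
lemma tendsto_Phi_atTop : Tendsto Phi atTop (𝓝 1) := tendsto_cdf_atTop _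

lemma Phi_neg (x : ℝ) : Phi (-x) = 1 - Phi x := by
  have hd : ∀ y, HasDerivAt (fun y => Phi (-y) + Phi y) 0 y := fun y => by
    exact (((hasDerivAt_Phi (-y)).comp y (hasDerivAt_neg y)).add (hasDerivAt_Phi y)).congr_deriv
      (by rw [phi_neg]; ring)
  have hc : ∀ y, Phi (-y) + Phi y = Phi (-x) + Phi x := fun y =>
    is_const_of_deriv_eq_zero (fun y => (hd y).differentiableAt) (fun y => (hd y).deriv) y x
  have ht : Tendsto (fun y => Phi (-y) + Phi y) atTop (𝓝 (0 + 1)) :=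
    (tendsto_Phi_atBot.comp tendsto_neg_atTop_atBot).add tendsto_Phi_atTop
  simp only [hc] at ht
  have := tendsto_nhds_unique ht tendsto_const_nhds
  linarith

lemma Phi_PhiInv {u : ℝ} (hu : u ∈ Ioo (0 : ℝ) 1) : Phi (PhiInv u) = u := by
  refine Function.invFun_eq (mem_range_of_exists_le_of_exists_ge continuous_Phi ?_ ?_)
  · exact (tendsto_Phi_atBot.eventually (eventually_le_nhds hu.1)).exists
  · exact (tendsto_Phi_atTop.eventually (eventually_ge_nhds hu.2)).exists

lemma PhiInv_Phi (x : ℝ) : PhiInv (Phi x) = x :=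
  Function.leftInverse_invFun strictMono_Phi.injective x

lemma Iso_of_mem {u : ℝ} (hu : u ∈ Ioo (0 : ℝ) 1) : Iso u = phi (PhiInv u) := if_pos hu

lemma Iso_of_notMem {u : ℝ} (hu : u ∉ Ioo (0 : ℝ) 1) : Iso u = 0 := if_neg hu

lemma Iso_Phi (x : ℝ) : Iso (Phi x) = phi x := by rw [Iso_of_mem (Phi_mem_Ioo x), PhiInv_Phi]

lemma Iso_pos {u : ℝ} (hu : u ∈ Ioo (0 : ℝ) 1) : 0 < Iso u := by
  rw [Iso_of_mem hu]; exact phi_pos _

lemma Iso_nonneg (u : ℝ) : 0 ≤ Iso u := by
  by_cases hu : u ∈ Ioo (0 : ℝ) 1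
  · exact (Iso_pos hu).le
  · rw [Iso_of_notMem hu]

lemma Iso_le_half (u : ℝ) : Iso u ≤ 1 / 2 := by
  by_cases hu : u ∈ Ioo (0 : ℝ) 1
  · rw [Iso_of_mem hu]; exact phi_le_half _
  · rw [Iso_of_notMem hu]; norm_num

lemma Iso_zero : Iso 0 = 0 := Iso_of_notMem (by simp)
lemma Iso_one : Iso 1 = 0 := Iso_of_notMem (by simp)

lemma hasDerivAt_PhiInv {u : ℝ} (hu : u ∈ Ioo (0 : ℝ) 1) : HasDerivAt PhiInv (Iso u)⁻¹ u := by
  have := (hasStrictDerivAt_Phi (PhiInv u)).to_local_left_inverse (phi_pos _).ne'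
    (g := PhiInv) (Eventually.of_forall PhiInv_Phi)
  rw [Phi_PhiInv hu, ← Iso_of_mem hu] at this
  exact this.hasDerivAt

lemma hasDerivAt_Iso {u : ℝ} (hu : u ∈ Ioo (0 : ℝ) 1) : HasDerivAt Iso (-PhiInv u) u := by
  have h := (hasDerivAt_phi (PhiInv u)).comp u (hasDerivAt_PhiInv hu)
  have he : Iso =ᶠ[𝓝 u] phi ∘ PhiInv :=
    (isOpen_Ioo.eventually_mem hu).mono fun v hv => Iso_of_mem hv
  refine HasDerivAt.congr_of_eventuallyEq (h.congr_deriv ?_) he
  rw [Iso_of_mem hu]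
  field_simp [(phi_pos (PhiInv u)).ne']

lemma tendsto_phi_atTop : Tendsto phi atTop (𝓝 0) := by
  have : phi = fun y => (√(2 * π))⁻¹ * rexp (-y ^ 2 / 2) := funext phi_eq
  rw [this, ← mul_zero (√(2 * π))⁻¹]
  refine Tendsto.const_mul _ (Real.tendsto_exp_atBot.comp ?_)
  exact (tendsto_neg_atTop_atBot.comp (tendsto_pow_atTop two_ne_zero)).atBot_div_const two_pos

lemma Iso_one_sub (u : ℝ) : Iso (1 - u) = Iso u := by
  by_cases hu : u ∈ Ioo (0 : ℝ) 1
  · conv_lhs => rw [← Phi_PhiInv hu, ← Phi_neg, Iso_Phi, phi_neg, ← Iso_of_mem hu]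
  · rw [Iso_of_notMem hu, Iso_of_notMem]
    rintro ⟨h1, h2⟩
    exact hu ⟨by linarith, by linarith⟩

lemma continuousAt_Iso_of_nonpos {u : ℝ} (hu : u ≤ 0) : ContinuousAt Iso u := by
  have h0 : Iso u = 0 := Iso_of_notMem fun h => absurd h.1 (not_lt.2 hu)
  rw [ContinuousAt, h0, Metric.tendsto_nhds]
  intro ε hε
  obtain ⟨R, hR⟩ := eventually_atTop.1 (tendsto_phi_atTop.eventually (eventually_lt_nhds hε))
  filter_upwards [eventually_lt_nhds (hu.trans_lt (Phi_mem_Ioo (-R)).1)] with v hv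
  rw [Real.dist_eq, sub_zero, abs_of_nonneg (Iso_nonneg v)]
  by_cases hv' : v ∈ Ioo (0 : ℝ) 1
  · rw [Iso_of_mem hv', ← phi_neg]
    refine hR _ ?_
    rw [← Phi_PhiInv hv'] at hv
    have := strictMono_Phi.lt_iff_lt.1 hv
    linarith
  · rw [Iso_of_notMem hv']; exact hε

lemma continuous_Iso : Continuous Iso := by
  refine continuous_iff_continuousAt.2 fun u => ?_
  rcases le_or_gt u 0 with h | h
  · exact continuousAt_Iso_of_nonpos h
  rcases lt_or_ge u 1 with h' | h'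
  · exact (hasDerivAt_Iso ⟨h, h'⟩).continuousAt
  · have : Iso = Iso ∘ fun v => 1 - v := funext fun v => (Iso_one_sub v).symm
    rw [this]
    exact ContinuousAt.comp (continuousAt_Iso_of_nonpos (by linarith)) (by fun_prop)

/-- on a compact subinterval PhiInv is bounded and Iso is bounded below -/
lemma exists_bounds {κ : ℝ} (hκ : 0 < κ) :
    ∃ C, 0 < C ∧ ∀ u ∈ Icc κ (1 - κ), |PhiInv u| ≤ C ∧ (Iso u)⁻¹ ≤ C := by
  have hs : Icc κ (1 - κ) ⊆ Ioo 0 1 := fun u hu => ⟨hκ.trans_le hu.1, hu.2.trans_lt (by linarith)⟩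
  have h1 : ContinuousOn PhiInv (Icc κ (1 - κ)) := fun u hu =>
    (hasDerivAt_PhiInv (hs hu)).continuousAt.continuousWithinAt
  have h2 : ContinuousOn (fun u => (Iso u)⁻¹) (Icc κ (1 - κ)) :=
    continuous_Iso.continuousOn.inv₀ fun u hu => (Iso_pos (hs hu)).ne'
  obtain ⟨C₁, hC₁⟩ := isCompact_Icc.exists_bound_of_continuousOn h1
  obtain ⟨C₂, hC₂⟩ := isCompact_Icc.exists_bound_of_continuousOn h2
  refine ⟨max 1 (max C₁ C₂), by positivity, fun u hu => ⟨?_, ?_⟩⟩
  · exact (hC₁ u hu).trans ((le_max_left _ _).trans (le_max_right _ _))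
  · exact ((le_abs_self _).trans (hC₂ u hu)).trans ((le_max_right _ _).trans (le_max_right _ _))

lemma integrable_id_gauss : Integrable (fun t : ℝ => t) (gaussianReal 0 1) :=
  (memLp_id_gaussianReal (μ := 0) (v := 1) 1).integrable (by simp)

lemma integrable_phi_mul_id : Integrable (fun t : ℝ => phi t * t) := by
  have h := integrable_id_gauss
  rw [gaussianReal_of_var_ne_zero _ one_ne_zero, gaussianPDF_def,
    integrable_withDensity_iff_integrable_smul' (by fun_prop) (by simp)] at h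
  refine h.congr (Eventually.of_forall fun t => ?_)
  simp only [smul_eq_mul]
  rw [ENNReal.toReal_ofReal (gaussianPDFReal_nonneg _ _ _)]
  rfl

lemma integral_Ioi_id (τ : ℝ) : ∫ t in Ioi τ, t ∂(gaussianReal 0 1) = phi τ := by
  rw [← integral_indicator measurableSet_Ioi, integral_gaussianReal_eq_integral_smul one_ne_zero]
  have : (fun t => gaussianPDFReal 0 1 t • (Ioi τ).indicator (fun t => t) t) =
      (Ioi τ).indicator (fun t => phi t * t) := by
    funext t
    by_cases ht : t ∈ Ioi τ <;> simp [ht, phi]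
  rw [this, integral_indicator measurableSet_Ioi,
    integral_Ioi_of_hasDerivAt_of_tendsto' (f := fun t => -phi t) (m := -0)
      (fun t _ => (hasDerivAt_phi t).neg.congr_deriv (by ring))
      integrable_phi_mul_id.integrableOn tendsto_phi_atTop.neg]
  simp

lemma real_Ioi (τ : ℝ) : (gaussianReal 0 1).real (Ioi τ) = Phi (-τ) := by
  rw [Phi_neg, Phi, cdf_eq_real, ← compl_Iic, probReal_compl_eq_one_sub measurableSet_Iic]

lemma mills (x : ℝ) : x * Phi (-x) ≤ phi x := by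
  rw [← integral_Ioi_id, ← real_Ioi, mul_comm, ← smul_eq_mul, ← setIntegral_const]
  exact setIntegral_mono_on (by simp) integrable_id_gauss.integrableOn measurableSet_Ioi
    fun t ht => le_of_lt ht

lemma map_Phi : (gaussianReal 0 1).map Phi = (volume : Measure ℝ).restrict (Ioo 0 1) := by
  refine Measure.ext_of_Iic _ _ fun y => ?_
  rw [Measure.map_apply continuous_Phi.measurable measurableSet_Iic,
    Measure.restrict_apply measurableSet_Iic]
  rcases le_or_gt y 0 with h | h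
  · have h1 : Phi ⁻¹' Iic y = ∅ := by
      ext x; simpa using h.trans_lt (Phi_mem_Ioo x).1
    have h2 : Iic y ∩ Ioo 0 1 = ∅ := by
      ext x; simp only [mem_inter_iff, mem_Iic, mem_Ioo, mem_empty_iff_false, iff_false]
      rintro ⟨h1, h2, -⟩; linarith
    simp [h1, h2]
  rcases lt_or_ge y 1 with h' | h'
  · have h1 : Phi ⁻¹' Iic y = Iic (PhiInv y) := by
      ext x
      simp only [mem_preimage, mem_Iic]
      conv_lhs => rw [← Phi_PhiInv ⟨h, h'⟩]
      exact strictMono_Phi.le_iff_le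
    have h2 : Iic y ∩ Ioo 0 1 = Ioc 0 y := by
      ext x; simp only [mem_inter_iff, mem_Iic, mem_Ioo, mem_Ioc]
      exact ⟨fun h => ⟨h.2.1, h.1⟩, fun h => ⟨h.2, h.1, h.2.trans_lt h'⟩⟩
    rw [h1, h2, ← ofReal_cdf]
    change ENNReal.ofReal (Phi (PhiInv y)) = _
    rw [Phi_PhiInv ⟨h, h'⟩]; simp
  · have h1 : Phi ⁻¹' Iic y = univ := by
      ext x; simpa using (Phi_mem_Ioo x).2.le.trans h'
    have h2 : Iic y ∩ Ioo 0 1 = Ioo 0 1 := inter_eq_right.2 fun x hx => hx.2.le.trans h'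
    simp [h1, h2]

/-- the bathtub principle -/
lemma bathtub {Ω : Type} [MeasurableSpace Ω] (μ : Measure Ω) [IsProbabilityMeasure μ]
    {Y f : Ω → ℝ} (hY : Measurable Y) (hlaw : μ.map Y = gaussianReal 0 1) (hf : Measurable f)
    (hf01 : ∀ ω, f ω ∈ Icc (0 : ℝ) 1) (hm : ∫ ω, f ω ∂μ ∈ Ioo (0 : ℝ) 1) :
    ∫ ω, f ω * Y ω ∂μ ≤ Iso (∫ ω, f ω ∂μ) := by
  set m := ∫ ω, f ω ∂μ with hmdef
  set τ := -PhiInv m with hτ
  have hYi : Integrable Y μ := by
    have := integrable_id_gauss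
    rw [← hlaw] at this
    exact (integrable_map_measure this.1 hY.aemeasurable).1 this
  have hfb : ∀ ω, ‖f ω‖ ≤ 1 := fun ω => by
    rw [Real.norm_eq_abs, abs_of_nonneg (hf01 ω).1]; exact (hf01 ω).2
  have hfi : Integrable f μ := Integrable.of_bound hf.aestronglyMeasurable 1 (.of_forall hfb)
  have hfY : Integrable (fun ω => f ω * Y ω) μ :=
    hYi.bdd_mul hf.aestronglyMeasurable (.of_forall hfb)
  let g : ℝ → ℝ := (Ioi τ).indicator fun t => t - τ
  have hgm : Measurable g := (measurable_id.sub_const τ).indicator measurableSet_Ioi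
  have hgi : Integrable g (gaussianReal 0 1) :=
    (integrable_id_gauss.sub (integrable_const τ)).indicator measurableSet_Ioi
  have hg : ∫ t, g t ∂(gaussianReal 0 1) = phi τ - m * τ := by
    rw [integral_indicator measurableSet_Ioi, integral_sub integrable_id_gauss.integrableOn
      (by simp), integral_Ioi_id, setIntegral_const, real_Ioi, hτ, neg_neg, Phi_PhiInv hm]
    simp
  have hgY : Integrable (fun ω => g (Y ω)) μ := by
    rw [← hlaw] at hgi
    exact (integrable_map_measure hgi.1 hY.aemeasurable).1 hgi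
  have hg' : ∫ ω, g (Y ω) ∂μ = phi τ - m * τ := by
    rw [← hg, ← hlaw, integral_map hY.aemeasurable hgm.aestronglyMeasurable]
  have hle : ∫ ω, (f ω * Y ω - f ω * τ) ∂μ ≤ ∫ ω, g (Y ω) ∂μ := by
    refine integral_mono (hfY.sub (hfi.mul_const τ)) hgY fun ω => ?_
    by_cases h : Y ω ∈ Ioi τ
    · simp only [g, indicator_of_mem h]
      have : τ < Y ω := h
      nlinarith [(hf01 ω).2]
    · simp only [g, indicator_of_notMem h]
      have : Y ω ≤ τ := not_lt.1 h
      nlinarith [(hf01 ω).1]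
  rw [integral_sub hfY (hfi.mul_const τ), integral_mul_const, hg', ← hmdef] at hle
  rw [Iso_of_mem hm, ← phi_neg, ← hτ]
  linarith

end Pool.Agent.P.MP_b7645d_gt
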