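import Pool.Agent.P.MP_b7645d_gt.GaussN

set_option autoImplicit false

open MeasureTheory ProbabilityTheory Set Real Filter Topology

namespace Pool.Agent.P.MP_b7645d_gt

variable {ι : Type} [Fintype ι] [DecidableEq ι]

omit [DecidableEq ι] in
lemma gi_isGaussian : IsGaussian (gam ι) := by
  have h : gam ι = (stdGaussian (EuclideanSpace ℝ ι)).map (EuclideanSpace.equiv ι ℝ) := by
    rw [← map_pi_eq_stdGaussian, Measure.map_map (by fun_prop) (by fun_prop)]
    have : (EuclideanSpace.equiv ι ℝ) ∘ (WithLp.toLp 2) = (id : (ι → ℝ) → (ι → ℝ)) := by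
      ext x i; simp
    rw [this, Measure.map_id]; rfl
  rw [h]; infer_instance

omit [DecidableEq ι] in
lemma gi_integrable_eval (j : ι) : Integrable (fun z : ι → ℝ => z j) (gam ι) := by
  unfold gam
  exact integrable_eval IsGaussian.integrable_id

omit [DecidableEq ι] in
lemma gi_rot (θ : ℝ) : MeasurePreserving
    (fun p : (ι → ℝ) × (ι → ℝ) => (cos θ • p.1 + sin θ • p.2, -sin θ • p.1 + cos θ • p.2))
    ((gam ι).prod (gam ι)) ((gam ι).prod (gam ι)) := by
  have := gi_isGaussian (ι := ι)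
  refine ⟨by fun_prop, ?_⟩
  have hm : (gam ι)[id] = 0 := by
    ext j
    have h1 : Integrable (id : (ι → ℝ) → (ι → ℝ)) (gam ι) := IsGaussian.integrable_id
    have h2 := (ContinuousLinearMap.proj (R := ℝ) (φ := fun _ : ι => ℝ) j).integral_comp_comm h1
    simp only [ContinuousLinearMap.proj_apply, id] at h2
    simp only [id, Pi.zero_apply]
    rw [← h2]
    unfold gam
    rw [integral_eval]
    simp
  exact IsGaussian.map_rotation_eq_self hm θ

omit [DecidableEq ι] in
lemma gi_integral_rot (θ : ℝ) {Φ : (ι → ℝ) × (ι → ℝ) → ℝ}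
    (hΦ : Integrable Φ ((gam ι).prod (gam ι))) :
    ∫ x, ∫ z, Φ (cos θ • x + sin θ • z, -sin θ • x + cos θ • z) ∂(gam ι) ∂(gam ι) =
      ∫ x, ∫ z, Φ (x, z) ∂(gam ι) ∂(gam ι) := by
  have h := gi_rot (ι := ι) θ
  have h1 := (h.integrable_comp hΦ.aestronglyMeasurable).2 hΦ
  rw [← integral_prod _ hΦ]
  have h2 := integral_prod _ h1
  simp only [Function.comp] at h2
  rw [← h2]
  conv_rhs => rw [← h.map_eq]
  rw [integral_map h.measurable.aemeasurable (by rw [h.map_eq]; exact hΦ.aestronglyMeasurable)]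

lemma gi_D_affine {h : (ι → ℝ) → ℝ} (hd : Differentiable ℝ h) (a : ι → ℝ) (t : ℝ) (j : ι)
    (z : ι → ℝ) : D (fun w => h (a + t • w)) j z = t * D h j (a + t • z) := by
  have h1 : HasFDerivAt (fun w : ι → ℝ => a + t • w) (t • ContinuousLinearMap.id ℝ (ι → ℝ)) z :=
    ((hasFDerivAt_id z).const_smul t).const_add a
  have h2 := (hd (a + t • z)).hasFDerivAt.comp z h1
  unfold D
  have h3 : fderiv ℝ (fun w => h (a + t • w)) z = _ := h2.fderiv
  rw [h3]
  simp

lemma gi_rot_stein (θ : ℝ) {h g : (ι → ℝ) → ℝ} (hd : Differentiable ℝ h) {C : ℝ}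
    (hb : ∀ x, |h x| ≤ C) (hb' : ∀ x i, |D h i x| ≤ C) (hg : Measurable g) (gb : ∀ x, |g x| ≤ C)
    (j : ι) :
    ∫ x, h x * ∫ z, (-sin θ * x j + cos θ * z j) * g (cos θ • x + sin θ • z) ∂(gam ι) ∂(gam ι) =
      -sin θ * ∫ x, D h j x * ∫ z, g (cos θ • x + sin θ • z) ∂(gam ι) ∂(gam ι) := by
  have hC : 0 ≤ C := (abs_nonneg _).trans (hb 0)
  have hinv : ∀ x z : ι → ℝ,
      cos θ • (cos θ • x + sin θ • z) + (-sin θ) • (-sin θ • x + cos θ • z) = x := by
    intro x z
    ext i
    simp only [Pi.add_apply, Pi.smul_apply, smul_eq_mul]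
    have := sin_sq_add_cos_sq θ
    linear_combination (x i) * this
  have hm : Measurable h := hd.continuous.measurable
  let Φ : (ι → ℝ) × (ι → ℝ) → ℝ :=
    fun p => h (cos θ • p.1 + (-sin θ) • p.2) * (p.2 j * g p.1)
  let Ψ : (ι → ℝ) × (ι → ℝ) → ℝ :=
    fun p => D h j (cos θ • p.1 + (-sin θ) • p.2) * g p.1
  have hA : Measurable (fun p : (ι → ℝ) × (ι → ℝ) => cos θ • p.1 + (-sin θ) • p.2) := by
    fun_prop
  have hΦ : Integrable Φ ((gam ι).prod (gam ι)) := by
    refine Integrable.mono' (g := fun p => C * C * |p.2 j|)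
      (((gi_integrable_eval j).abs.comp_snd (gam ι)).const_mul _) ?_ (ae_of_all _ fun p => ?_)
    · exact ((hm.comp hA).mul
        (((measurable_pi_apply j).comp measurable_snd).mul
          (hg.comp measurable_fst))).aestronglyMeasurable
    · simp only [Φ, Real.norm_eq_abs, abs_mul]
      have h1 := hb (cos θ • p.1 + (-sin θ) • p.2)
      have h2 := gb p.1
      calc _ ≤ C * (|p.2 j| * C) := by gcongr
        _ = _ := by ring
  have hΨ : Integrable Ψ ((gam ι).prod (gam ι)) := by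
    refine Integrable.of_bound (C := C * C) ?_ (ae_of_all _ fun p => ?_)
    · exact (((measurable_D h j).comp hA).mul (hg.comp measurable_fst)).aestronglyMeasurable
    · simp only [Ψ, Real.norm_eq_abs, abs_mul]
      have h1 := hb' (cos θ • p.1 + (-sin θ) • p.2) j
      have h2 := gb p.1
      gcongr
  have e1 := gi_integral_rot θ hΦ
  have e2 := gi_integral_rot θ hΨ
  simp only [Φ, Ψ, hinv] at e1 e2
  have l1 : ∀ x : ι → ℝ, h x * ∫ z, (-sin θ * x j + cos θ * z j) * g (cos θ • x + sin θ • z)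
      ∂(gam ι) = ∫ z, h x * ((-sin θ • x + cos θ • z) j * g (cos θ • x + sin θ • z)) ∂(gam ι) := by
    intro x
    rw [← integral_const_mul]
    simp only [Pi.add_apply, Pi.smul_apply, smul_eq_mul]
  have l2 : ∀ x : ι → ℝ, D h j x * ∫ z, g (cos θ • x + sin θ • z) ∂(gam ι) =
      ∫ z, D h j x * g (cos θ • x + sin θ • z) ∂(gam ι) := fun x => (integral_const_mul _ _).symm
  simp_rw [l1, l2]
  rw [e1, e2, ← integral_const_mul]
  refine integral_congr_ae (ae_of_all _ fun W => ?_)
  have hd' : Differentiable ℝ (fun w => h (cos θ • W + (-sin θ) • w)) :=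
    hd.comp (by fun_prop)
  have st := stein (F := fun w => h (cos θ • W + (-sin θ) • w)) hd' (C := C) (fun w => hb _)
    (fun w i => by
      rw [gi_D_affine hd, abs_mul, abs_neg]
      have h1 := hb' (cos θ • W + (-sin θ) • w) i
      have h2 := abs_sin_le_one θ
      calc _ ≤ 1 * C := by gcongr
        _ = C := one_mul C) j
  simp_rw [gi_D_affine hd] at st
  rw [integral_const_mul] at st
  have l3 : ∀ z : ι → ℝ, h (cos θ • W + (-sin θ) • z) * (z j * g W) =
      h (cos θ • W + (-sin θ) • z) * z j * g W := fun z => by ring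
  simp only [l3]
  rw [integral_mul_const, integral_mul_const, st]
  ring

/-- the interpolation -/
noncomputable def giU (F : (ι → ℝ) → ℝ) (θ : ℝ) (x : ι → ℝ) : ℝ :=
  ∫ z, F (cos θ • x + sin θ • z) ∂(gam ι)

/-- its derivative in the angle -/
noncomputable def giU' (F : (ι → ℝ) → ℝ) (θ : ℝ) (x : ι → ℝ) : ℝ :=
  ∫ z, ∑ j, (-sin θ * x j + cos θ * z j) * D F j (cos θ • x + sin θ • z) ∂(gam ι)

omit [DecidableEq ι] in
lemma gi_integrable_N : Integrable (fun z : ι → ℝ => ∑ j, |z j|) (gam ι) :=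
  integrable_finsetSum _ fun j _ => (gi_integrable_eval j).abs

lemma gi_K_bound {F : (ι → ℝ) → ℝ} {C : ℝ} (hb' : ∀ x i, |D F i x| ≤ C) (θ : ℝ) (x z : ι → ℝ) :
    |∑ j, (-sin θ * x j + cos θ * z j) * D F j (cos θ • x + sin θ • z)| ≤
      C * ∑ j, |x j| + C * ∑ j, |z j| := by
  refine (Finset.abs_sum_le_sum_abs _ _).trans ?_
  rw [Finset.mul_sum, Finset.mul_sum, ← Finset.sum_add_distrib]
  refine Finset.sum_le_sum fun j _ => ?_
  rw [abs_mul]
  have h1 := hb' (cos θ • x + sin θ • z) j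
  have h2 : |-sin θ * x j + cos θ * z j| ≤ |x j| + |z j| := by
    refine (abs_add_le _ _).trans (add_le_add ?_ ?_)
    · rw [abs_mul, abs_neg]
      exact mul_le_of_le_one_left (abs_nonneg _) (abs_sin_le_one θ)
    · rw [abs_mul]
      exact mul_le_of_le_one_left (abs_nonneg _) (abs_cos_le_one θ)
  calc _ ≤ (|x j| + |z j|) * C := by gcongr
    _ = _ := by ring

lemma gi_K_measurable (F : (ι → ℝ) → ℝ) (θ : ℝ) : Measurable fun p : (ι → ℝ) × (ι → ℝ) =>
    ∑ j, (-sin θ * p.1 j + cos θ * p.2 j) * D F j (cos θ • p.1 + sin θ • p.2) := by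
  refine Finset.measurable_sum _ fun j _ => Measurable.mul (by fun_prop) ?_
  exact (measurable_D F j).comp (by fun_prop)

lemma gi_hasDerivAt_U {F : (ι → ℝ) → ℝ} (hF : Differentiable ℝ F) {C : ℝ} (hb : ∀ x, |F x| ≤ C)
    (hb' : ∀ x i, |D F i x| ≤ C) (θ : ℝ) (x : ι → ℝ) :
    HasDerivAt (fun t => giU F t x) (giU' F θ x) θ := by
  have hm : Measurable F := hF.continuous.measurable
  refine (hasDerivAt_integral_of_dominated_loc_of_deriv_le (μ := gam ι) (s := univ) univ_mem
    (F := fun t z => F (cos t • x + sin t • z))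
    (F' := fun t z => ∑ j, (-sin t * x j + cos t * z j) * D F j (cos t • x + sin t • z))
    (bound := fun z => C * ∑ j, |x j| + C * ∑ j, |z j|) ?_ ?_ ?_ ?_ ?_ ?_).2
  · exact Eventually.of_forall fun t => (hm.comp (by fun_prop)).aestronglyMeasurable
  · exact Integrable.of_bound (hm.comp (by fun_prop)).aestronglyMeasurable C
      (ae_of_all _ fun z => hb _)
  · exact ((gi_K_measurable F θ).comp (measurable_prodMk_left (x := x))).aestronglyMeasurable
  · exact ae_of_all _ fun z t _ => gi_K_bound hb' t x z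
  · exact (integrable_const _).add (gi_integrable_N.const_mul _)
  · refine ae_of_all _ fun z t _ => ?_
    have h1 : HasDerivAt (fun t : ℝ => cos t • x + sin t • z) (-sin t • x + cos t • z) t :=
      ((hasDerivAt_cos t).smul_const x).add ((hasDerivAt_sin t).smul_const z)
    have h2 := (hF (cos t • x + sin t • z)).hasFDerivAt.comp_hasDerivAt t h1
    rw [fderiv_apply_eq_sum] at h2
    simp only [Pi.add_apply, Pi.smul_apply, smul_eq_mul] at h2
    exact h2

lemma gi_U'_bound {F : (ι → ℝ) → ℝ} {C : ℝ} (hb' : ∀ x i, |D F i x| ≤ C) (θ : ℝ) (x : ι → ℝ) :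
    |giU' F θ x| ≤ C * ∑ j, |x j| + C * ∫ z, ∑ j, |z j| ∂(gam ι) := by
  have h := norm_integral_le_of_norm_le (μ := gam ι)
    ((integrable_const (C * ∑ j, |x j|)).add ((gi_integrable_N (ι := ι)).const_mul C))
    (f := fun z => ∑ j, (-sin θ * x j + cos θ * z j) * D F j (cos θ • x + sin θ • z))
    (ae_of_all _ fun z => gi_K_bound hb' θ x z)
  rw [integral_add' (integrable_const _) (gi_integrable_N.const_mul C), integral_const,
    integral_const_mul, probReal_univ, one_smul] at h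
  exact h

lemma gi_measurable_U' (F : (ι → ℝ) → ℝ) (θ : ℝ) : Measurable (giU' F θ) :=
  ((gi_K_measurable F θ).stronglyMeasurable.integral_prod_right' (ν := gam ι)).measurable

omit [DecidableEq ι] in
lemma gi_continuous_U {F : (ι → ℝ) → ℝ} (hF : Continuous F) {C : ℝ} (hb : ∀ x, |F x| ≤ C)
    (θ : ℝ) : Continuous (giU F θ) := by
  refine continuous_of_dominated (bound := fun _ => C) ?_ ?_ (integrable_const C) ?_
  · exact fun x => (hF.comp (by fun_prop)).aestronglyMeasurable
  · exact fun x => ae_of_all _ fun z => hb _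
  · exact ae_of_all _ fun z => hF.comp (by fun_prop)

omit [DecidableEq ι] in
lemma gi_minkowski {g : ι → (ι → ℝ) → ℝ} (hg : ∀ j, Measurable (g j)) {C : ℝ}
    (gb : ∀ j z, |g j z| ≤ C) :
    ∑ j, (∫ z, g j z ∂(gam ι)) ^ 2 ≤
      √(∑ j, (∫ z, g j z ∂(gam ι)) ^ 2) * ∫ z, √(∑ j, g j z ^ 2) ∂(gam ι) := by
  have hi : ∀ j, Integrable (g j) (gam ι) := fun j =>
    Integrable.of_bound (hg j).aestronglyMeasurable C (ae_of_all _ fun z => gb j z)
  set a : ι → ℝ := fun j => ∫ z, g j z ∂(gam ι) with ha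
  have h1 : ∑ j, a j ^ 2 = ∫ z, ∑ j, a j * g j z ∂(gam ι) := by
    rw [integral_finsetSum _ fun j _ => (hi j).const_mul _]
    refine Finset.sum_congr rfl fun j _ => ?_
    rw [integral_const_mul, sq]
  rw [← integral_const_mul]
  conv_lhs => rw [h1]
  refine integral_mono (integrable_finsetSum _ fun j _ => (hi j).const_mul _) ?_ fun z => ?_
  · refine Integrable.const_mul ?_ _
    refine Integrable.of_bound
      (Finset.measurable_sum _ fun j _ => (hg j).pow_const 2).sqrt.aestronglyMeasurable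
      (√(∑ _j : ι, C ^ 2)) (ae_of_all _ fun z => ?_)
    rw [Real.norm_eq_abs, abs_of_nonneg (Real.sqrt_nonneg _)]
    refine Real.sqrt_le_sqrt (Finset.sum_le_sum fun j _ => ?_)
    rw [← sq_abs]
    exact pow_le_pow_left₀ (abs_nonneg _) (gb j z) 2
  · exact Real.sum_mul_le_sqrt_mul_sqrt _ _ _

lemma gi_deriv_le {F : (ι → ℝ) → ℝ} (hF : Differentiable ℝ F) {κ : ℝ} (hκ : 0 < κ)
    (hr : ∀ x, F x ∈ Icc κ (1 - κ)) {C : ℝ} (hb : ∀ x, |F x| ≤ C)
    (hb' : ∀ x i, |D F i x| ≤ C) {θ : ℝ} (hs : 0 < sin θ) (hc : 0 ≤ cos θ) :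
    ∫ x, -PhiInv (giU F θ x) * giU' F θ x ∂(gam ι) ≤ cos θ * ∫ z, gn F z ∂(gam ι) := by
  have hm : Measurable F := hF.continuous.measurable
  have hC : 0 ≤ C := (abs_nonneg _).trans (hb 0)
  obtain ⟨B, hB, hBb⟩ := exists_bounds hκ
  have hU : ∀ x, giU F θ x = heat (sin θ) F (cos θ • x) := fun x => rfl
  have hUr : ∀ x, giU F θ x ∈ Icc κ (1 - κ) := fun x => heat_mem_Icc hm hr _ _
  have hUo : ∀ x, giU F θ x ∈ Ioo (0 : ℝ) 1 := fun x =>
    ⟨hκ.trans_le (hUr x).1, (hUr x).2.trans_lt (by linarith)⟩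
  have hH : Differentiable ℝ (heat (sin θ) F) :=
    (contDiff_heat hm hb hs).differentiable (by norm_num)
  have hUd : Differentiable ℝ (giU F θ) := by
    have : giU F θ = fun x => heat (sin θ) F (cos θ • x) := rfl
    rw [this]
    exact hH.comp (by fun_prop)
  set G : ι → (ι → ℝ) → ℝ := fun j x => ∫ z, D F j (cos θ • x + sin θ • z) ∂(gam ι) with hG
  have hGm : ∀ j, Measurable (G j) := fun j => by
    have : Measurable fun p : (ι → ℝ) × (ι → ℝ) => D F j (cos θ • p.1 + sin θ • p.2) :=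
      (measurable_D F j).comp (by fun_prop)
    exact (this.stronglyMeasurable.integral_prod_right' (ν := gam ι)).measurable
  have hGb : ∀ j x, |G j x| ≤ C := fun j x => by
    have := norm_integral_le_of_norm_le_const (μ := gam ι)
      (f := fun z => D F j (cos θ • x + sin θ • z)) (C := C) (ae_of_all _ fun z => hb' _ j)
    simpa using this
  have hDH : ∀ j x, D (heat (sin θ) F) j (cos θ • x) = G j x := fun j x => by
    rw [D_heat_of_diff hF hb hb']; rfl
  have hDU : ∀ j x, D (giU F θ) j x = cos θ * G j x := fun j x => by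
    have : giU F θ = fun x => heat (sin θ) F (0 + cos θ • x) := by
      ext x; rw [zero_add]; rfl
    rw [this, gi_D_affine hH, zero_add, hDH]
  set h : (ι → ℝ) → ℝ := fun x => -PhiInv (giU F θ x) with hh
  have hhd' : ∀ x, HasFDerivAt h (-((Iso (giU F θ x))⁻¹ • fderiv ℝ (giU F θ) x)) x := fun x =>
    ((hasDerivAt_PhiInv (hUo x)).comp_hasFDerivAt x (hUd x).hasFDerivAt).neg
  have hhd : Differentiable ℝ h := fun x => (hhd' x).differentiableAt
  have hDh : ∀ j x, D h j x = -((Iso (giU F θ x))⁻¹ * (cos θ * G j x)) := fun j x => by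
    rw [← hDU]
    unfold D
    rw [(hhd' x).fderiv]
    simp
  have hIp : ∀ x, 0 < Iso (giU F θ x) := fun x => Iso_pos (hUo x)
  set K : ℝ := B + C + B * C with hK
  have hBC : 0 ≤ B * C := by positivity
  have hhb : ∀ x, |h x| ≤ K := fun x => by
    simp only [hh, abs_neg]
    linarith [(hBb _ (hUr x)).1]
  have hhb' : ∀ x i, |D h i x| ≤ K := fun x i => by
    rw [hDh, abs_neg, abs_mul, abs_mul, abs_of_pos (inv_pos.2 (hIp x))]
    have h1 := (hBb _ (hUr x)).2
    have h2 := abs_cos_le_one θ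
    have h3 := hGb i x
    calc _ ≤ B * (1 * C) := by gcongr
      _ ≤ K := by linarith
  have hgb : ∀ j x, |D F j x| ≤ K := fun j x => by linarith [hb' x j]
  have hhm : Measurable h := hhd.continuous.measurable
  -- split the sum
  have hKj : ∀ j (x : ι → ℝ), Integrable
      (fun z : ι → ℝ => (-sin θ * x j + cos θ * z j) * D F j (cos θ • x + sin θ • z)) (gam ι) := by
    intro j x
    refine Integrable.mul_bdd (c := C)
      ((integrable_const _).add ((gi_integrable_eval j).const_mul _)) ?_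
      (ae_of_all _ fun z => hb' _ j)
    exact ((measurable_D F j).comp (by fun_prop)).aestronglyMeasurable
  set L : ι → (ι → ℝ) → ℝ := fun j x =>
    ∫ z, (-sin θ * x j + cos θ * z j) * D F j (cos θ • x + sin θ • z) ∂(gam ι) with hL
  have hLi : ∀ j, Integrable (L j) (gam ι) := fun j => by
    have hmj : Measurable fun p : (ι → ℝ) × (ι → ℝ) =>
        (-sin θ * p.1 j + cos θ * p.2 j) * D F j (cos θ • p.1 + sin θ • p.2) :=
      Measurable.mul (by fun_prop) ((measurable_D F j).comp (by fun_prop))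
    have : Integrable (fun p : (ι → ℝ) × (ι → ℝ) =>
        (-sin θ * p.1 j + cos θ * p.2 j) * D F j (cos θ • p.1 + sin θ • p.2))
        ((gam ι).prod (gam ι)) := by
      refine Integrable.mul_bdd (c := C) ?_ ?_ (ae_of_all _ fun z => hb' _ j)
      · exact (((gi_integrable_eval j).comp_fst (gam ι)).const_mul _).add
          (((gi_integrable_eval j).comp_snd (gam ι)).const_mul _)
      · exact ((measurable_D F j).comp (by fun_prop)).aestronglyMeasurable
    exact this.integral_prod_left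
  have e1 : ∫ x, h x * giU' F θ x ∂(gam ι) = ∑ j, ∫ x, h x * L j x ∂(gam ι) := by
    rw [← integral_finsetSum _ fun j _ =>
      (hLi j).bdd_mul (c := K) hhm.aestronglyMeasurable (ae_of_all _ hhb)]
    refine integral_congr_ae (ae_of_all _ fun x => ?_)
    simp only [giU', hL]
    rw [integral_finsetSum _ fun j _ => hKj j x, Finset.mul_sum]
  have e2 : ∀ j, ∫ x, h x * L j x ∂(gam ι) = -sin θ * ∫ x, D h j x * G j x ∂(gam ι) := fun j =>
    gi_rot_stein θ hhd hhb hhb' (measurable_D F j) (hgb j) j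
  have hDGi : ∀ j, Integrable (fun x => D h j x * G j x) (gam ι) := fun j =>
    Integrable.of_bound ((measurable_D h j).mul (hGm j)).aestronglyMeasurable (K * C)
      (ae_of_all _ fun x => by
        rw [Real.norm_eq_abs, abs_mul]
        have h1 := hhb' x j
        have h2 := hGb j x
        have h3 : 0 ≤ K := (abs_nonneg _).trans h1
        gcongr)
  have hgnb : ∀ x, |gn F x| ≤ Fintype.card ι * |C| := fun x => by
    rw [abs_of_nonneg (gn_nonneg _ _)]
    exact gn_le_of_abs_D_le (hb' x)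
  have hgi : Integrable (fun p : (ι → ℝ) × (ι → ℝ) => gn F p.1) ((gam ι).prod (gam ι)) :=
    Integrable.of_bound ((measurable_gn F).comp measurable_fst).aestronglyMeasurable _
      (ae_of_all _ fun p => hgnb p.1)
  have e3 := gi_integral_rot θ hgi
  simp only [integral_const, probReal_univ, one_smul] at e3
  have hgi2 : Integrable (fun x => ∫ z, gn F (cos θ • x + sin θ • z) ∂(gam ι)) (gam ι) := by
    have : Integrable (fun p : (ι → ℝ) × (ι → ℝ) => gn F (cos θ • p.1 + sin θ • p.2))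
        ((gam ι).prod (gam ι)) :=
      Integrable.of_bound ((measurable_gn F).comp (by fun_prop)).aestronglyMeasurable _
        (ae_of_all _ fun p => hgnb _)
    exact this.integral_prod_left
  change ∫ x, h x * giU' F θ x ∂(gam ι) ≤ _
  rw [e1, Finset.sum_congr rfl fun j _ => e2 j, ← Finset.mul_sum,
    ← integral_finsetSum _ fun j _ => hDGi j, ← e3, ← integral_const_mul, ← integral_const_mul]
  refine integral_mono ((integrable_finsetSum _ fun j _ => hDGi j).const_mul _)
    (hgi2.const_mul _) fun x => ?_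
  have m1 := gi_minkowski (g := fun j z => D F j (cos θ • x + sin θ • z))
    (fun j => (measurable_D F j).comp (by fun_prop)) (C := C) (fun j z => hb' _ j)
  have m2 := gn_heat_le hm hκ hr hs (cos θ • x)
  have m3 : gn (heat (sin θ) F) (cos θ • x) = √(∑ j, G j x ^ 2) := by
    unfold gn
    simp only [hDH]
  rw [m3, ← hU] at m2
  change ∑ j, G j x ^ 2 ≤ √(∑ j, G j x ^ 2) * ∫ z, gn F (cos θ • x + sin θ • z) ∂(gam ι) at m1
  have m4 : 0 ≤ ∫ z, gn F (cos θ • x + sin θ • z) ∂(gam ι) :=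
    integral_nonneg fun z => gn_nonneg _ _
  have m5 : -sin θ * ∑ j, D h j x * G j x =
      cos θ * (sin θ * (Iso (giU F θ x))⁻¹ * ∑ j, G j x ^ 2) := by
    simp only [hDh, Finset.mul_sum]
    exact Finset.sum_congr rfl fun j _ => by ring
  change -sin θ * ∑ j, D h j x * G j x ≤ cos θ * ∫ z, gn F (cos θ • x + sin θ • z) ∂(gam ι)
  rw [m5]
  refine mul_le_mul_of_nonneg_left ?_ hc
  have m6 : sin θ * (Iso (giU F θ x))⁻¹ * √(∑ j, G j x ^ 2) ≤ 1 := by
    rw [mul_right_comm, ← div_eq_mul_inv, div_le_one (hIp x)]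
    exact m2
  have m7 : 0 ≤ sin θ * (Iso (giU F θ x))⁻¹ := by have := hIp x; positivity
  calc _ ≤ sin θ * (Iso (giU F θ x))⁻¹ *
        (√(∑ j, G j x ^ 2) * ∫ z, gn F (cos θ • x + sin θ • z) ∂(gam ι)) :=
        mul_le_mul_of_nonneg_left m1 m7
    _ = (sin θ * (Iso (giU F θ x))⁻¹ * √(∑ j, G j x ^ 2)) *
        ∫ z, gn F (cos θ • x + sin θ • z) ∂(gam ι) := by ring
    _ ≤ 1 * ∫ z, gn F (cos θ • x + sin θ • z) ∂(gam ι) := mul_le_mul_of_nonneg_right m6 m4
    _ = _ := one_mul _

/-- the Gaussian isoperimetric inequality in functional form -/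
theorem gauss_iso {F : (ι → ℝ) → ℝ} (hF : GAdm F) :
    Iso (∫ z, F z ∂(gam ι)) ≤ ∫ z, Iso (F z) ∂(gam ι) + ∫ z, gn F z ∂(gam ι) := by
  obtain ⟨hd, ⟨κ, hκ, hr⟩, ⟨C₀, hC₀⟩⟩ := hF
  set C : ℝ := max C₀ 1 with hC
  have hb : ∀ x, |F x| ≤ C := fun x =>
    (abs_le.2 ⟨by linarith [(hr x).1], by linarith [(hr x).2]⟩).trans (le_max_right _ _)
  have hb' : ∀ x i, |D F i x| ≤ C := fun x i => (hC₀ x i).trans (le_max_left _ _)
  have hm : Measurable F := hd.continuous.measurable
  obtain ⟨B, hB, hBb⟩ := exists_bounds hκ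
  have hUr : ∀ θ x, giU F θ x ∈ Icc κ (1 - κ) := fun θ x => heat_mem_Icc hm hr (sin θ) _
  have hUo : ∀ θ x, giU F θ x ∈ Ioo (0 : ℝ) 1 := fun θ x =>
    ⟨hκ.trans_le (hUr θ x).1, (hUr θ x).2.trans_lt (by linarith)⟩
  have hUc : ∀ θ, Continuous (giU F θ) := gi_continuous_U hd.continuous hb
  have hA : ∀ θ, HasDerivAt (fun t => ∫ x, Iso (giU F t x) ∂(gam ι))
      (∫ x, -PhiInv (giU F θ x) * giU' F θ x ∂(gam ι)) θ := by
    intro θ
    refine (hasDerivAt_integral_of_dominated_loc_of_deriv_le (μ := gam ι) (s := univ) univ_mem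
      (F := fun t x => Iso (giU F t x))
      (F' := fun t x => -PhiInv (giU F t x) * giU' F t x)
      (bound := fun x => B * (C * ∑ j, |x j| + C * ∫ z, ∑ j, |z j| ∂(gam ι)))
      ?_ ?_ ?_ ?_ ?_ ?_).2
    · exact Eventually.of_forall fun t => (continuous_Iso.comp (hUc t)).aestronglyMeasurable
    · refine Integrable.of_bound (continuous_Iso.comp (hUc θ)).aestronglyMeasurable (1 / 2)
        (ae_of_all _ fun x => ?_)
      rw [Real.norm_eq_abs, abs_of_nonneg (Iso_nonneg _)]
      exact Iso_le_half _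
    · refine AEStronglyMeasurable.mul ?_ (gi_measurable_U' F θ).aestronglyMeasurable
      refine Continuous.aestronglyMeasurable (continuous_iff_continuousAt.2 fun x => ?_)
      exact (ContinuousAt.comp (f := giU F θ) (hasDerivAt_PhiInv (hUo θ x)).continuousAt
        (hUc θ).continuousAt).neg
    · refine ae_of_all _ fun x t _ => ?_
      rw [Real.norm_eq_abs, abs_mul, abs_neg]
      exact mul_le_mul (hBb _ (hUr t x)).1 (gi_U'_bound hb' t x) (abs_nonneg _) hB.le
    · exact ((gi_integrable_N.const_mul _).add (integrable_const _)).const_mul _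
    · exact ae_of_all _ fun x t _ =>
        HasDerivAt.comp (h₂ := Iso) (h := fun t => giU F t x) t (hasDerivAt_Iso (hUo t x))
          (gi_hasDerivAt_U hd hb hb' t x)
  set V : ℝ := ∫ z, gn F z ∂(gam ι) with hV
  have hA' : ∀ θ, HasDerivAt (fun t => ∫ x, Iso (giU F t x) ∂(gam ι) - sin t * V)
      (∫ x, -PhiInv (giU F θ x) * giU' F θ x ∂(gam ι) - cos θ * V) θ := fun θ =>
    (hA θ).sub ((hasDerivAt_sin θ).mul_const V)
  have hanti : AntitoneOn (fun t => ∫ x, Iso (giU F t x) ∂(gam ι) - sin t * V) (Icc 0 (π / 2)) := by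
    refine antitoneOn_of_deriv_nonpos (convex_Icc _ _)
      (fun t _ => (hA' t).continuousAt.continuousWithinAt)
      (fun t _ => (hA' t).differentiableAt.differentiableWithinAt) fun t ht => ?_
    rw [interior_Icc] at ht
    rw [(hA' t).deriv, sub_nonpos]
    exact gi_deriv_le hd hκ hr hb hb'
      (sin_pos_of_pos_of_lt_pi ht.1 (by linarith [ht.2, pi_pos]))
      (cos_nonneg_of_mem_Icc ⟨by linarith [ht.1, pi_pos], ht.2.le⟩)
  have hpi : (0 : ℝ) ≤ π / 2 := by positivity
  have := hanti (left_mem_Icc.2 hpi) (right_mem_Icc.2 hpi) hpi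
  simp only [giU, cos_pi_div_two, sin_pi_div_two, cos_zero, sin_zero, zero_smul, one_smul,
    zero_add, add_zero, integral_const, probReal_univ, one_mul, zero_mul, sub_zero] at this
  linarith

theorem iso_heat_le {f : (ι → ℝ) → ℝ} (hf : GAdm f) {r : ℝ} (hr : 0 < r) (x : ι → ℝ) :
    Iso (heat r f x) ≤ heat r (fun y => Iso (f y)) x + r * heat r (gn f) x := by
  have hg : GAdm (fun z => f (x + r • z)) := by
    obtain ⟨hd, ⟨κ, hκ, hk⟩, ⟨C, hC⟩⟩ := hf
    refine ⟨hd.comp (by fun_prop), ⟨κ, hκ, fun z => hk _⟩,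
      ⟨r * C, fun z i => ?_⟩⟩
    rw [gi_D_affine hd, abs_mul, abs_of_pos hr]
    exact mul_le_mul_of_nonneg_left (hC _ i) hr.le
  have h := gauss_iso hg
  have e : ∀ z, gn (fun z => f (x + r • z)) z = r * gn f (x + r • z) := fun z => by
    unfold gn
    simp only [gi_D_affine hf.diff, mul_pow, ← Finset.mul_sum]
    rw [Real.sqrt_mul (sq_nonneg r), Real.sqrt_sq hr.le]
  simp only [e] at h
  rw [integral_const_mul] at h
  exact h

theorem iso_le_bob {u : (ι → ℝ) → ℝ} (hu : Adm u) : Iso (∫ x in Q ι, u x) ≤ Bob u := by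
  set T : (ι → ℝ) → (ι → ℝ) := fun z i => Phi (z i) with hT
  have hTQ : ∀ z, T z ∈ Q ι := fun z i => Phi_mem_Ioo _
  have hTm : Measurable T :=
    measurable_pi_iff.2 fun i => continuous_Phi.measurable.comp (measurable_pi_apply i)
  have hmap : (gam ι).map T = volume.restrict (Q ι) := by
    rw [restrict_Q_eq_pi, ← map_Phi]
    unfold gam
    exact Measure.pi_map_pi fun _ => continuous_Phi.measurable.aemeasurable
  have hTd : ∀ z, HasFDerivAt T (ContinuousLinearMap.pi fun i =>
      phi (z i) • (ContinuousLinearMap.proj i : (ι → ℝ) →L[ℝ] ℝ)) z := fun z =>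
    hasFDerivAt_pi.2 fun i => (hasDerivAt_Phi (z i)).comp_hasFDerivAt z (hasFDerivAt_apply i z)
  have hcd : ∀ z, HasFDerivAt (fun z => u (T z)) _ z := fun z =>
    (hu.diff _ (hTQ z)).hasFDerivAt.comp z (hTd z)
  have hD : ∀ j z, D (fun z => u (T z)) j z = phi (z j) * D u j (T z) := fun j z => by
    unfold D
    rw [(hcd z).fderiv, ContinuousLinearMap.comp_apply, ← smul_eq_mul, ← map_smul]
    congr 1
    ext i
    by_cases h : i = j
    · subst h; simp
    · simp [h]
  have hg : GAdm (fun z => u (T z)) := by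
    obtain ⟨κ, hκ, hk⟩ := hu.range
    obtain ⟨C, hC⟩ := hu.grad
    refine ⟨fun z => (hcd z).differentiableAt, ⟨κ, hκ, fun z => hk _ (hTQ z)⟩,
      ⟨1 / 2 * C, fun z i => ?_⟩⟩
    rw [hD, abs_mul, abs_of_pos (phi_pos _)]
    exact mul_le_mul (phi_le_half _) (hC _ (hTQ z) i) (abs_nonneg _) (by norm_num)
  have h := gauss_iso hg
  have tr : ∀ {g : (ι → ℝ) → ℝ}, AEStronglyMeasurable g (volume.restrict (Q ι)) →
      ∫ z, g (T z) ∂(gam ι) = ∫ x in Q ι, g x := fun {g} hgm => by
    rw [← hmap] at hgm ⊢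
    rw [integral_map hTm.aemeasurable hgm]
  have hIm : AEStronglyMeasurable (fun x => Iso (u x)) (volume.restrict (Q ι)) :=
    continuous_Iso.comp_aestronglyMeasurable hu.aesm
  have hIi : IntegrableOn (fun x => Iso (u x)) (Q ι) :=
    integrableOn_Q hIm (C := 1 / 2) fun x _ => by
      rw [abs_of_nonneg (Iso_nonneg _)]; exact Iso_le_half _
  rw [tr hu.aesm, tr hIm] at h
  have hgn : ∫ z, gn (fun z => u (T z)) z ∂(gam ι) ≤ ∫ x in Q ι, gn u x / 2 := by
    have hi : IntegrableOn (fun x => gn u x / 2) (Q ι) := hu.integrableOn_gn.div_const 2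
    rw [← tr hi.aestronglyMeasurable]
    refine integral_mono_of_nonneg (ae_of_all _ fun z => gn_nonneg _ _) ?_
      (ae_of_all _ fun z => ?_)
    · have hi' := hi
      unfold IntegrableOn at hi'
      rw [← hmap] at hi'
      exact hi'.comp_measurable hTm
    · change gn (fun z => u (T z)) z ≤ gn u (T z) / 2
      have hz : 0 ≤ gn u (T z) / 2 := by have := gn_nonneg u (T z); positivity
      rw [gn, Real.sqrt_le_left hz, div_pow, gn_sq, Finset.sum_div]
      refine Finset.sum_le_sum fun j _ => ?_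
      rw [hD, mul_pow]
      have h1 : phi (z j) ^ 2 ≤ (1 / 2) ^ 2 :=
        pow_le_pow_left₀ (phi_pos _).le (phi_le_half _) 2
      nlinarith [sq_nonneg (D u j (T z))]
  refine h.trans ((add_le_add le_rfl hgn).trans ?_)
  rw [← integral_add hIi (hu.integrableOn_gn.div_const 2)]
  obtain ⟨C, hC⟩ := hu.grad
  refine integral_mono (hIi.add (hu.integrableOn_gn.div_const 2)) ?_ fun x => ?_
  · refine integrableOn_Q ?_ (C := √((π * (1 / 2)) ^ 2 + (Fintype.card ι * |C|) ^ 2))
      fun x hx => ?_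
    · exact continuous_sqrt.comp_aestronglyMeasurable
        (((hIm.const_mul π).pow 2).add ((measurable_gn u).pow_const 2).aestronglyMeasurable)
    · rw [abs_of_nonneg (Real.sqrt_nonneg _)]
      refine Real.sqrt_le_sqrt (add_le_add ?_ ?_)
      · exact pow_le_pow_left₀ (mul_nonneg pi_pos.le (Iso_nonneg _))
          (mul_le_mul_of_nonneg_left (Iso_le_half _) pi_pos.le) 2
      · exact pow_le_pow_left₀ (gn_nonneg _ _) (gn_le_of_abs_D_le (hC x hx)) 2
  · change Iso (u x) + gn u x / 2 ≤ √((π * Iso (u x)) ^ 2 + gn u x ^ 2)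
    have h1 : π * Iso (u x) ≤ √((π * Iso (u x)) ^ 2 + gn u x ^ 2) :=
      Real.le_sqrt_of_sq_le (by nlinarith [sq_nonneg (gn u x)])
    have h2 : gn u x ≤ √((π * Iso (u x)) ^ 2 + gn u x ^ 2) :=
      Real.le_sqrt_of_sq_le (by nlinarith [sq_nonneg (π * Iso (u x))])
    have h3 := pi_gt_three
    have h4 := Iso_nonneg (u x)
    nlinarith

end Pool.Agent.P.MP_b7645d_gt
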