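import Pool.Agent.P.MP_b7645d_gt.Gauss1

set_option autoImplicit false

open MeasureTheory ProbabilityTheory Set Real Filter Topology

namespace Pool.Agent.P.MP_b7645d_gt

variable {ι : Type} [Fintype ι] [DecidableEq ι]

/-- the Gaussian density -/
noncomputable def rho (z : ι → ℝ) : ℝ := ∏ i, phi (z i)

omit [DecidableEq ι] in
lemma rho_pos (z : ι → ℝ) : 0 < rho z := Finset.prod_pos fun _ _ => phi_pos _

omit [DecidableEq ι] in
lemma continuous_rho : Continuous (rho : (ι → ℝ) → ℝ) :=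
  continuous_finsetProd _ fun i _ => continuous_phi.comp (continuous_apply i)

omit [DecidableEq ι] in
lemma integrable_rho : Integrable (rho : (ι → ℝ) → ℝ) :=
  Integrable.fintype_prod (f := fun _ : ι => phi) (μ := fun _ => volume) fun _ => integrable_phi

omit [DecidableEq ι] in
lemma gam_eq : gam ι = (volume : Measure (ι → ℝ)).withDensity fun z => ENNReal.ofReal (rho z) := by
  refine Measure.pi_eq fun s hs => ?_
  rw [withDensity_apply _ (MeasurableSet.univ_pi hs), ← ofReal_integral_eq_lintegral_ofReal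
    integrable_rho.integrableOn (Eventually.of_forall fun z => (rho_pos z).le), volume_pi,
    Measure.restrict_pi_pi]
  unfold rho
  rw [integral_fintype_prod_eq_prod (f := fun _ : ι => phi), ENNReal.ofReal_prod_of_nonneg
    fun i _ => integral_nonneg fun t => (phi_pos t).le]
  refine Finset.prod_congr rfl fun i _ => ?_
  rw [gaussianReal_apply_eq_integral _ one_ne_zero]
  rfl

omit [DecidableEq ι] in
lemma integral_gam (G : (ι → ℝ) → ℝ) : ∫ z, G z ∂(gam ι) = ∫ z, rho z * G z := by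
  rw [gam_eq, integral_withDensity_eq_integral_toReal_smul
    continuous_rho.measurable.ennreal_ofReal (by simp)]
  refine integral_congr_ae (Eventually.of_forall fun z => ?_)
  simp only [smul_eq_mul]
  rw [ENNReal.toReal_ofReal (rho_pos z).le]

/-- the Cameron-Martin density -/
noncomputable def cm (h z : ι → ℝ) : ℝ := rexp (∑ i, (h i * z i - h i ^ 2 / 2))

omit [DecidableEq ι] in
lemma shift (G : (ι → ℝ) → ℝ) (h : ι → ℝ) :
    ∫ z, G (z + h) ∂(gam ι) = ∫ z, G z * cm h z ∂(gam ι) := by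
  rw [integral_gam, integral_gam, ← integral_sub_right_eq_self _ h]
  refine integral_congr_ae (Eventually.of_forall fun z => ?_)
  have : rho (z - h) = rho z * cm h z := by
    unfold rho cm
    rw [Real.exp_sum, ← Finset.prod_mul_distrib]
    refine Finset.prod_congr rfl fun i _ => ?_
    rw [phi_eq, phi_eq, mul_assoc, ← Real.exp_add, Pi.sub_apply]
    congr 2; ring
  simp only [sub_add_cancel, this]
  ring

/-- derivative of the Cameron-Martin density in the shift -/
noncomputable def cm' (h z : ι → ℝ) : (ι → ℝ) →L[ℝ] ℝ :=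
  cm h z • ∑ i, (z i - h i) • ContinuousLinearMap.proj (R := ℝ) (φ := fun _ : ι => ℝ) i

omit [DecidableEq ι] in
lemma hasFDerivAt_cm (h z : ι → ℝ) : HasFDerivAt (fun h => cm h z) (cm' h z) h := by
  have h1 : ∀ i, HasFDerivAt (fun h : ι → ℝ => h i * z i - h i ^ 2 / 2)
      ((z i - h i) • ContinuousLinearMap.proj (R := ℝ) (φ := fun _ : ι => ℝ) i) h := fun i => by
    have h2 : HasDerivAt (fun t : ℝ => t * z i - t ^ 2 / 2) (z i - h i) (h i) :=
      (((hasDerivAt_id (h i)).mul_const (z i)).sub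
        ((hasDerivAt_pow 2 (h i)).div_const 2)).congr_deriv (by simp)
    exact HasDerivAt.comp_hasFDerivAt (f := fun h : ι → ℝ => h i) h h2 (hasFDerivAt_apply i h)
  exact (HasFDerivAt.fun_sum fun i _ => h1 i).exp

lemma cm'_apply (h z : ι → ℝ) (j : ι) : cm' h z (Pi.single j 1) = cm h z * (z j - h j) := by
  simp [cm', Pi.single_apply]

/-- an integrable envelope -/
noncomputable def env (R : ℝ) (z : ι → ℝ) : ℝ := ∏ i, rexp (R * |z i|)

omit [DecidableEq ι] in
lemma integrable_env (R : ℝ) : Integrable (env R : (ι → ℝ) → ℝ) (gam ι) := by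
  refine Integrable.fintype_prod (f := fun _ : ι => fun t : ℝ => rexp (R * |t|))
    (μ := fun _ => gaussianReal 0 1) fun _ => ?_
  refine ((integrable_exp_mul_gaussianReal (μ := 0) (v := 1) R).add
    (integrable_exp_mul_gaussianReal (μ := 0) (v := 1) (-R))).mono' (by fun_prop)
    (Eventually.of_forall fun t => ?_)
  rw [Real.norm_eq_abs, abs_of_pos (Real.exp_pos _)]
  rcases abs_cases t with h | h
  · simp only [h.1, Pi.add_apply]; linarith [Real.exp_pos (-R * t)]
  · simp only [h.1, Pi.add_apply, mul_neg, neg_mul]; linarith [Real.exp_pos (R * t)]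

omit [DecidableEq ι] in
lemma norm_cm'_le {R : ℝ} (hR : 0 ≤ R) {h : ι → ℝ} (hh : ‖h‖ ≤ R) (z : ι → ℝ) :
    ‖cm' h z‖ ≤ Fintype.card ι * (R + 1) * env (R + 1) z := by
  have hi : ∀ i, |h i| ≤ R := fun i => (norm_le_pi_norm h i).trans hh
  have h1 : cm h z ≤ rexp (∑ i, R * |z i|) := by
    refine Real.exp_le_exp.2 (Finset.sum_le_sum fun i _ => ?_)
    have : h i * z i ≤ R * |z i| := (le_abs_self _).trans (by rw [abs_mul]; gcongr; exact hi i)
    nlinarith [sq_nonneg (h i)]
  have h2 : ∀ j, |z j - h j| ≤ (R + 1) * rexp (∑ i, |z i|) := fun j => by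
    have h3 : |z j| ≤ ∑ i, |z i| :=
      Finset.single_le_sum (f := fun i => |z i|) (fun _ _ => abs_nonneg _) (Finset.mem_univ j)
    have h4 := Real.add_one_le_exp (∑ i, |z i|)
    have h5 := abs_sub (z j) (h j)
    nlinarith [hi j, abs_nonneg (z j)]
  have h3 : ‖∑ i, (z i - h i) • ContinuousLinearMap.proj (R := ℝ) (φ := fun _ : ι => ℝ) i‖ ≤
      Fintype.card ι * ((R + 1) * rexp (∑ i, |z i|)) := by
    refine ContinuousLinearMap.opNorm_le_bound _ (by positivity) fun v => ?_
    simp only [sum_apply, smul_apply,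
      ContinuousLinearMap.proj_apply, smul_eq_mul, Real.norm_eq_abs]
    calc _ ≤ ∑ i, |(z i - h i) * v i| := Finset.abs_sum_le_sum_abs _ _
      _ ≤ ∑ _i : ι, (R + 1) * rexp (∑ i, |z i|) * ‖v‖ := Finset.sum_le_sum fun i _ => by
          rw [abs_mul]
          exact mul_le_mul (h2 i) (norm_le_pi_norm v i) (abs_nonneg _) (by positivity)
      _ = _ := by simp [mul_assoc]
  have h4 : env (R + 1) z = rexp (∑ i, R * |z i|) * rexp (∑ i, |z i|) := by
    rw [env, ← Real.exp_sum, ← Real.exp_add, ← Finset.sum_add_distrib]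
    congr 1
    exact Finset.sum_congr rfl fun i _ => by ring
  rw [cm', norm_smul, Real.norm_eq_abs, abs_of_pos (show 0 < cm h z from Real.exp_pos _), h4]
  calc _ ≤ rexp (∑ i, R * |z i|) * (Fintype.card ι * ((R + 1) * rexp (∑ i, |z i|))) := by
        gcongr
    _ = _ := by ring

omit [DecidableEq ι] in
lemma continuous_cm : Continuous fun p : (ι → ℝ) × (ι → ℝ) => cm p.1 p.2 := by
  unfold cm; fun_prop

omit [DecidableEq ι] in
lemma continuous_cm' : Continuous fun p : (ι → ℝ) × (ι → ℝ) => cm' p.1 p.2 := by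
  unfold cm' cm; fun_prop

omit [DecidableEq ι] in
lemma norm_smul_cm'_le {G : (ι → ℝ) → ℝ} {C : ℝ} (hb : ∀ x, |G x| ≤ C) (h₀ z : ι → ℝ) :
    ∀ h ∈ Metric.ball h₀ 1, ‖G z • cm' h z‖ ≤
      C * (Fintype.card ι * (‖h₀‖ + 1 + 1) * env (‖h₀‖ + 1 + 1) z) := fun h hh => by
  rw [norm_smul, Real.norm_eq_abs]
  refine mul_le_mul (hb z) (norm_cm'_le (by positivity) ?_ z) (norm_nonneg _)
    ((abs_nonneg _).trans (hb z))
  have := mem_ball_iff_norm.1 hh
  have h2 := norm_sub_norm_le h h₀
  linarith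

omit [DecidableEq ι] in
lemma aesm_smul_cm' {G : (ι → ℝ) → ℝ} (hG : Measurable G) (h : ι → ℝ) :
    AEStronglyMeasurable (fun z => G z • cm' h z) (gam ι) :=
  hG.aestronglyMeasurable.smul
    (continuous_cm'.comp (Continuous.prodMk_right h)).aestronglyMeasurable

omit [DecidableEq ι] in
lemma integrable_smul_cm' {G : (ι → ℝ) → ℝ} (hG : Measurable G) {C : ℝ} (hb : ∀ x, |G x| ≤ C)
    (h : ι → ℝ) : Integrable (fun z => G z • cm' h z) (gam ι) :=
  (((integrable_env _).const_mul _).const_mul _).mono' (aesm_smul_cm' hG h)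
    (Eventually.of_forall fun z => norm_smul_cm'_le hb h z h (Metric.mem_ball_self one_pos))

omit [DecidableEq ι] in
lemma integrable_gam_bdd {G : (ι → ℝ) → ℝ} (hG : Measurable G) {C : ℝ} (hb : ∀ x, |G x| ≤ C) :
    Integrable G (gam ι) :=
  Integrable.of_bound hG.aestronglyMeasurable C (Eventually.of_forall hb)

omit [DecidableEq ι] in
lemma hasFDerivAt_shift {G : (ι → ℝ) → ℝ} (hG : Measurable G) {C : ℝ} (hb : ∀ x, |G x| ≤ C)
    (h₀ : ι → ℝ) :
    HasFDerivAt (fun h => ∫ z, G (z + h) ∂(gam ι)) (∫ z, G z • cm' h₀ z ∂(gam ι)) h₀ := by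
  simp only [shift]
  refine hasFDerivAt_integral_of_dominated_of_fderiv_le (F := fun h z => G z * cm h z)
    (F' := fun h z => G z • cm' h z) (Metric.ball_mem_nhds h₀ one_pos)
    (Eventually.of_forall fun h => hG.aestronglyMeasurable.mul
      (continuous_cm.comp (Continuous.prodMk_right h)).aestronglyMeasurable) ?_
    (aesm_smul_cm' hG h₀) (Eventually.of_forall (norm_smul_cm'_le hb h₀))
    (((integrable_env _).const_mul _).const_mul _)
    (Eventually.of_forall fun z h _ => (hasFDerivAt_cm h z).const_mul (G z))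
  refine ((integrable_env ‖h₀‖).const_mul C).mono' (hG.aestronglyMeasurable.mul
      (continuous_cm.comp (Continuous.prodMk_right h₀)).aestronglyMeasurable)
      (Eventually.of_forall fun z => ?_)
  rw [Real.norm_eq_abs, abs_mul, abs_of_pos (show 0 < cm h₀ z from Real.exp_pos _)]
  refine mul_le_mul (hb z) ?_ (Real.exp_pos _).le ((abs_nonneg _).trans (hb z))
  rw [env, ← Real.exp_sum]
  refine Real.exp_le_exp.2 (Finset.sum_le_sum fun i _ => ?_)
  have : h₀ i * z i ≤ ‖h₀‖ * |z i| :=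
    (le_abs_self _).trans (by rw [abs_mul]; gcongr; exact norm_le_pi_norm h₀ i)
  nlinarith [sq_nonneg (h₀ i)]

omit [DecidableEq ι] in
lemma contDiff_shift {G : (ι → ℝ) → ℝ} (hG : Measurable G) {C : ℝ} (hb : ∀ x, |G x| ≤ C) :
    ContDiff ℝ 1 (fun h => ∫ z, G (z + h) ∂(gam ι)) := by
  rw [contDiff_one_iff_hasFDerivAt]
  refine ⟨_, continuous_iff_continuousAt.2 fun h₀ => ?_, hasFDerivAt_shift hG hb⟩
  refine continuousAt_of_dominated (Eventually.of_forall (aesm_smul_cm' hG)) ?_
    (((integrable_env (‖h₀‖ + 1 + 1)).const_mul (Fintype.card ι * (‖h₀‖ + 1 + 1))).const_mul C)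
    (Eventually.of_forall fun z => ?_)
  · filter_upwards [Metric.ball_mem_nhds h₀ one_pos] with h hh
    exact Eventually.of_forall fun z => norm_smul_cm'_le hb h₀ z h hh
  · exact ((continuous_cm'.comp (Continuous.prodMk_left z)).const_smul (G z)).continuousAt

lemma D_shift {G : (ι → ℝ) → ℝ} (hG : Measurable G) {C : ℝ} (hb : ∀ x, |G x| ≤ C) (j : ι)
    (h : ι → ℝ) :
    D (fun h => ∫ z, G (z + h) ∂(gam ι)) j h = ∫ z, G (z + h) * z j ∂(gam ι) := by
  rw [D, (hasFDerivAt_shift hG hb h).fderiv,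
    ContinuousLinearMap.integral_apply (integrable_smul_cm' hG hb h)]
  have := shift (fun z => G z * (z j - h j)) h
  simp only [Pi.add_apply, add_sub_cancel_right] at this
  rw [this]
  refine integral_congr_ae (Eventually.of_forall fun z => ?_)
  simp only [smul_apply, cm'_apply, smul_eq_mul]
  ring

omit [DecidableEq ι] in
lemma heat_eq_shift (F : (ι → ℝ) → ℝ) {r : ℝ} (hr : 0 < r) :
    heat r F = (fun h => ∫ z, F (r • (z + h)) ∂(gam ι)) ∘ fun x => r⁻¹ • x := by
  funext x
  simp only [heat, Function.comp, smul_add, smul_smul, mul_inv_cancel₀ hr.ne', one_smul, add_comm]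

omit [DecidableEq ι] in
lemma measurable_heat {F : (ι → ℝ) → ℝ} (hF : Measurable F) (r : ℝ) : Measurable (heat r F) := by
  have : Measurable (Function.uncurry fun x z : ι → ℝ => F (x + r • z)) :=
    hF.comp (by fun_prop)
  exact this.stronglyMeasurable.integral_prod_right.measurable

omit [DecidableEq ι] in
lemma heat_mem_Icc {F : (ι → ℝ) → ℝ} (hF : Measurable F) {a b : ℝ} (hb : ∀ x, F x ∈ Icc a b)
    (r : ℝ) (x : ι → ℝ) : heat r F x ∈ Icc a b := by
  have hi : Integrable (fun z => F (x + r • z)) (gam ι) :=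
    integrable_gam_bdd (hF.comp (by fun_prop)) (C := max |a| |b|) fun z =>
      abs_le_max_abs_abs (hb _).1 (hb _).2
  constructor
  · simpa [heat] using integral_mono (integrable_const a) hi fun z => (hb _).1
  · simpa [heat] using integral_mono hi (integrable_const b) fun z => (hb _).2

omit [DecidableEq ι] in
lemma abs_heat_le {F : (ι → ℝ) → ℝ} (hF : Measurable F) {C : ℝ} (hb : ∀ x, |F x| ≤ C)
    (r : ℝ) (x : ι → ℝ) : |heat r F x| ≤ C :=
  abs_le.2 (heat_mem_Icc hF (fun x => abs_le.1 (hb x)) r x)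

omit [DecidableEq ι] in
lemma contDiff_heat {F : (ι → ℝ) → ℝ} (hF : Measurable F) {C : ℝ} (hb : ∀ x, |F x| ≤ C)
    {r : ℝ} (hr : 0 < r) : ContDiff ℝ 1 (heat r F) := by
  rw [heat_eq_shift F hr]
  exact (contDiff_shift (G := fun y => F (r • y)) (hF.comp (by fun_prop)) fun y => hb _).comp
    (by fun_prop)

lemma D_heat {F : (ι → ℝ) → ℝ} (hF : Measurable F) {C : ℝ} (hb : ∀ x, |F x| ≤ C)
    {r : ℝ} (hr : 0 < r) (j : ι) (x : ι → ℝ) :
    D (heat r F) j x = (∫ z, F (x + r • z) * z j ∂(gam ι)) / r := by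
  have h1 := D_shift (G := fun y => F (r • y)) (hF.comp (by fun_prop)) (fun y => hb _) j (r⁻¹ • x)
  have h2 := (contDiff_shift (G := fun y => F (r • y)) (hF.comp (by fun_prop))
    fun y => hb _).differentiable one_ne_zero (r⁻¹ • x)
  have h3 : HasFDerivAt (fun x : ι → ℝ => r⁻¹ • x) (r⁻¹ • ContinuousLinearMap.id ℝ (ι → ℝ)) x :=
    (hasFDerivAt_id x).const_smul r⁻¹
  rw [heat_eq_shift F hr, D, (h2.hasFDerivAt.comp x h3).fderiv]
  simp only [ContinuousLinearMap.comp_apply, smul_apply,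
    ContinuousLinearMap.id_apply, map_smul, smul_eq_mul]
  rw [D] at h1
  rw [h1, div_eq_inv_mul]
  simp only [smul_add, smul_smul, mul_inv_cancel₀ hr.ne', one_smul, add_comm]

lemma norm_fderiv_le {F : (ι → ℝ) → ℝ} {C : ℝ} {x : ι → ℝ} (h : ∀ i, |D F i x| ≤ C) :
    ‖fderiv ℝ F x‖ ≤ Fintype.card ι * |C| := by
  refine ContinuousLinearMap.opNorm_le_bound _ (by positivity) fun v => ?_
  rw [fderiv_apply_eq_sum, Real.norm_eq_abs]
  calc _ ≤ ∑ i, |v i * D F i x| := Finset.abs_sum_le_sum_abs _ _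
    _ ≤ ∑ _i : ι, ‖v‖ * |C| := Finset.sum_le_sum fun i _ => by
        rw [abs_mul]
        exact mul_le_mul (norm_le_pi_norm v i) ((h i).trans (le_abs_self _)) (abs_nonneg _)
          (norm_nonneg _)
    _ = _ := by simp; ring

lemma D_heat_of_diff {F : (ι → ℝ) → ℝ} (hF : Differentiable ℝ F) {C : ℝ} (hb : ∀ x, |F x| ≤ C)
    (hb' : ∀ x i, |D F i x| ≤ C) (r : ℝ) (j : ι) (x : ι → ℝ) :
    D (heat r F) j x = heat r (D F j) x := by
  have hm : AEStronglyMeasurable (fun z : ι → ℝ => fderiv ℝ F (x + r • z)) (gam ι) :=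
    ((measurable_fderiv ℝ F).comp (by fun_prop)).aestronglyMeasurable
  have h : HasFDerivAt (heat r F) (∫ z, fderiv ℝ F (x + r • z) ∂(gam ι)) x :=
    hasFDerivAt_integral_of_dominated_of_fderiv_le (F := fun x z => F (x + r • z))
      (F' := fun x z => fderiv ℝ F (x + r • z)) (bound := fun _ => Fintype.card ι * |C|)
      univ_mem
      (Eventually.of_forall fun x => (hF.continuous.comp (by fun_prop)).aestronglyMeasurable)
      (integrable_gam_bdd (hF.continuous.measurable.comp (by fun_prop)) fun z => hb _) hm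
      (Eventually.of_forall fun z y _ => norm_fderiv_le (hb' _)) (integrable_const _)
      (Eventually.of_forall fun z y _ => by
        simpa [Function.comp_def] using
          (hF (y + r • z)).hasFDerivAt.comp y ((hasFDerivAt_id y).add_const (r • z)))
  rw [D, h.fderiv, ContinuousLinearMap.integral_apply (Integrable.of_bound hm _
    (Eventually.of_forall fun z => norm_fderiv_le (hb' _)))]
  rfl

/-- Stein's identity -/
lemma stein {F : (ι → ℝ) → ℝ} (hF : Differentiable ℝ F) {C : ℝ} (hb : ∀ x, |F x| ≤ C)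
    (hb' : ∀ x i, |D F i x| ≤ C) (j : ι) :
    ∫ z, F z * z j ∂(gam ι) = ∫ z, D F j z ∂(gam ι) := by
  have h1 := D_heat hF.continuous.measurable hb one_pos j 0
  rw [D_heat_of_diff hF hb hb'] at h1
  simpa [heat] using h1.symm

omit [DecidableEq ι] in
lemma law_lin (b : ι → ℝ) :
    (gam ι).map (fun z => ∑ j, b j * z j) = gaussianReal 0 (∑ j, b j ^ 2).toNNReal := by
  have h := IsGaussian.map_eq_gaussianReal (μ := stdGaussian (EuclideanSpace ℝ ι))
    (innerSL ℝ (WithLp.toLp 2 b))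
  rw [integral_strongDual_stdGaussian, variance_dual_stdGaussian, ← map_pi_eq_stdGaussian,
    Measure.map_map (by fun_prop) (by fun_prop), innerSL_apply_norm,
    EuclideanSpace.real_norm_sq_eq] at h
  rw [← h, gam]
  congr 1
  funext z
  simp [PiLp.inner_apply, mul_comm]

omit [DecidableEq ι] in
lemma memLp_eval (j : ι) : MemLp (fun z : ι → ℝ => z j) 2 (gam ι) :=
  (memLp_id_gaussianReal (μ := 0) (v := 1) 2).comp_measurePreserving
    (measurePreserving_eval (fun _ : ι => gaussianReal 0 1) j)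

omit [DecidableEq ι] in
lemma integrable_eval_gam (j : ι) : Integrable (fun z : ι → ℝ => z j) (gam ι) :=
  (memLp_eval j).integrable one_le_two

omit [DecidableEq ι] in
lemma integrable_mul_eval {G : (ι → ℝ) → ℝ} (hG : Measurable G) {C : ℝ} (hb : ∀ x, |G x| ≤ C)
    (j : ι) : Integrable (fun z => G z * z j) (gam ι) :=
  (integrable_eval_gam j).bdd_mul hG.aestronglyMeasurable (Eventually.of_forall hb)

omit [DecidableEq ι] in
lemma integral_mul_lin {G : (ι → ℝ) → ℝ} (hG : Measurable G) {C : ℝ} (hb : ∀ x, |G x| ≤ C)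
    (b : ι → ℝ) : ∫ z, G z * ∑ j, b j * z j ∂(gam ι) = ∑ j, b j * ∫ z, G z * z j ∂(gam ι) := by
  simp only [Finset.mul_sum, mul_left_comm (G _)]
  rw [integral_finsetSum _ fun j _ => (integrable_mul_eval hG hb j).const_mul _]
  simp only [integral_const_mul]

omit [DecidableEq ι] in
lemma bessel_aux {G : (ι → ℝ) → ℝ} (hG : Measurable G) {C : ℝ} (hb : ∀ x, |G x| ≤ C) :
    (∫ z, G z ∂(gam ι)) ^ 2 + ∑ j, (∫ z, G z * z j ∂(gam ι)) ^ 2 ≤ ∫ z, G z ^ 2 ∂(gam ι) := by
  set a := ∫ z, G z ∂(gam ι) with ha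
  set b : ι → ℝ := fun j => ∫ z, G z * z j ∂(gam ι) with hbdef
  set L : (ι → ℝ) → ℝ := fun z => ∑ j, b j * z j with hL
  have hLm : Measurable L := by fun_prop
  have hL2 : MemLp L 2 (gam ι) := memLp_finsetSum _ fun j _ => (memLp_eval j).const_mul _
  have hL1 : Integrable L (gam ι) := hL2.integrable one_le_two
  have hE : ∫ z, L z ∂(gam ι) = 0 := by
    have := integral_id_gaussianReal (μ := 0) (v := (∑ j, b j ^ 2).toNNReal)
    rwa [← law_lin, integral_map hLm.aemeasurable (by fun_prop)] at this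
  have hV : ∫ z, L z ^ 2 ∂(gam ι) = ∑ j, b j ^ 2 := by
    have := variance_id_gaussianReal (μ := 0) (v := (∑ j, b j ^ 2).toNNReal)
    rw [← law_lin, variance_map (by fun_prop) hLm.aemeasurable, Function.id_comp,
      variance_of_integral_eq_zero hLm.aemeasurable hE,
      Real.coe_toNNReal _ (Finset.sum_nonneg fun _ _ => sq_nonneg _)] at this
    exact this
  have hGL : ∫ z, G z * L z ∂(gam ι) = ∑ j, b j ^ 2 := by
    rw [integral_mul_lin hG hb]
    exact Finset.sum_congr rfl fun j _ => (sq _).symm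
  have iG := integrable_gam_bdd hG hb
  have iGL : Integrable (fun z => G z * L z) (gam ι) :=
    hL1.bdd_mul hG.aestronglyMeasurable (Eventually.of_forall hb)
  have iL2 : Integrable (fun z => L z ^ 2) (gam ι) := hL2.integrable_sq
  have iG2 : Integrable (fun z => G z ^ 2) (gam ι) :=
    integrable_gam_bdd (hG.pow_const 2) (C := C ^ 2) fun z => by
      rw [abs_pow]; exact pow_le_pow_left₀ (abs_nonneg _) (hb z) 2
  have h1 : ∫ z, (2 * a * G z + 2 * (G z * L z) - a ^ 2 - 2 * a * L z - L z ^ 2) ∂(gam ι) ≤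
      ∫ z, G z ^ 2 ∂(gam ι) :=
    integral_mono (((((iG.const_mul _).add (iGL.const_mul _)).sub (integrable_const _)).sub
      (hL1.const_mul _)).sub iL2) iG2 fun z => by
        simp only; nlinarith [sq_nonneg (G z - a - L z)]
  rw [integral_sub, integral_sub, integral_sub, integral_add,
      integral_const_mul, integral_const_mul, integral_const_mul, hE, hV, hGL, ← ha] at h1
  · simp only [integral_const, probReal_univ, smul_eq_mul] at h1
    nlinarith
  all_goals fun_prop

/-- reverse Poincare inequality (Bessel) -/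
lemma bessel {F : (ι → ℝ) → ℝ} (hF : Measurable F) {C : ℝ} (hb : ∀ x, |F x| ≤ C)
    {r : ℝ} (hr : 0 < r) (x : ι → ℝ) :
    heat r F x ^ 2 + r ^ 2 * ∑ j, D (heat r F) j x ^ 2 ≤ heat r (fun y => F y ^ 2) x := by
  have := bessel_aux (G := fun z => F (x + r • z)) (hF.comp (by fun_prop)) fun z => hb _
  simp only [D_heat hF hb hr, Finset.mul_sum, div_pow, mul_div_cancel₀ _ (pow_pos hr 2).ne']
  exact this

omit [DecidableEq ι] in
/-- the bathtub principle in the direction of the Gaussian barycentre -/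
lemma bathtubN {F : (ι → ℝ) → ℝ} (hF : Measurable F) {κ : ℝ} (hκ : 0 < κ)
    (hb : ∀ x, F x ∈ Icc κ (1 - κ)) :
    √(∑ j, (∫ z, F z * z j ∂(gam ι)) ^ 2) ≤ Iso (∫ z, F z ∂(gam ι)) := by
  set b : ι → ℝ := fun j => ∫ z, F z * z j ∂(gam ι) with hbdef
  set n := √(∑ j, b j ^ 2) with hn
  have hn2 : n ^ 2 = ∑ j, b j ^ 2 := Real.sq_sqrt (Finset.sum_nonneg fun _ _ => sq_nonneg _)
  rcases (Real.sqrt_nonneg (∑ j, b j ^ 2)).eq_or_lt with h0 | h0
  · rw [hn, ← h0]; exact Iso_nonneg _
  rw [← hn] at h0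
  have h01 : ∀ x, F x ∈ Icc (0 : ℝ) 1 := fun x =>
    ⟨hκ.le.trans (hb x).1, (hb x).2.trans (by linarith)⟩
  have hb1 : ∀ x, |F x| ≤ 1 := fun x => by rw [abs_of_nonneg (h01 x).1]; exact (h01 x).2
  have hlaw := law_lin (fun j => b j / n)
  have : ∑ j, (b j / n) ^ 2 = 1 := by
    simp only [div_pow, ← Finset.sum_div, ← hn2]
    exact div_self (pow_pos h0 2).ne'
  rw [this, Real.toNNReal_one] at hlaw
  have hm : ∫ z, F z ∂(gam ι) ∈ Ioo (0 : ℝ) 1 := by
    have := heat_mem_Icc hF hb 1 0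
    simp only [heat, one_smul, zero_add] at this
    exact ⟨hκ.trans_le this.1, this.2.trans_lt (by linarith)⟩
  have h := bathtub (gam ι) (by fun_prop) hlaw hF h01 hm
  rw [integral_mul_lin hF hb1] at h
  refine le_of_eq_of_le ?_ h
  have : ∑ j, b j / n * b j = (∑ j, b j ^ 2) / n := by
    rw [Finset.sum_div]; exact Finset.sum_congr rfl fun j _ => by ring
  rw [this, ← hn2]
  field_simp

lemma gn_heat_le {F : (ι → ℝ) → ℝ} (hF : Measurable F) {κ : ℝ} (hκ : 0 < κ)
    (hb : ∀ x, F x ∈ Icc κ (1 - κ)) {r : ℝ} (hr : 0 < r) (x : ι → ℝ) :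
    r * gn (heat r F) x ≤ Iso (heat r F x) := by
  have hb1 : ∀ x, |F x| ≤ 1 := fun x =>
    abs_le.2 ⟨by linarith [(hb x).1], by linarith [(hb x).2]⟩
  have := bathtubN (F := fun z => F (x + r • z)) (hF.comp (by fun_prop)) hκ fun z => hb _
  refine le_of_eq_of_le ?_ this
  simp only [gn, D_heat hF hb1 hr, div_pow, ← Finset.sum_div]
  rw [Real.sqrt_div' _ (sq_nonneg r), Real.sqrt_sq hr.le]
  field_simp

end Pool.Agent.P.MP_b7645d_gt
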