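import Pool.Agent.P.MP_b7645d_gt.GaussIso

set_option autoImplicit false

open MeasureTheory ProbabilityTheory Set Real Filter Topology

namespace Pool.Agent.P.MP_b7645d_gt

section
variable {ι : Type} [Fintype ι] [DecidableEq ι]

lemma bob_nonneg (u : (ι → ℝ) → ℝ) : 0 ≤ Bob u := integral_nonneg fun _ => Real.sqrt_nonneg _

lemma Adm.integrableOn_Iso {u : (ι → ℝ) → ℝ} (hu : Adm u) :
    IntegrableOn (fun x => Iso (u x)) (Q ι) :=
  integrableOn_Q (continuous_Iso.comp_aestronglyMeasurable hu.aesm) (C := 1 / 2) fun _ _ => by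
    rw [abs_of_nonneg (Iso_nonneg _)]; exact Iso_le_half _

lemma sqrt_sq_add_sq_le {a b : ℝ} (ha : 0 ≤ a) (hb : 0 ≤ b) : √(a ^ 2 + b ^ 2) ≤ a + b :=
  Real.sqrt_le_iff.2 ⟨by positivity, by nlinarith [mul_nonneg ha hb]⟩

lemma Adm.integrableOn_bob {u : (ι → ℝ) → ℝ} (hu : Adm u) :
    IntegrableOn (fun x => √((π * Iso (u x)) ^ 2 + gn u x ^ 2)) (Q ι) := by
  refine ((hu.integrableOn_Iso.const_mul π).add hu.integrableOn_gn).mono' ?_
    (Eventually.of_forall fun x => ?_)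
  · have h1 := continuous_Iso.comp_aestronglyMeasurable hu.aesm
    have h2 := (measurable_gn u).aestronglyMeasurable (μ := volume.restrict (Q ι))
    exact Real.continuous_sqrt.comp_aestronglyMeasurable
      (((h1.const_mul π).pow 2).add (h2.pow 2))
  · rw [Real.norm_eq_abs, abs_of_nonneg (Real.sqrt_nonneg _)]
    exact sqrt_sq_add_sq_le (mul_nonneg pi_pos.le (Iso_nonneg _)) (gn_nonneg _ _)

lemma bob_le_add {u : (ι → ℝ) → ℝ} (hu : Adm u) :
    Bob u ≤ π * (∫ x in Q ι, Iso (u x)) + ∫ x in Q ι, gn u x := by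
  rw [← integral_const_mul, ← integral_add (hu.integrableOn_Iso.const_mul π) hu.integrableOn_gn]
  exact integral_mono hu.integrableOn_bob ((hu.integrableOn_Iso.const_mul π).add hu.integrableOn_gn)
    fun x => sqrt_sq_add_sq_le (mul_nonneg pi_pos.le (Iso_nonneg _)) (gn_nonneg _ _)

lemma adm_const {t : ℝ} (ht : t ∈ Ioo (0 : ℝ) 1) : Adm (fun _ : ι → ℝ => t) :=
  ⟨fun _ _ => differentiableAt_const _,
    ⟨min t (1 - t), lt_min ht.1 (sub_pos.2 ht.2), fun _ _ =>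
      ⟨min_le_left _ _, by linarith [min_le_right t (1 - t)]⟩⟩,
    ⟨0, fun _ _ _ => by simp [D]⟩⟩

lemma bob_const (t : ℝ) : Bob (fun _ : ι → ℝ => t) = π * Iso t := by
  simp [Bob, gn, D, Real.sqrt_sq (mul_nonneg pi_pos.le (Iso_nonneg t))]

lemma D_affine {u : (ι → ℝ) → ℝ} {x : ι → ℝ} (hu : DifferentiableAt ℝ u x) (θ c : ℝ) (i : ι) :
    D (fun y => θ * u y + c) i x = θ * D u i x := by
  rw [D, ((hu.hasFDerivAt.const_mul θ).add_const c).fderiv]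
  simp [D]

lemma gn_affine {u : (ι → ℝ) → ℝ} {x : ι → ℝ} (hu : DifferentiableAt ℝ u x) {θ : ℝ} (hθ : 0 ≤ θ)
    (c : ℝ) : gn (fun y => θ * u y + c) x = θ * gn u x := by
  simp only [gn, D_affine hu, mul_pow, ← Finset.mul_sum]
  rw [Real.sqrt_mul (sq_nonneg _), Real.sqrt_sq hθ]

lemma Adm.affine {u : (ι → ℝ) → ℝ} (hu : Adm u) {θ e : ℝ} (hθ : θ ∈ Ioc (0 : ℝ) 1)
    (he : e ∈ Icc (0 : ℝ) 1) : Adm fun y => θ * u y + (1 - θ) * e := by
  obtain ⟨κ, hκ, h⟩ := hu.range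
  obtain ⟨C, hC⟩ := hu.grad
  refine ⟨fun x hx => ((hu.diff x hx).const_mul θ).add_const _,
    ⟨θ * κ, mul_pos hθ.1 hκ, fun x hx => ⟨?_, ?_⟩⟩, ⟨θ * C, fun x hx i => ?_⟩⟩
  · nlinarith [(h x hx).1, hθ.1, hθ.2, he.1, mul_nonneg (sub_nonneg.2 hθ.2) he.1]
  · nlinarith [(h x hx).2, hθ.1, hθ.2, he.2, mul_nonneg (sub_nonneg.2 hθ.2) (sub_nonneg.2 he.2)]
  · rw [D_affine (hu.diff x hx), abs_mul, abs_of_pos hθ.1]
    exact mul_le_mul_of_nonneg_left (hC x hx i) hθ.1.le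

end

lemma J_le_bob {d : ℕ} {u : (Fin d → ℝ) → ℝ} (hu : Adm u) : J (∫ x in Q (Fin d), u x) ≤ Bob u :=
  csInf_le ⟨0, fun _ ⟨_, v, _, _, hb⟩ => hb ▸ bob_nonneg v⟩ ⟨d, u, hu, rfl, rfl⟩

lemma J_set_nonempty {t : ℝ} (ht : t ∈ Ioo (0 : ℝ) 1) :
    {b | ∃ (d : ℕ) (u : (Fin d → ℝ) → ℝ), Adm u ∧ ∫ x in Q (Fin d), u x = t ∧ Bob u = b}.Nonempty :=
  ⟨_, 0, fun _ => t, adm_const ht, by simp, rfl⟩

lemma exists_bob_lt {t : ℝ} (ht : t ∈ Ioo (0 : ℝ) 1) {η : ℝ} (hη : 0 < η) :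
    ∃ (d : ℕ) (u : (Fin d → ℝ) → ℝ), Adm u ∧ ∫ x in Q (Fin d), u x = t ∧ Bob u < J t + η := by
  obtain ⟨b, ⟨d, u, hu, h1, h2⟩, hb⟩ :=
    exists_lt_of_csInf_lt (J_set_nonempty ht) (lt_add_of_pos_right _ hη)
  exact ⟨d, u, hu, h1, h2 ▸ hb⟩

lemma iso_le_J {t : ℝ} (ht : t ∈ Ioo (0 : ℝ) 1) : Iso t ≤ J t :=
  le_csInf (J_set_nonempty ht) fun _ ⟨_, _, hu, h1, h2⟩ => h1 ▸ h2 ▸ iso_le_bob hu

lemma J_le_iso {t : ℝ} (ht : t ∈ Ioo (0 : ℝ) 1) : J t ≤ π * Iso t := by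
  simpa [bob_const] using J_le_bob (d := 0) (adm_const ht)

lemma J_move {ε : ℝ} (hε : 0 < ε) : ∃ δ > 0, ∀ t ∈ Ioo (0 : ℝ) 1, ∀ θ ∈ Ioc (0 : ℝ) 1,
    ∀ e ∈ Icc (0 : ℝ) 1, 1 - θ < δ → J (θ * t + (1 - θ) * e) ≤ J t + ε := by
  obtain ⟨δ, hδ, h⟩ := Metric.uniformContinuousOn_iff.1
    ((isCompact_Icc (a := (0 : ℝ)) (b := 1)).uniformContinuousOn_of_continuous
      continuous_Iso.continuousOn) (ε / 8) (by positivity)
  refine ⟨δ, hδ, fun t ht θ hθ e he hθδ => ?_⟩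
  obtain ⟨d, u, hu, h1, h2⟩ := exists_bob_lt ht (half_pos hε)
  have hv := hu.affine hθ he
  have h3 := J_le_bob hv
  rw [integral_add (hu.integrableOn.const_mul θ) (integrable_const _), integral_const_mul, h1] at h3
  simp only [integral_const, probReal_univ, smul_eq_mul, one_mul] at h3
  have h4 : Bob (fun y => θ * u y + (1 - θ) * e) ≤ Bob u + ε / 2 := by
    have : Bob u + ε / 2 = ∫ x in Q (Fin d), (√((π * Iso (u x)) ^ 2 + gn u x ^ 2) + ε / 2) := by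
      rw [integral_add hu.integrableOn_bob (integrable_const _)]
      simp [Bob]
    rw [this]
    refine setIntegral_mono_on hv.integrableOn_bob (hu.integrableOn_bob.add (integrable_const _))
      measurableSet_Q fun x hx => ?_
    have hux := hu.mem_Ioo hx
    have h5 := h _ (Ioo_subset_Icc_self (hv.mem_Ioo hx)) _ (Ioo_subset_Icc_self hux) (by
      rw [Real.dist_eq, abs_lt]
      constructor <;> nlinarith [hux.1, hux.2, he.1, he.2, hθ.1, hθ.2])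
    rw [Real.dist_eq, abs_lt] at h5
    rw [gn_affine (hu.diff x hx) hθ.1.le]
    set A := Iso (u x)
    set B := Iso (θ * u x + (1 - θ) * e)
    set g := gn u x
    have hA : 0 ≤ A := Iso_nonneg _
    have hB : 0 ≤ B := Iso_nonneg _
    have hg : 0 ≤ g := gn_nonneg _ _
    have hS : π * A ≤ √((π * A) ^ 2 + g ^ 2) :=
      Real.le_sqrt_of_sq_le (by nlinarith [sq_nonneg g])
    have hS2 : √((π * A) ^ 2 + g ^ 2) ^ 2 = (π * A) ^ 2 + g ^ 2 := Real.sq_sqrt (by positivity)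
    have hB' : π * B ≤ π * A + ε / 2 := by nlinarith [pi_pos, pi_le_four]
    have hB2 : (π * B) ^ 2 ≤ (π * A + ε / 2) ^ 2 := pow_le_pow_left₀ (by positivity) hB' 2
    have hg2 : (θ * g) ^ 2 ≤ g ^ 2 :=
      pow_le_pow_left₀ (mul_nonneg hθ.1.le hg) (by nlinarith [hθ.2]) 2
    refine Real.sqrt_le_iff.2 ⟨by positivity, ?_⟩
    nlinarith
  linarith

lemma J_near {ε : ℝ} (hε : 0 < ε) : ∃ δ > 0, ∀ s ∈ Ioo (0 : ℝ) 1, ∀ t ∈ Ioo (0 : ℝ) 1,
    |s - t| < δ * min t (1 - t) → J s ≤ J t + ε := by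
  obtain ⟨δ, hδ, h⟩ := J_move hε
  refine ⟨δ, hδ, fun s hs t ht hst => ?_⟩
  rw [abs_lt] at hst
  have h1 : δ * min t (1 - t) ≤ δ * t := by gcongr; exact min_le_left _ _
  have h2 : δ * min t (1 - t) ≤ δ * (1 - t) := by gcongr; exact min_le_right _ _
  have ht0 := ht.1
  have ht1 := sub_pos.2 ht.2
  rcases le_total s t with hle | hle
  · have := h t ht (s / t) ⟨div_pos hs.1 ht0, (div_le_one ht0).2 hle⟩ 0 ⟨le_rfl, zero_le_one⟩ (by
      rw [sub_lt_comm, lt_div_iff₀ ht0]; linarith [hst.1])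
    rwa [mul_zero, add_zero, div_mul_cancel₀ _ ht0.ne'] at this
  · have := h t ht ((1 - s) / (1 - t)) ⟨div_pos (sub_pos.2 hs.2) ht1,
      (div_le_one ht1).2 (by linarith)⟩ 1 ⟨zero_le_one, le_rfl⟩ (by
      rw [sub_lt_comm, lt_div_iff₀ ht1]; linarith [hst.2])
    have h3 : (1 - s) / (1 - t) * t + (1 - (1 - s) / (1 - t)) * 1 = s := by
      field_simp; ring
    rwa [h3] at this

lemma continuousOn_J {κ : ℝ} (hκ : 0 < κ) : ContinuousOn J (Icc κ (1 - κ)) := by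
  refine Metric.continuousOn_iff.2 fun t ht ε hε => ?_
  obtain ⟨δ, hδ, h⟩ := J_near (half_pos hε)
  have hs : ∀ u ∈ Icc κ (1 - κ), u ∈ Ioo (0 : ℝ) 1 := fun u hu =>
    ⟨hκ.trans_le hu.1, hu.2.trans_lt (by linarith)⟩
  have hm : ∀ u ∈ Icc κ (1 - κ), δ * κ ≤ δ * min u (1 - u) := fun u hu => by
    gcongr; exact le_min hu.1 (by linarith [hu.2])
  refine ⟨δ * κ, by positivity, fun s hs' hst => ?_⟩
  rw [Real.dist_eq] at hst ⊢
  have h1 := h s (hs s hs') t (hs t ht) (hst.trans_le (hm t ht))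
  have h2 := h t (hs t ht) s (hs s hs') (by rw [abs_sub_comm]; exact hst.trans_le (hm s hs'))
  rw [abs_lt]; constructor <;> linarith

/-- a point of large slope with a supporting parabola from below -/
theorem exists_support (H₀ : ℝ) (hH₀ : 0 ≤ H₀) :
    ∃ t H M ρ : ℝ, t ∈ Ioo (0 : ℝ) 1 ∧ H₀ ≤ H ∧ 0 ≤ M ∧ 0 < ρ ∧ 0 < J t ∧
      ∀ s, |s - t| ≤ ρ → J t + H * (s - t) - M * (s - t) ^ 2 ≤ J s := by
  set b := Phi (-(H₀ + 1)) with hb
  have hb01 : b ∈ Ioo (0 : ℝ) 1 := Phi_mem_Ioo _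
  have hb2 : b < 1 / 2 := by
    have h1 := Phi_neg 0
    rw [neg_zero] at h1
    have h2 : b < Phi 0 := strictMono_Phi (by linarith)
    linarith
  have hJb : (H₀ + 1) * b ≤ J b := by
    refine (mills _).trans (le_trans ?_ (iso_le_J hb01))
    rw [hb, Iso_Phi, phi_neg]
  obtain ⟨a, ha1, ha0, hab⟩ : ∃ a, π * Iso a < b ∧ 0 < a ∧ a < b := by
    have h1 : ∀ᶠ a in 𝓝 (0 : ℝ), π * Iso a < b :=
      (continuous_const.mul continuous_Iso).continuousAt.eventually_lt continuousAt_const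
        (by simpa [Iso_zero] using hb01.1)
    have h2 : ∀ᶠ a in 𝓝[>] (0 : ℝ), π * Iso a < b ∧ 0 < a ∧ a < b :=
      (h1.filter_mono nhdsWithin_le_nhds).and (Ioo_mem_nhdsGT hb01.1)
    exact h2.exists
  set M := 4 * (b + H₀ * a) / a ^ 2 with hM
  have hM0 : 0 ≤ M := by have := hb01.1; positivity
  have hsub : Icc (a / 2) b ⊆ Icc (a / 2) (1 - a / 2) := Icc_subset_Icc le_rfl (by linarith)
  have hc : ContinuousOn (fun μ => J μ - H₀ * μ + M * max (a - μ) 0 ^ 2) (Icc (a / 2) b) :=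
    (((continuousOn_J (half_pos ha0)).mono hsub).sub (by fun_prop)).add (by fun_prop)
  obtain ⟨t, ht, hmin⟩ := isCompact_Icc.exists_isMinOn ⟨a, by constructor <;> linarith⟩ hc
  have hmin' : ∀ s ∈ Icc (a / 2) b, J t - H₀ * t + M * max (a - t) 0 ^ 2 ≤
      J s - H₀ * s + M * max (a - s) 0 ^ 2 := fun s hs => hmin hs
  have hga := hmin' a (by constructor <;> linarith)
  have hJa := J_le_iso (t := a) ⟨ha0, by linarith⟩
  rw [sub_self, max_self] at hga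
  have hHa : 0 ≤ H₀ * a := by positivity
  have ht01 : t ∈ Ioo (0 : ℝ) 1 := ⟨by linarith [ht.1], by linarith [ht.2]⟩
  have hJt : 0 < J t := (Iso_pos ht01).trans_le (iso_le_J ht01)
  have ht1 : a / 2 < t := by
    refine lt_of_le_of_ne ht.1 fun h => ?_
    rw [← h, max_eq_left (by linarith)] at hga
    rw [← h] at hJt
    have : M * (a - a / 2) ^ 2 = b + H₀ * a := by rw [hM]; field_simp; ring
    nlinarith
  have ht2 : t < b := by
    refine lt_of_le_of_ne ht.2 fun h => ?_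
    rw [h, max_eq_right (by linarith)] at hga
    nlinarith
  refine ⟨t, H₀ + 2 * M * max (a - t) 0, M, min (t - a / 2) (b - t), ht01,
    le_add_of_nonneg_right (by positivity), hM0, lt_min (by linarith) (by linarith), hJt,
    fun s hs => ?_⟩
  rw [abs_le] at hs
  have h1 := hmin' s ⟨by linarith [hs.1, min_le_left (t - a / 2) (b - t)],
    by linarith [hs.2, min_le_right (t - a / 2) (b - t)]⟩
  have h2 : max (a - s) 0 ^ 2 ≤
      max (a - t) 0 ^ 2 - 2 * max (a - t) 0 * (s - t) + (s - t) ^ 2 := by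
    rcases le_total (a - s) 0 with h | h <;> rcases le_total (a - t) 0 with h' | h' <;>
      simp only [max_eq_right, max_eq_left, h, h'] <;> nlinarith
  nlinarith [mul_le_mul_of_nonneg_left h2 hM0]

end Pool.Agent.P.MP_b7645d_gt
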