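import Pool.Agent.P.MP_b7645d_gt.Torus

set_option autoImplicit false

open MeasureTheory ProbabilityTheory Set Real Filter Topology

namespace Pool.Agent.P.MP_b7645d_gt

section aux

variable {ι : Type} [Fintype ι] [DecidableEq ι]

/-- the triangle wave -/
noncomputable def tri (s : ℝ) : ℝ := arccos (cos (π * s)) / π

lemma continuous_tri : Continuous tri := by
  unfold tri
  exact (continuous_arccos.comp (continuous_cos.comp (by fun_prop))).div_const _

lemma tri_neg (s : ℝ) : tri (-s) = tri s := by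
  unfold tri
  rw [mul_neg, cos_neg]

lemma tri_add_two (s : ℝ) : tri (s + 2) = tri s := by
  unfold tri
  rw [show π * (s + 2) = π * s + 2 * π by ring, cos_add_two_pi]

lemma tri_of_mem {s : ℝ} (hs : s ∈ Ioo (0 : ℝ) 1) : tri s = s := by
  unfold tri
  rw [arccos_cos (by have := hs.1; positivity) (by nlinarith [pi_pos, hs.2])]
  field_simp

/-- folding of the whole space onto the closed cube -/
noncomputable def fold (x : ι → ℝ) : ι → ℝ := fun i => tri (x i)

omit [Fintype ι] [DecidableEq ι] in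
lemma continuous_fold : Continuous (fold : (ι → ℝ) → (ι → ℝ)) :=
  continuous_pi fun i => continuous_tri.comp (continuous_apply i)

omit [Fintype ι] [DecidableEq ι] in
lemma fold_of_mem {x : ι → ℝ} (hx : x ∈ Q ι) : fold x = x :=
  funext fun i => tri_of_mem (hx i)

omit [Fintype ι] in
lemma sym_fold (G : (ι → ℝ) → ℝ) : Sym 1 (fun x => G (fold x)) := by
  constructor
  · intro k x
    congr 1
    funext i
    by_cases h : i = k
    · subst h; simp [fold, tri_add_two]
    · simp [fold, h]
  · intro k x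
    have : fold (flip k x) = fold x := by
      funext i
      by_cases h : i = k
      · subst h; simp [fold, flip, tri_neg]
      · simp [fold, flip, h]
    simp [this]

omit [DecidableEq ι] in
lemma integrable_shift {F : (ι → ℝ) → ℝ} (hF : Measurable F) {C : ℝ} (hb : ∀ x, |F x| ≤ C)
    (r : ℝ) (x : ι → ℝ) : Integrable (fun z => F (x + r • z)) (gam ι) :=
  Integrable.of_bound (hF.comp (by fun_prop)).aestronglyMeasurable C
    (Eventually.of_forall fun _ => hb _)

omit [DecidableEq ι] in
lemma abs_heat_sub_le {F G : (ι → ℝ) → ℝ} (hF : Measurable F) (hG : Measurable G) {C : ℝ}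
    (hbF : ∀ x, |F x| ≤ C) (hbG : ∀ x, |G x| ≤ C) (r : ℝ) (x : ι → ℝ) :
    |heat r F x - heat r G x| ≤ heat r (fun y => |F y - G y|) x := by
  unfold heat
  rw [← integral_sub (integrable_shift hF hbF r x) (integrable_shift hG hbG r x)]
  exact abs_integral_le_integral_abs

omit [DecidableEq ι] in
lemma tendsto_heat_of_continuous {G : (ι → ℝ) → ℝ} (hG : Continuous G) {C : ℝ}
    (hb : ∀ x, |G x| ≤ C) (x : ι → ℝ) :
    Tendsto (fun n : ℕ => heat (1 / ((n : ℝ) + 1)) G x) atTop (𝓝 (G x)) := by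
  have h0 : G x = ∫ _z, G x ∂(gam ι) := by simp
  rw [h0]
  unfold heat
  refine tendsto_integral_of_dominated_convergence (fun _ => C)
    (fun n => (hG.comp (by fun_prop)).aestronglyMeasurable) (integrable_const C)
    (fun n => Eventually.of_forall fun z => hb _) (Eventually.of_forall fun z => ?_)
  have h1 : Tendsto (fun n : ℕ => x + (1 / ((n : ℝ) + 1)) • z) atTop (𝓝 (x + (0 : ℝ) • z)) :=
    tendsto_const_nhds.add (tendsto_one_div_add_atTop_nhds_zero_nat.smul_const z)
  rw [zero_smul, add_zero] at h1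
  exact (hG.tendsto x).comp h1

/-- convergence in the mean of the reflected heat flow -/
lemma exists_heat_close {F₀ : (ι → ℝ) → ℝ} (hF₀ : Measurable F₀) (hb : ∀ x, |F₀ x| ≤ 1)
    {δ : ℝ} (hδ : 0 < δ) :
    ∃ r : ℝ, 0 < r ∧
      ∫ x in Q ι, |heat r (fun y => F₀ (fold y)) x - F₀ (fold x)| ≤ δ := by
  have hint : Integrable F₀ (volume.restrict (Q ι)) :=
    integrableOn_Q hF₀.aestronglyMeasurable fun x _ => hb x
  obtain ⟨g, hg, -⟩ := hint.exists_boundedContinuous_integral_sub_le (ε := δ / 3) (by positivity)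
  set F : (ι → ℝ) → ℝ := fun y => F₀ (fold y) with hFdef
  set G : (ι → ℝ) → ℝ := fun y => g (fold y) with hGdef
  set C : ℝ := max 1 ‖g‖ with hC
  have hFm : Measurable F := hF₀.comp continuous_fold.measurable
  have hGc : Continuous G := g.continuous.comp continuous_fold
  have hFb : ∀ x, |F x| ≤ C := fun x => (hb _).trans (le_max_left _ _)
  have hGb : ∀ x, |G x| ≤ C := fun x => (g.norm_coe_le_norm _).trans (le_max_right _ _)
  have hFGm : Measurable fun y => |F y - G y| := (hFm.sub hGc.measurable).abs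
  have hFGb : ∀ y, |(fun y => |F y - G y|) y| ≤ C + C := fun y => by
    simp only [abs_abs]
    exact (abs_sub _ _).trans (add_le_add (hFb y) (hGb y))
  have hFG : ∫ x in Q ι, |F x - G x| ≤ δ / 3 := by
    refine le_of_eq_of_le ?_ hg
    refine setIntegral_congr_fun measurableSet_Q fun x hx => ?_
    simp only [hFdef, hGdef, fold_of_mem hx, Real.norm_eq_abs]
  have hlim : Tendsto (fun n : ℕ => ∫ x in Q ι, |heat (1 / ((n : ℝ) + 1)) G x - G x|) atTop
      (𝓝 (∫ _x in Q ι, (0 : ℝ))) := by
    refine tendsto_integral_of_dominated_convergence (fun _ => C + C)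
      (fun n => ((measurable_heat hGc.measurable _).sub hGc.measurable).abs.aestronglyMeasurable)
      (integrable_const _) (fun n => Eventually.of_forall fun x => ?_)
      (Eventually.of_forall fun x => ?_)
    · rw [Real.norm_eq_abs, abs_abs]
      exact (abs_sub _ _).trans (add_le_add (abs_heat_le hGc.measurable hGb _ _) (hGb x))
    · have := ((tendsto_heat_of_continuous hGc hGb x).sub_const (G x)).abs
      simpa using this
  rw [integral_zero] at hlim
  obtain ⟨n, hn⟩ := (hlim.eventually (gt_mem_nhds (show (0 : ℝ) < δ / 3 by positivity))).exists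
  set r : ℝ := 1 / ((n : ℝ) + 1) with hr
  refine ⟨r, by positivity, ?_⟩
  have hsym : Sym 1 (fun y => |F y - G y|) := sym_fold (fun y => |F₀ y - g y|)
  have h1 : ∫ x in Q ι, heat r (fun y => |F y - G y|) x ≤ δ / 3 := by
    rw [integral_heat hFGm hFGb hsym]; exact hFG
  have i1 : IntegrableOn (heat r (fun y => |F y - G y|)) (Q ι) :=
    integrableOn_Q (measurable_heat hFGm r).aestronglyMeasurable
      fun x _ => abs_heat_le hFGm hFGb r x
  have i2 : IntegrableOn (fun x => |heat r G x - G x|) (Q ι) :=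
    integrableOn_Q ((measurable_heat hGc.measurable _).sub hGc.measurable).abs.aestronglyMeasurable
      (C := C + C) fun x _ => by
        rw [abs_abs]
        exact (abs_sub _ _).trans (add_le_add (abs_heat_le hGc.measurable hGb _ _) (hGb x))
  have i3 : IntegrableOn (fun x => |F x - G x|) (Q ι) :=
    integrableOn_Q hFGm.aestronglyMeasurable fun x _ => hFGb x
  calc ∫ x in Q ι, |heat r F x - F x|
      ≤ ∫ x in Q ι, (heat r (fun y => |F y - G y|) x + |heat r G x - G x| + |F x - G x|) := by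
        refine integral_mono_of_nonneg (Eventually.of_forall fun x => abs_nonneg _)
          ((i1.add i2).add i3) (Eventually.of_forall fun x => ?_)
        have a1 := abs_heat_sub_le hFm hGc.measurable hFb hGb r x
        have a2 : |heat r F x - F x| ≤
            |heat r F x - heat r G x| + |heat r G x - G x| + |F x - G x| := by
          rw [abs_sub_comm (F x) (G x)]
          calc |heat r F x - F x|
              = |(heat r F x - heat r G x) + (heat r G x - G x) + (G x - F x)| := by ring_nf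
            _ ≤ _ := abs_add_three _ _ _
        simp only
        linarith
    _ = (∫ x in Q ι, heat r (fun y => |F y - G y|) x) + (∫ x in Q ι, |heat r G x - G x|) +
          ∫ x in Q ι, |F x - G x| := by
        have i4 : IntegrableOn
            (fun x => heat r (fun y => |F y - G y|) x + |heat r G x - G x|) (Q ι) := i1.add i2
        rw [integral_add i4 i3, integral_add i1 i2]
    _ ≤ δ := by linarith

/-- one dimensional cutoff -/
noncomputable def cut (n : ℕ) (s : ℝ) : ℝ := smoothTransition (n * (s * (1 - s)) - 1)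

lemma cut_nonneg (n : ℕ) (s : ℝ) : 0 ≤ cut n s := smoothTransition.nonneg _

lemma cut_le_one (n : ℕ) (s : ℝ) : cut n s ≤ 1 := smoothTransition.le_one _

lemma contDiff_cut (n : ℕ) : ContDiff ℝ 1 (cut n) := by
  unfold cut
  exact smoothTransition.contDiff.comp (by fun_prop)

lemma hasDerivAt_cut (n : ℕ) (s : ℝ) :
    HasDerivAt (cut n) (deriv smoothTransition (n * (s * (1 - s)) - 1) * (n * (1 - 2 * s))) s := by
  have h1 : HasDerivAt (fun s : ℝ => (n : ℝ) * (s * (1 - s)) - 1) (n * (1 - 2 * s)) s := by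
    have := (((hasDerivAt_id s).mul ((hasDerivAt_id s).const_sub 1)).const_mul (n : ℝ)).sub_const 1
    exact this.congr_deriv (by simp only [id]; ring)
  have h2 : HasDerivAt smoothTransition (deriv smoothTransition (n * (s * (1 - s)) - 1))
      (n * (s * (1 - s)) - 1) :=
    ((smoothTransition.contDiff (n := 1)).differentiable one_ne_zero _).hasDerivAt
  exact h2.comp s h1

lemma deriv_smoothTransition_of_one_lt {y : ℝ} (hy : 1 < y) : deriv smoothTransition y = 0 := by
  have : smoothTransition =ᶠ[𝓝 y] fun _ => (1 : ℝ) := by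
    filter_upwards [lt_mem_nhds hy] with z hz
    exact smoothTransition.one_of_one_le hz.le
  rw [this.deriv_eq]
  simp

lemma exists_cut_bound : ∃ K : ℝ, 0 ≤ K ∧ ∀ (n : ℕ) (s : ℝ), s ∈ Ioo (0 : ℝ) 1 →
    min s (1 - s) * |deriv (cut n) s| ≤ K := by
  have hc : Continuous (deriv smoothTransition) :=
    (smoothTransition.contDiff (n := 1)).continuous_deriv le_rfl
  obtain ⟨K, hK⟩ := (isCompact_Icc (a := (-1 : ℝ)) (b := 1)).exists_bound_of_continuousOn
    hc.continuousOn
  have hK0 : 0 ≤ K := (norm_nonneg _).trans (hK 0 (by norm_num))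
  refine ⟨4 * K, by positivity, fun n s hs => ?_⟩
  rw [(hasDerivAt_cut n s).deriv]
  have hs0 := hs.1
  have hs1 : 0 < 1 - s := by linarith [hs.2]
  have hq : 0 ≤ (n : ℝ) * (s * (1 - s)) := by positivity
  by_cases h : 1 < (n : ℝ) * (s * (1 - s)) - 1
  · rw [deriv_smoothTransition_of_one_lt h]; simp; positivity
  · have h1 := hK ((n : ℝ) * (s * (1 - s)) - 1) ⟨by linarith, by linarith⟩
    rw [Real.norm_eq_abs] at h1
    have h2 : min s (1 - s) ≤ 2 * (s * (1 - s)) := by
      rcases le_total s (1 - s) with h3 | h3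
      · rw [min_eq_left h3]; nlinarith
      · rw [min_eq_right h3]; nlinarith
    have h3 : |1 - 2 * s| ≤ 1 := abs_le.2 ⟨by linarith, by linarith⟩
    have h4 : 0 ≤ min s (1 - s) := le_min hs0.le hs1.le
    rw [abs_mul, abs_mul, abs_of_nonneg (Nat.cast_nonneg n : (0 : ℝ) ≤ n)]
    calc min s (1 - s) * (|deriv smoothTransition (n * (s * (1 - s)) - 1)| * (n * |1 - 2 * s|))
        ≤ 2 * (s * (1 - s)) * (K * (n * 1)) := by gcongr
      _ = 2 * K * (n * (s * (1 - s))) := by ring
      _ ≤ 2 * K * 2 := by gcongr; linarith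
      _ = 4 * K := by ring

/-- the cutoff of the cube -/
noncomputable def cutN (n : ℕ) (x : ι → ℝ) : ℝ := ∏ j, cut n (x j)

omit [DecidableEq ι] in
lemma cutN_nonneg (n : ℕ) (x : ι → ℝ) : 0 ≤ cutN n x :=
  Finset.prod_nonneg fun _ _ => cut_nonneg _ _

omit [DecidableEq ι] in
lemma cutN_le_one (n : ℕ) (x : ι → ℝ) : cutN n x ≤ 1 :=
  Finset.prod_le_one (fun _ _ => cut_nonneg _ _) fun _ _ => cut_le_one _ _

omit [DecidableEq ι] in
lemma contDiff_cutN (n : ℕ) : ContDiff ℝ 1 (cutN n : (ι → ℝ) → ℝ) := by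
  unfold cutN
  exact contDiff_prod fun j _ => (contDiff_cut n).comp (contDiff_apply ℝ ℝ j)

lemma abs_D_cutN_le (n : ℕ) (i : ι) (x : ι → ℝ) : |D (cutN n) i x| ≤ |deriv (cut n) (x i)| := by
  have h : HasFDerivAt (fun x : ι → ℝ => ∏ j ∈ Finset.univ, cut n (x j))
      (∑ j ∈ Finset.univ, (∏ k ∈ Finset.univ.erase j, cut n (x k)) •
        (deriv (cut n) (x j) • (ContinuousLinearMap.proj j : (ι → ℝ) →L[ℝ] ℝ))) x := by
    refine HasFDerivAt.finsetProd (g := fun j (x : ι → ℝ) => cut n (x j)) fun j _ => ?_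
    have h1 : HasDerivAt (cut n) (deriv (cut n) (x j)) (x j) :=
      ((contDiff_cut n).differentiable one_ne_zero _).hasDerivAt
    exact HasDerivAt.comp_hasFDerivAt (h₂ := cut n) (f := fun y : ι → ℝ => y j) x h1
      (hasFDerivAt_apply j x)
  have h2 : D (cutN n) i x = (∏ k ∈ Finset.univ.erase i, cut n (x k)) * deriv (cut n) (x i) := by
    unfold D cutN
    rw [h.fderiv, sum_apply, Finset.sum_eq_single i]
    · simp
    · intro j _ hj; simp [hj]
    · simp
  rw [h2, abs_mul]
  refine mul_le_of_le_one_left (abs_nonneg _) ?_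
  rw [abs_of_nonneg (Finset.prod_nonneg fun _ _ => cut_nonneg _ _)]
  exact Finset.prod_le_one (fun _ _ => cut_nonneg _ _) fun _ _ => cut_le_one _ _

/-- the compact set carrying the cutoff -/
def cutK (ι : Type) (n : ℕ) : Set (ι → ℝ) := {x | ∀ j, 1 ≤ (n : ℝ) * (x j * (1 - x j))}

omit [Fintype ι] [DecidableEq ι] in
lemma cutK_subset (n : ℕ) : cutK ι n ⊆ Q ι := by
  intro x hx j
  have h := hx j
  have hn : (0 : ℝ) ≤ n := Nat.cast_nonneg n
  have hpos : 0 < x j * (1 - x j) := by
    by_contra hc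
    push Not at hc
    nlinarith
  constructor <;> nlinarith

omit [Fintype ι] [DecidableEq ι] in
lemma isClosed_cutK (n : ℕ) : IsClosed (cutK ι n) := by
  have : cutK ι n = ⋂ j, {x : ι → ℝ | 1 ≤ (n : ℝ) * (x j * (1 - x j))} := by
    ext x; simp [cutK]
  rw [this]
  exact isClosed_iInter fun j => isClosed_le continuous_const (by fun_prop)

omit [Fintype ι] [DecidableEq ι] in
lemma isCompact_cutK (n : ℕ) : IsCompact (cutK ι n) := by
  refine (isCompact_univ_pi fun _ : ι => isCompact_Icc (a := (0 : ℝ)) (b := 1)).of_isClosed_subset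
    (isClosed_cutK n) fun x hx j _ => ?_
  exact Ioo_subset_Icc_self (cutK_subset n hx j)

omit [DecidableEq ι] in
lemma cutN_eq_zero {n : ℕ} {x : ι → ℝ} (hx : x ∉ cutK ι n) : cutN n x = 0 := by
  simp only [cutK, mem_ofPred_eq, not_forall, not_le] at hx
  obtain ⟨j, hj⟩ := hx
  exact Finset.prod_eq_zero (Finset.mem_univ j) (smoothTransition.zero_of_nonpos (by linarith))

omit [DecidableEq ι] in
lemma eventually_cutN_eq_one {x : ι → ℝ} (hx : x ∈ Q ι) :
    ∀ᶠ n : ℕ in atTop, cutN n =ᶠ[𝓝 x] fun _ => (1 : ℝ) := by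
  have h1 : ∀ᶠ n : ℕ in atTop, ∀ j, 2 < (n : ℝ) * (x j * (1 - x j)) := by
    refine eventually_all.2 fun j => ?_
    have hpos : 0 < x j * (1 - x j) := mul_pos (hx j).1 (by linarith [(hx j).2])
    exact (tendsto_natCast_atTop_atTop.atTop_mul_const hpos).eventually_gt_atTop 2
  filter_upwards [h1] with n hn
  have h2 : ∀ᶠ y in 𝓝 x, ∀ j, 2 < (n : ℝ) * (y j * (1 - y j)) := by
    refine eventually_all.2 fun j => ?_
    have hc : Continuous fun y : ι → ℝ => (n : ℝ) * (y j * (1 - y j)) := by fun_prop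
    exact hc.continuousAt.eventually (lt_mem_nhds (hn j))
  filter_upwards [h2] with y hy
  exact Finset.prod_eq_one fun j _ => smoothTransition.one_of_one_le (by linarith [hy j])

lemma D_mul {a b : (ι → ℝ) → ℝ} {x : ι → ℝ} (ha : DifferentiableAt ℝ a x)
    (hb : DifferentiableAt ℝ b x) (i : ι) :
    D (fun y => a y * b y) i x = a x * D b i x + b x * D a i x := by
  unfold D
  rw [fderiv_fun_mul ha hb]
  simp

end aux

/-- the perimeter dominates the flux of tangential fields -/
lemma integral_div_le {N : ℕ} {E : Set (Fin N → ℝ)} (hE : MeasurableSet E) (hEQ : E ⊆ Q (Fin N))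
    {p : ℝ} (hp : 0 ≤ p) (hP : Per E ≤ ENNReal.ofReal p) {ζ : Fin N → (Fin N → ℝ) → ℝ}
    (hζ : ∀ i, ContDiff ℝ 1 (ζ i)) (hζ1 : ∀ x, ∑ i, ζ i x ^ 2 ≤ 1) {L : ℝ} (hL : 0 ≤ L)
    (hD : ∀ i x, |D (ζ i) i x| ≤ L) (h0 : ∀ i, ∀ x ∈ Q (Fin N), |ζ i x| ≤ L * min (x i) (1 - x i)) :
    ∫ x in E, ∑ i, D (ζ i) i x ≤ p := by
  obtain ⟨K, hK0, hK⟩ := exists_cut_bound
  have hfin : IsFiniteMeasure (volume.restrict E) :=
    ⟨by
      rw [Measure.restrict_apply_univ]
      exact (measure_mono hEQ).trans_lt (by rw [volume_Q]; exact ENNReal.one_lt_top)⟩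
  have hdiff : ∀ i, Differentiable ℝ (ζ i) := fun i => (hζ i).differentiable one_ne_zero
  have hdc : ∀ n : ℕ, Differentiable ℝ (cutN n : (Fin N → ℝ) → ℝ) :=
    fun n => (contDiff_cutN n).differentiable one_ne_zero
  have hle : ∀ n : ℕ, ∫ x in E, ∑ i, D (fun y => cutN n y * ζ i y) i x ≤ p := by
    intro n
    set φ : (Fin N → ℝ) → (Fin N → ℝ) := fun y i => cutN n y * ζ i y with hφ
    have hφc : ContDiff ℝ 1 φ := contDiff_pi.2 fun i => (contDiff_cutN n).mul (hζ i)
    have hsupp : tsupport φ ⊆ cutK (Fin N) n := by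
      refine closure_minimal (fun y hy => ?_) (isClosed_cutK n)
      by_contra hc
      exact hy (funext fun i => by simp [hφ, cutN_eq_zero hc])
    have hcs : HasCompactSupport φ :=
      (isCompact_cutK n).of_isClosed_subset (isClosed_tsupport φ) hsupp
    have hnorm : ∀ x, ∑ i, (φ x i) ^ 2 ≤ 1 := fun x => by
      have : ∑ i, (φ x i) ^ 2 = cutN n x ^ 2 * ∑ i, ζ i x ^ 2 := by
        rw [Finset.mul_sum]; exact Finset.sum_congr rfl fun i _ => by simp [hφ, mul_pow]
      rw [this]
      have h1 : cutN n x ^ 2 ≤ 1 := pow_le_one₀ (cutN_nonneg n x) (cutN_le_one n x)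
      have h2 : 0 ≤ ∑ i, ζ i x ^ 2 := Finset.sum_nonneg fun _ _ => sq_nonneg _
      nlinarith [hζ1 x, sq_nonneg (cutN n x)]
    have h1 : ENNReal.ofReal (∫ x in E, ∑ i, fderiv ℝ φ x (Pi.single i 1) i) ≤ Per E := by
      unfold Per
      exact le_iSup_of_le φ (le_iSup_of_le hφc (le_iSup_of_le hcs
        (le_iSup_of_le (hsupp.trans (cutK_subset n)) (le_iSup_of_le hnorm le_rfl))))
    have h2 := (ENNReal.ofReal_le_ofReal_iff hp).1 (h1.trans hP)
    refine le_of_eq_of_le ?_ h2
    refine integral_congr_ae (Eventually.of_forall fun x => Finset.sum_congr rfl fun i _ => ?_)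
    unfold D
    rw [show (fun y => cutN n y * ζ i y) = fun y => φ y i from rfl,
      fderiv_apply (hφc.differentiable one_ne_zero x) i]
    rfl
  refine le_of_tendsto' (tendsto_integral_of_dominated_convergence
    (fun _ => ∑ _i : Fin N, (L + L * K))
    (fun n => (Finset.measurable_sum _ fun i _ => measurable_D _ i).aestronglyMeasurable)
    (integrable_const _) (fun n => ?_) ?_) hle
  · refine (ae_restrict_iff' hE).2 (Eventually.of_forall fun x hx => ?_)
    rw [Real.norm_eq_abs]
    refine (Finset.abs_sum_le_sum_abs _ _).trans (Finset.sum_le_sum fun i _ => ?_)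
    rw [D_mul (hdc n x) (hdiff i x)]
    refine (abs_add_le _ _).trans (add_le_add ?_ ?_)
    · rw [abs_mul, abs_of_nonneg (cutN_nonneg n x)]
      exact (mul_le_of_le_one_left (abs_nonneg _) (cutN_le_one n x)).trans (hD i x)
    · rw [abs_mul]
      have hm : 0 ≤ min (x i) (1 - x i) := le_min (hEQ hx i).1.le (by linarith [(hEQ hx i).2])
      calc |ζ i x| * |D (cutN n) i x|
          ≤ (L * min (x i) (1 - x i)) * |deriv (cut n) (x i)| :=
            mul_le_mul (h0 i x (hEQ hx)) (abs_D_cutN_le n i x) (abs_nonneg _) (by positivity)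
        _ = L * (min (x i) (1 - x i) * |deriv (cut n) (x i)|) := by ring
        _ ≤ L * K := mul_le_mul_of_nonneg_left (hK n _ (hEQ hx i)) hL
  · refine (ae_restrict_iff' hE).2 (Eventually.of_forall fun x hx => ?_)
    refine tendsto_const_nhds.congr' ?_
    filter_upwards [eventually_cutN_eq_one (hEQ hx)] with n hn
    refine Finset.sum_congr rfl fun i _ => ?_
    unfold D
    have : (fun y => cutN n y * ζ i y) =ᶠ[𝓝 x] ζ i := by
      filter_upwards [hn] with y hy
      simp [hy]
    rw [this.fderiv_eq]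

section aux2

variable {ι : Type} [Fintype ι] [DecidableEq ι]

lemma abs_D_heat_le {F : (ι → ℝ) → ℝ} (hF : Measurable F) (hb : ∀ x, |F x| ≤ 1) {r : ℝ}
    (hr : 0 < r) (j : ι) (x : ι → ℝ) : |D (heat r F) j x| ≤ 1 / r := by
  have h1 := bessel hF hb hr x
  have h2 : heat r (fun y => F y ^ 2) x ≤ 1 :=
    (heat_mem_Icc (hF.pow_const 2) (a := 0) (b := 1) (fun y => ⟨sq_nonneg _, by
      rw [← sq_abs]; exact pow_le_one₀ (abs_nonneg _) (hb y)⟩) r x).2
  have h3 : D (heat r F) j x ^ 2 ≤ ∑ j, D (heat r F) j x ^ 2 :=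
    Finset.single_le_sum (f := fun j => D (heat r F) j x ^ 2) (fun _ _ => sq_nonneg _)
      (Finset.mem_univ j)
  have h4 : (r * D (heat r F) j x) ^ 2 ≤ 1 := by
    rw [mul_pow]
    nlinarith [sq_nonneg (heat r F x), mul_le_mul_of_nonneg_left h3 (sq_nonneg r)]
  have h5 : |r * D (heat r F) j x| ≤ 1 := by
    rwa [← sq_le_one_iff_abs_le_one]
  rw [abs_mul, abs_of_pos hr] at h5
  rw [le_div_iff₀ hr]
  linarith

lemma sum_heat_sq_le {ξ : ι → (ι → ℝ) → ℝ} (hξ : ∀ i, Measurable (ξ i))
    (hb : ∀ i x, |ξ i x| ≤ 1) (h1 : ∀ x, ∑ i, ξ i x ^ 2 ≤ 1) {r : ℝ} (hr : 0 < r) (x : ι → ℝ) :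
    ∑ i, heat r (ξ i) x ^ 2 ≤ 1 := by
  have hsq : ∀ i y, |ξ i y ^ 2| ≤ 1 := fun i y => by
    rw [abs_pow]; exact pow_le_one₀ (abs_nonneg _) (hb i y)
  calc ∑ i, heat r (ξ i) x ^ 2 ≤ ∑ i, heat r (fun y => ξ i y ^ 2) x :=
        Finset.sum_le_sum fun i _ => by
          have h2 := bessel (hξ i) (hb i) hr x
          have h3 : 0 ≤ r ^ 2 * ∑ j, D (heat r (ξ i)) j x ^ 2 :=
            mul_nonneg (sq_nonneg _) (Finset.sum_nonneg fun _ _ => sq_nonneg _)
          linarith
    _ = heat r (fun y => ∑ i, ξ i y ^ 2) x := by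
        unfold heat
        rw [integral_finsetSum]
        exact fun i _ => integrable_shift ((hξ i).pow_const 2) (hsq i) r x
    _ ≤ 1 := (heat_mem_Icc (Finset.measurable_sum _ fun i _ => (hξ i).pow_const 2) (a := 0)
        (b := 1) (fun y => ⟨Finset.sum_nonneg fun _ _ => sq_nonneg _, h1 y⟩) r x).2

lemma exists_Iso_le {b : ℝ} (hb : 0 < b) :
    ∃ L : ℝ, 0 < L ∧ ∀ s e : ℝ, e = 0 ∨ e = 1 → Iso s ≤ b + L * |s - e| := by
  obtain ⟨δ₀, hδ₀, h0⟩ := Metric.continuousAt_iff.1 (continuous_Iso.continuousAt (x := 0)) b hb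
  obtain ⟨δ₁, hδ₁, h1⟩ := Metric.continuousAt_iff.1 (continuous_Iso.continuousAt (x := 1)) b hb
  have hδ : 0 < min δ₀ δ₁ := lt_min hδ₀ hδ₁
  refine ⟨1 / min δ₀ δ₁, by positivity, fun s e he => ?_⟩
  have hnn : 0 ≤ 1 / min δ₀ δ₁ * |s - e| := by positivity
  by_cases h : |s - e| < min δ₀ δ₁
  · rcases he with rfl | rfl
    · have := h0 (x := s) (by rw [Real.dist_eq]; exact h.trans_le (min_le_left _ _))
      rw [Real.dist_eq, Iso_zero, sub_zero] at this
      linarith [le_abs_self (Iso s)]
    · have := h1 (x := s) (by rw [Real.dist_eq]; exact h.trans_le (min_le_right _ _))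
      rw [Real.dist_eq, Iso_one, sub_zero] at this
      linarith [le_abs_self (Iso s)]
  · push Not at h
    have : 1 ≤ 1 / min δ₀ δ₁ * |s - e| := by
      rw [one_div, inv_mul_eq_div, le_div_iff₀ hδ]; linarith
    linarith [Iso_le_half s]

end aux2

/-- the total variation of the heat flow is bounded by the perimeter -/
lemma integral_gn_heat_le {N : ℕ} {E : Set (Fin N → ℝ)} (hE : MeasurableSet E)
    (hEQ : E ⊆ Q (Fin N)) {p : ℝ} (hp : 0 ≤ p) (hP : Per E ≤ ENNReal.ofReal p) {r : ℝ}
    (hr : 0 < r) :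
    ∫ x in Q (Fin N), gn (heat r (fun y => E.indicator (fun _ => (1 : ℝ)) (fold y))) x ≤ p := by
  set F : (Fin N → ℝ) → ℝ := fun y => E.indicator (fun _ => (1 : ℝ)) (fold y) with hFdef
  have hFm : Measurable F := (measurable_const.indicator hE).comp continuous_fold.measurable
  have hFb : ∀ x, |F x| ≤ 1 := fun x => by
    by_cases h : fold x ∈ E <;> simp [hFdef, h]
  have hFs : Sym 1 F := sym_fold _
  set u := heat r F with hu
  have huc : ContDiff ℝ 1 u := contDiff_heat hFm hFb hr
  have hud : Differentiable ℝ u := huc.differentiable one_ne_zero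
  have hus : Sym 1 u := hFs.heat hFm r
  set ξ : Fin N → (Fin N → ℝ) → ℝ := fun i x => -(D u i x / gn u x) with hξ
  have hξm : ∀ i, Measurable (ξ i) := fun i => ((measurable_D u i).div (measurable_gn u)).neg
  have hξb : ∀ i x, |ξ i x| ≤ 1 := fun i x => by
    simp only [hξ, abs_neg, abs_div, abs_of_nonneg (gn_nonneg u x)]
    exact div_le_one_of_le₀ (abs_D_le_gn u i x) (gn_nonneg u x)
  have hξ1 : ∀ x, ∑ i, ξ i x ^ 2 ≤ 1 := fun x => by
    simp only [hξ, neg_sq, div_pow]
    rw [← Finset.sum_div, ← gn_sq]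
    exact div_self_le_one _
  have hξs : ∀ i, Sym (sgnAt i) (ξ i) := fun i => by
    have s1 := hus.D hud i
    have s2 := hus.gn hud
    constructor
    · intro k x; simp only [hξ, s1.per, s2.per]
    · intro k x; simp only [hξ, s1.par, s2.par, Pi.one_apply, one_mul]; ring
  have hgn : ∀ x, gn u x = -∑ i, ξ i x * D u i x := fun x => by
    have : ∑ i, ξ i x * D u i x = -(gn u x ^ 2 / gn u x) := by
      rw [gn_sq, Finset.sum_div, ← Finset.sum_neg_distrib]
      exact Finset.sum_congr rfl fun i _ => by simp only [hξ]; ring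
    rw [this, neg_neg]
    by_cases h : gn u x = 0
    · simp [h]
    · field_simp
  have hDu : ∀ i x, |D u i x| ≤ 1 / r := fun i x => abs_D_heat_le hFm hFb hr i x
  have hDζ : ∀ i j x, |D (heat r (ξ i)) j x| ≤ 1 / r :=
    fun i j x => abs_D_heat_le (hξm i) (hξb i) hr j x
  have hmain := integral_div_le hE hEQ hp hP (ζ := fun i => heat r (ξ i))
    (fun i => contDiff_heat (hξm i) (hξb i) hr) (sum_heat_sq_le hξm hξb hξ1 hr)
    (L := 1 / r) (by positivity) (fun i x => hDζ i i x)
    (fun i x hx => ((hξs i).heat (hξm i) r).abs_le_dist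
      ((contDiff_heat (hξm i) (hξb i) hr).differentiable one_ne_zero) (hDζ i i) hx)
  refine le_of_eq_of_le ?_ hmain
  have i1 : ∀ i, IntegrableOn (fun x => ξ i x * D u i x) (Q (Fin N)) := fun i =>
    integrableOn_Q ((hξm i).mul (measurable_D u i)).aestronglyMeasurable (C := 1 * (1 / r))
      fun x _ => by
        rw [abs_mul]; exact mul_le_mul (hξb i x) (hDu i x) (abs_nonneg _) zero_le_one
  have i2 : ∀ i, IntegrableOn (fun x => D (heat r (ξ i)) i x * F x) (Q (Fin N)) := fun i =>
    integrableOn_Q ((measurable_D _ i).mul hFm).aestronglyMeasurable (C := (1 / r) * 1)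
      fun x _ => by
        rw [abs_mul]; exact mul_le_mul (hDζ i i x) (hFb x) (abs_nonneg _) (by positivity)
  calc ∫ x in Q (Fin N), gn u x = -∑ i, ∫ x in Q (Fin N), ξ i x * D u i x := by
        rw [← integral_finsetSum _ fun i _ => i1 i, ← integral_neg]
        exact integral_congr_ae (Eventually.of_forall hgn)
    _ = ∑ i, ∫ x in Q (Fin N), D (heat r (ξ i)) i x * F x := by
        rw [← Finset.sum_neg_distrib]
        refine Finset.sum_congr rfl fun i _ => ?_
        rw [hu, D_heat_adjoint (hξm i) hFm (hξb i) hFb (hξs i) hFs hr, neg_neg]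
    _ = ∫ x in Q (Fin N), E.indicator (fun x => ∑ i, D (heat r (ξ i)) i x) x := by
        rw [← integral_finsetSum _ fun i _ => i2 i]
        refine setIntegral_congr_fun measurableSet_Q fun x hx => ?_
        by_cases h : x ∈ E <;> simp [hFdef, fold_of_mem hx, h]
    _ = ∫ x in E, ∑ i, D (heat r (ξ i)) i x := by
        rw [setIntegral_indicator hE, inter_eq_right.2 hEQ]

/-- smoothing a set of finite perimeter by the reflected heat flow -/
theorem exists_smooth {N : ℕ} {E : Set (Fin N → ℝ)} (hE : MeasurableSet E) (hEQ : E ⊆ Q (Fin N))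
    {t p β : ℝ} (ht : t ∈ Ioo (0 : ℝ) 1) (hvol : volume E = ENNReal.ofReal t) (hp : 0 ≤ p)
    (hP : Per E ≤ ENNReal.ofReal p) (hβ : 0 < β) :
    ∃ f : (Fin N → ℝ) → ℝ, GAdm f ∧ Sym 1 f ∧ ∫ x in Q (Fin N), f x = t ∧
      ∫ x in Q (Fin N), gn f x ≤ p ∧ ∫ x in Q (Fin N), Iso (f x) ≤ β := by
  obtain ⟨L, hL, hIso⟩ := exists_Iso_le (b := β / 3) (by positivity)
  have h0m : Measurable (E.indicator (fun _ => (1 : ℝ))) := measurable_const.indicator hE
  have h0b : ∀ x, |E.indicator (fun _ => (1 : ℝ)) x| ≤ 1 := fun x => by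
    by_cases h : x ∈ E <;> simp [h]
  obtain ⟨r, hr, hclose⟩ := exists_heat_close h0m h0b (δ := β / 3 / L) (by positivity)
  have hgn := integral_gn_heat_le hE hEQ hp hP hr
  set F : (Fin N → ℝ) → ℝ := fun y => E.indicator (fun _ => (1 : ℝ)) (fold y) with hFdef
  have hFm : Measurable F := h0m.comp continuous_fold.measurable
  have hFb : ∀ x, |F x| ≤ 1 := fun x => h0b _
  have hF01 : ∀ x, F x = 0 ∨ F x = 1 := fun x => by
    by_cases h : fold x ∈ E <;> simp [hFdef, h]
  have hFI : ∀ x, F x ∈ Icc (0 : ℝ) 1 := fun x => by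
    rcases hF01 x with h | h <;> simp [h]
  have hFs : Sym 1 F := sym_fold _
  set u := heat r F with hu
  have huc : ContDiff ℝ 1 u := contDiff_heat hFm hFb hr
  have hud : Differentiable ℝ u := huc.differentiable one_ne_zero
  have hus : Sym 1 u := hFs.heat hFm r
  have hum : Measurable u := huc.continuous.measurable
  have huI : ∀ x, u x ∈ Icc (0 : ℝ) 1 := heat_mem_Icc hFm hFI r
  have hub : ∀ x, |u x| ≤ 1 := abs_heat_le hFm hFb r
  have hDu : ∀ i x, |D u i x| ≤ 1 / r := fun i x => abs_D_heat_le hFm hFb hr i x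
  have hut : ∫ x in Q (Fin N), u x = t := by
    rw [hu, integral_heat hFm hFb hFs]
    calc ∫ x in Q (Fin N), F x = ∫ x in Q (Fin N), E.indicator (fun _ => (1 : ℝ)) x :=
          setIntegral_congr_fun measurableSet_Q fun x hx => by simp only [hFdef, fold_of_mem hx]
      _ = t := by
          rw [setIntegral_indicator hE, inter_eq_right.2 hEQ]
          simp [Measure.real, hvol, ht.1.le]
  set k : ℝ := min (1 / 2) (β / 3 / L) with hk
  have hk0 : 0 < k := lt_min (by norm_num) (by positivity)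
  have hk1 : k ≤ 1 / 2 := min_le_left _ _
  have hk2 : k ≤ β / 3 / L := min_le_right _ _
  set f : (Fin N → ℝ) → ℝ := fun x => (1 - k) * u x + k * t with hf
  have hfd : Differentiable ℝ f := (hud.const_mul _).add_const _
  have hDf : ∀ i x, D f i x = (1 - k) * D u i x := fun i x => by
    unfold D
    rw [hf, fderiv_add_const, fderiv_const_mul (hud x)]
    simp
  have hgnf : ∀ x, gn f x ≤ gn u x := fun x => by
    unfold gn
    refine Real.sqrt_le_sqrt (Finset.sum_le_sum fun i _ => ?_)
    rw [hDf, mul_pow]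
    exact mul_le_of_le_one_left (sq_nonneg _) (pow_le_one₀ (by linarith) (by linarith))
  have ht0 := ht.1
  have ht1 := ht.2
  have iu : IntegrableOn u (Q (Fin N)) := integrableOn_Q hum.aestronglyMeasurable fun x _ => hub x
  refine ⟨f, ⟨hfd, ⟨k * min t (1 - t), mul_pos hk0 (lt_min ht0 (by linarith)), fun x => ?_⟩,
    ⟨1 / r, fun x i => ?_⟩⟩, ⟨fun j x => ?_, fun j x => ?_⟩, ?_, ?_, ?_⟩
  · have a1 := min_le_left t (1 - t)
    have a2 := min_le_right t (1 - t)
    obtain ⟨b1, b2⟩ := huI x
    simp only [hf]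
    constructor <;> nlinarith
  · rw [hDf, abs_mul, abs_of_nonneg (by linarith : (0 : ℝ) ≤ 1 - k)]
    exact (mul_le_of_le_one_left (abs_nonneg _) (by linarith)).trans (hDu i x)
  · simp only [hf, hus.per]
  · simp only [hf, hus.par, Pi.one_apply, one_mul]
  · simp only [hf]
    rw [integral_add (iu.const_mul _) (integrable_const _), integral_const_mul, hut]
    simp; ring
  · refine le_trans (integral_mono_of_nonneg (Eventually.of_forall fun x => gn_nonneg _ _) ?_
      (Eventually.of_forall hgnf)) hgn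
    exact integrableOn_Q (measurable_gn u).aestronglyMeasurable
      (C := Fintype.card (Fin N) * |1 / r|) fun x _ => by
        rw [abs_of_nonneg (gn_nonneg _ _)]
        exact gn_le_of_abs_D_le fun i => hDu i x
  · have i1 : IntegrableOn (fun x => |u x - F x|) (Q (Fin N)) :=
      integrableOn_Q (hum.sub hFm).abs.aestronglyMeasurable (C := 1 + 1) fun x _ => by
        rw [abs_abs]; exact (abs_sub _ _).trans (add_le_add (hub x) (hFb x))
    calc ∫ x in Q (Fin N), Iso (f x)
        ≤ ∫ x in Q (Fin N), ((β / 3 + L * k) + L * |u x - F x|) := by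
          refine integral_mono_of_nonneg (Eventually.of_forall fun x => Iso_nonneg _)
            ((integrable_const _).add (i1.const_mul L)) (Eventually.of_forall fun x => ?_)
          have a1 := hIso (f x) (F x) (hF01 x)
          have a2 : |f x - F x| ≤ k + |u x - F x| := by
            have : f x - F x = k * (t - u x) + (u x - F x) := by simp only [hf]; ring
            rw [this]
            refine (abs_add_le _ _).trans (add_le_add ?_ le_rfl)
            rw [abs_mul, abs_of_pos hk0]
            refine mul_le_of_le_one_right hk0.le (abs_le.2 ⟨?_, ?_⟩) <;>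
              linarith [(huI x).1, (huI x).2]
          simp only
          nlinarith
      _ = (β / 3 + L * k) + L * ∫ x in Q (Fin N), |u x - F x| := by
          rw [integral_add (integrable_const _) (i1.const_mul L), integral_const_mul]
          simp
      _ ≤ β := by
          have a1 : L * k ≤ β / 3 := by
            rw [le_div_iff₀ hL] at hk2; linarith
          have a2 : L * ∫ x in Q (Fin N), |u x - F x| ≤ β / 3 := by
            rw [le_div_iff₀ hL] at hclose; linarith
          linarith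

end Pool.Agent.P.MP_b7645d_gt
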