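import Pool.Agent.P.MP_b7645d_gt.Smooth
import Pool.Agent.P.MP_b7645d_gt.Jfun

set_option autoImplicit false

open MeasureTheory ProbabilityTheory Set Real Filter Topology

namespace Pool.Agent.P.MP_b7645d_gt

variable {ι : Type} [Fintype ι] [DecidableEq ι]

lemma GAdm.abs_le_one {f : (ι → ℝ) → ℝ} (hf : GAdm f) (x : ι → ℝ) : |f x| ≤ 1 := by
  obtain ⟨κ, hκ, h⟩ := hf.range
  exact abs_le.2 ⟨by linarith [(h x).1], by linarith [(h x).2]⟩

lemma GAdm.exists_bound {f : (ι → ℝ) → ℝ} (hf : GAdm f) :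
    ∃ C, 1 ≤ C ∧ (∀ x, |f x| ≤ C) ∧ (∀ x i, |D f i x| ≤ C) ∧ ∀ x, |gn f x| ≤ C := by
  obtain ⟨C, hC⟩ := hf.grad
  refine ⟨max 1 (Fintype.card ι * |C|), le_max_left _ _,
    fun x => (hf.abs_le_one x).trans (le_max_left _ _), fun x i => ?_, fun x => ?_⟩
  · exact (abs_D_le_gn f i x).trans ((gn_le_of_abs_D_le (hC x)).trans (le_max_right _ _))
  · rw [abs_of_nonneg (gn_nonneg _ _)]
    exact (gn_le_of_abs_D_le (hC x)).trans (le_max_right _ _)

lemma GAdm.heat {f : (ι → ℝ) → ℝ} (hf : GAdm f) {r : ℝ} (hr : 0 < r) : GAdm (heat r f) := by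
  obtain ⟨C, -, h1, h2, -⟩ := hf.exists_bound
  have hm := hf.diff.continuous.measurable
  obtain ⟨κ, hκ, h⟩ := hf.range
  exact ⟨(contDiff_heat hm h1 hr).differentiable one_ne_zero, ⟨κ, hκ, heat_mem_Icc hm h r⟩,
    ⟨1 / r, fun x i => abs_D_heat_le hm hf.abs_le_one hr i x⟩⟩

lemma sqrt_interp {a g r : ℝ} (ha : 0 ≤ a) (hg : 0 ≤ g) (hr : 0 < r) (hr' : π * r < 1)
    (h : r * g ≤ a) : √((π * a) ^ 2 + g ^ 2) ≤ π * a + (1 - π * r + (π * r) ^ 2 / 2) * g := by
  set s := π * r with hs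
  have hs0 : 0 < s := by positivity
  have hc : 0 ≤ 1 - s + s ^ 2 / 2 := by nlinarith
  refine Real.sqrt_le_iff.2 ⟨by positivity, ?_⟩
  have h1 : s * g ≤ π * a := by rw [hs, mul_assoc]; gcongr
  have h2 : s * g * ((1 - s + s ^ 2 / 2) * g) ≤ π * a * ((1 - s + s ^ 2 / 2) * g) := by gcongr
  nlinarith [mul_nonneg (sq_nonneg g) (sq_nonneg (s ^ 2))]

/-- the heat flow does not decrease the total variation of an almost minimiser by much -/
lemma stepA {f : (ι → ℝ) → ℝ} (hf : GAdm f) (hs : Sym 1 f) {P β r : ℝ} (hr : 0 < r)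
    (hr' : π * r < 1) (hP : P ≤ Bob (heat r f)) (hV : ∫ x in Q ι, gn f x ≤ P + β)
    (hI : ∫ x in Q ι, Iso (f x) ≤ β) (hβ : 0 ≤ β) :
    (∫ x in Q ι, gn f x) - ∫ x in Q ι, gn (heat r f) x ≤
      ((π * r) ^ 2 / 2 * (P + β) + (π + 1) * β) / (1 - π * r) := by
  obtain ⟨C, hC, h1, h2, h3⟩ := hf.exists_bound
  have hm := hf.diff.continuous.measurable
  have hu := (hf.heat hr).adm
  obtain ⟨κ, hκ, hκ'⟩ := hf.range
  set V := ∫ x in Q ι, gn f x with hVdef
  set W := ∫ x in Q ι, gn (heat r f) x with hW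
  have hV0 : 0 ≤ V := integral_nonneg fun x => gn_nonneg _ _
  have hW0 : 0 ≤ W := integral_nonneg fun x => gn_nonneg _ _
  have e1 : Bob (heat r f) ≤ π * (∫ x in Q ι, Iso (heat r f x)) +
      (1 - π * r + (π * r) ^ 2 / 2) * W := by
    rw [hW, ← integral_const_mul, ← integral_const_mul, ← integral_add
      (hu.integrableOn_Iso.const_mul _) (hu.integrableOn_gn.const_mul _)]
    exact integral_mono hu.integrableOn_bob
      ((hu.integrableOn_Iso.const_mul _).add (hu.integrableOn_gn.const_mul _)) fun x =>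
        sqrt_interp (Iso_nonneg _) (gn_nonneg _ _) hr hr' (gn_heat_le hm hκ hκ' hr x)
  have hIm : Measurable fun y => Iso (f y) := continuous_Iso.measurable.comp hm
  have hIb : ∀ y, |Iso (f y)| ≤ 1 / 2 := fun y => by
    rw [abs_of_nonneg (Iso_nonneg _)]; exact Iso_le_half _
  have hIs : Sym 1 fun y => Iso (f y) :=
    ⟨fun k x => by simp only [hs.per], fun k x => by simp only [hs.par, Pi.one_apply, one_mul]⟩
  have i1 : IntegrableOn (heat r fun y => Iso (f y)) (Q ι) :=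
    integrableOn_Q (measurable_heat hIm r).aestronglyMeasurable fun x _ => abs_heat_le hIm hIb r x
  have i2 : IntegrableOn (heat r (gn f)) (Q ι) :=
    integrableOn_Q (measurable_heat (measurable_gn f) r).aestronglyMeasurable fun x _ =>
      abs_heat_le (measurable_gn f) h3 r x
  have e2 : ∫ x in Q ι, Iso (heat r f x) ≤ β + r * V := by
    calc _ ≤ ∫ x in Q ι, (heat r (fun y => Iso (f y)) x + r * heat r (gn f) x) :=
          integral_mono hu.integrableOn_Iso (i1.add (i2.const_mul r)) fun x => iso_heat_le hf hr x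
      _ = (∫ x in Q ι, Iso (f x)) + r * V := by
          rw [integral_add i1 (i2.const_mul r), integral_const_mul, integral_heat hIm hIb hIs,
            integral_heat (measurable_gn f) h3 (hs.gn hf.diff)]
      _ ≤ _ := by linarith
  have e3 : π * (∫ x in Q ι, Iso (heat r f x)) ≤ π * (β + r * V) := by gcongr
  rw [le_div_iff₀ (by linarith)]
  have hπ := pi_pos
  rcases le_total V W with h | h
  · have : (V - W) * (1 - π * r) ≤ 0 := mul_nonpos_of_nonpos_of_nonneg (by linarith) (by linarith)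
    have h4 : 0 ≤ (π * r) ^ 2 / 2 * (P + β) := mul_nonneg (by positivity) (by linarith)
    nlinarith [mul_nonneg hπ.le hβ]
  · have h4 : (π * r) ^ 2 / 2 * W ≤ (π * r) ^ 2 / 2 * (P + β) := by gcongr; linarith
    nlinarith

lemma unit_ineq {g : ℝ} {d z : ι → ℝ} {S : ℝ} (hg : 0 ≤ g) (hd : g ^ 2 = ∑ j, d j ^ 2)
    (hS : ∑ j, z j ^ 2 + S ≤ 1) :
    g * (S / 2 + (∑ j, (d j / g - z j) ^ 2) / 2) ≤ g - ∑ j, z j * d j := by
  rcases hg.eq_or_lt with h | h
  · have h0 : ∀ j, d j = 0 := fun j => by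
      have := (Finset.sum_eq_zero_iff_of_nonneg fun j _ => sq_nonneg (d j)).1
        (by rw [← hd, ← h]; simp) j (Finset.mem_univ j)
      simpa using this
    simp [← h, h0]
  obtain ⟨v, rfl⟩ : ∃ v : ι → ℝ, d = fun j => g * v j :=
    ⟨fun j => d j / g, funext fun j => by field_simp⟩
  have hv : ∑ j, v j ^ 2 = 1 := by
    simp only [mul_pow, ← Finset.mul_sum] at hd
    field_simp at hd
    linarith
  have h1 : ∑ j, (g * v j / g - z j) ^ 2 = 1 - 2 * ∑ j, z j * v j + ∑ j, z j ^ 2 := by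
    rw [← hv, Finset.mul_sum, ← Finset.sum_sub_distrib, ← Finset.sum_add_distrib]
    exact Finset.sum_congr rfl fun j _ => by rw [mul_div_cancel_left₀ _ h.ne']; ring
  have h2 : ∑ j, z j * (g * v j) = g * ∑ j, z j * v j := by
    rw [Finset.mul_sum]; exact Finset.sum_congr rfl fun j _ => by ring
  rw [h1, h2]
  nlinarith [mul_le_mul_of_nonneg_left hS hg]

/-- a smooth approximate normal field with controlled Dirichlet energy -/
theorem stepAB {f : (ι → ℝ) → ℝ} (hf : GAdm f) (hs : Sym 1 f) {P β r : ℝ} (hr : 0 < r)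
    (hr' : π * r < 1) (hP : P ≤ Bob (heat r f)) (hV : ∫ x in Q ι, gn f x ≤ P + β)
    (hI : ∫ x in Q ι, Iso (f x) ≤ β) (hβ : 0 ≤ β) :
    ∃ ζ : ι → (ι → ℝ) → ℝ, (∀ i, Differentiable ℝ (ζ i)) ∧ (∀ i x, |ζ i x| ≤ 1) ∧
      (∀ i j x, |D (ζ i) j x| ≤ 1 / r) ∧
      (∀ i, ∀ x ∈ Q ι, |ζ i x| ≤ 1 / r * min (x i) (1 - x i)) ∧
      ∫ x in Q ι, gn f x * (r ^ 2 * (∑ i, ∑ j, D (ζ i) j x ^ 2) / 2 +
        (∑ i, (D f i x / gn f x - ζ i x) ^ 2) / 2) ≤
        ((π * r) ^ 2 / 2 * (P + β) + (π + 1) * β) / (1 - π * r) := by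
  obtain ⟨C, hC, h1, h2, h3⟩ := hf.exists_bound
  have hm := hf.diff.continuous.measurable
  have hA := stepA hf hs hr hr' hP hV hI hβ
  have hu := hf.heat hr
  set u := heat r f with hudef
  have hus : Sym 1 u := hs.heat hm r
  set ξ : ι → (ι → ℝ) → ℝ := fun i x => D u i x / gn u x with hξ
  have hξm : ∀ i, Measurable (ξ i) := fun i => (measurable_D u i).div (measurable_gn u)
  have hξb : ∀ i x, |ξ i x| ≤ 1 := fun i x => by
    simp only [hξ, abs_div, abs_of_nonneg (gn_nonneg u x)]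
    exact div_le_one_of_le₀ (abs_D_le_gn u i x) (gn_nonneg u x)
  have hξ1 : ∀ x, ∑ i, ξ i x ^ 2 ≤ 1 := fun x => by
    simp only [hξ, div_pow]
    rw [← Finset.sum_div, ← gn_sq]
    exact div_self_le_one _
  have hξs : ∀ i, Sym (sgnAt i) (ξ i) := fun i => by
    have s1 := hus.D hu.diff i
    have s2 := hus.gn hu.diff
    constructor
    · intro k x; simp only [hξ, s1.per, s2.per]
    · intro k x; simp only [hξ, s1.par, s2.par, Pi.one_apply, one_mul]; ring
  have hgn : ∀ x, gn u x = ∑ i, ξ i x * D u i x := fun x => by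
    have : ∑ i, ξ i x * D u i x = gn u x ^ 2 / gn u x := by
      rw [gn_sq, Finset.sum_div]
      exact Finset.sum_congr rfl fun i _ => by simp only [hξ]; ring
    rw [this]
    by_cases h : gn u x = 0
    · simp [h]
    · field_simp
  have hζd : ∀ i, Differentiable ℝ (heat r (ξ i)) := fun i =>
    (contDiff_heat (hξm i) (hξb i) hr).differentiable one_ne_zero
  have hζb : ∀ i x, |heat r (ξ i) x| ≤ 1 := fun i => abs_heat_le (hξm i) (hξb i) r
  have hDζ : ∀ i j x, |D (heat r (ξ i)) j x| ≤ 1 / r :=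
    fun i j x => abs_D_heat_le (hξm i) (hξb i) hr j x
  refine ⟨fun i => heat r (ξ i), hζd, hζb, hDζ,
    fun i x hx => ((hξs i).heat (hξm i) r).abs_le_dist (hζd i) (hDζ i i) hx, le_trans ?_ hA⟩
  have i1 : ∀ i, IntegrableOn (fun x => ξ i x * D u i x) (Q ι) := fun i =>
    integrableOn_Q ((hξm i).mul (measurable_D u i)).aestronglyMeasurable (C := 1 * (1 / r))
      fun x _ => by
        rw [abs_mul]
        exact mul_le_mul (hξb i x) (abs_D_heat_le hm hf.abs_le_one hr i x) (abs_nonneg _)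
          zero_le_one
  have i2 : ∀ i, IntegrableOn (fun x => heat r (ξ i) x * D f i x) (Q ι) := fun i =>
    integrableOn_Q ((measurable_heat (hξm i) r).mul (measurable_D f i)).aestronglyMeasurable
      (C := 1 * C) fun x _ => by
        rw [abs_mul]; exact mul_le_mul (hζb i x) (h2 x i) (abs_nonneg _) zero_le_one
  have e1 : ∫ x in Q ι, gn u x = ∫ x in Q ι, ∑ i, heat r (ξ i) x * D f i x := by
    rw [integral_finsetSum _ fun i _ => i2 i, funext hgn, integral_finsetSum _ fun i _ => i1 i]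
    refine Finset.sum_congr rfl fun i _ => ?_
    rw [← heat_adjoint (sgnAt_cases i) (hξm i) (measurable_D f i)
      (fun x => (hξb i x).trans hC) (fun x => h2 x i) (hξs i) (hs.D hf.diff i) r]
    simp only [hudef, D_heat_of_diff hf.diff h1 h2]
  have i3 : Integrable (fun x => ∑ i, heat r (ξ i) x * D f i x) (volume.restrict (Q ι)) :=
    integrable_finsetSum _ fun i _ => i2 i
  rw [e1, ← integral_sub hf.adm.integrableOn_gn i3]
  refine integral_mono_of_nonneg (Eventually.of_forall fun x => mul_nonneg (gn_nonneg _ _)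
    (by positivity)) (hf.adm.integrableOn_gn.sub i3) (Eventually.of_forall fun x => ?_)
  refine unit_ineq (d := fun j => D f j x) (z := fun j => heat r (ξ j) x) (gn_nonneg _ _)
    (gn_sq f x) ?_
  have hsq : ∀ i y, |ξ i y ^ 2| ≤ 1 := fun i y => by
    rw [abs_pow]; exact pow_le_one₀ (abs_nonneg _) (hξb i y)
  calc _ = ∑ i, (heat r (ξ i) x ^ 2 + r ^ 2 * ∑ j, D (heat r (ξ i)) j x ^ 2) := by
        rw [Finset.sum_add_distrib, Finset.mul_sum]
    _ ≤ ∑ i, heat r (fun y => ξ i y ^ 2) x :=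
        Finset.sum_le_sum fun i _ => bessel (hξm i) (hξb i) hr x
    _ = heat r (fun y => ∑ i, ξ i y ^ 2) x := by
        unfold heat
        rw [integral_finsetSum]
        exact fun i _ => integrable_shift ((hξm i).pow_const 2) (hsq i) r x
    _ ≤ 1 := (heat_mem_Icc (Finset.measurable_sum _ fun i _ => (hξm i).pow_const 2) (a := 0)
        (b := 1) (fun y => ⟨Finset.sum_nonneg fun _ _ => sq_nonneg _, hξ1 y⟩) r x).2

end Pool.Agent.P.MP_b7645d_gt
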