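import Pool.Agent.P.MP_b7645d_gt.StepAB
import Pool.Agent.P.MP_b7645d_gt.FirstVar
import Pool.Agent.P.MP_b7645d_gt.Alg

set_option autoImplicit false

open MeasureTheory ProbabilityTheory Set Real Filter Topology

namespace Pool.Agent.P.MP_b7645d_gt

section
variable {ι : Type} [Fintype ι] [DecidableEq ι]

lemma abs_D_div_gn_le (f : (ι → ℝ) → ℝ) (i : ι) (x : ι → ℝ) : |D f i x / gn f x| ≤ 1 := by
  rw [abs_div, abs_of_nonneg (gn_nonneg f x)]
  exact div_le_one_of_le₀ (abs_D_le_gn f i x) (gn_nonneg f x)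

lemma gn_mul_div (f : (ι → ℝ) → ℝ) (i : ι) (x : ι → ℝ) : gn f x * (D f i x / gn f x) = D f i x := by
  by_cases h : gn f x = 0
  · have := abs_D_le_gn f i x
    rw [h] at this
    rw [h, abs_nonpos_iff.1 this, zero_mul]
  · field_simp

lemma integrableOn_var {f Φ : (ι → ℝ) → ℝ} (hf : Adm f) (i : ι) {C : ℝ}
    (hΦ' : ∀ x ∈ Q ι, ∀ j, |D Φ j x| ≤ C) :
    IntegrableOn (fun x => D Φ i x * gn f x - D f i x * (∑ j, D f j x * D Φ j x) / gn f x)
      (Q ι) := by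
  refine (hf.integrableOn_gn.const_mul (C + Fintype.card ι * C)).mono' ?_
    ((ae_restrict_iff' measurableSet_Q).2 (Eventually.of_forall fun x hx => ?_))
  · exact (((measurable_D _ _).mul (measurable_gn _)).sub (((measurable_D _ _).mul
      (Finset.measurable_sum _ fun j _ => (measurable_D _ _).mul (measurable_D _ _))).div
      (measurable_gn _))).aestronglyMeasurable
  have hg := gn_nonneg f x
  have h1 : |D Φ i x * gn f x| ≤ C * gn f x := by
    rw [abs_mul, abs_of_nonneg hg]; gcongr; exact hΦ' x hx i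
  have h2 : |∑ j, D f j x * D Φ j x| ≤ Fintype.card ι * C * gn f x :=
    calc _ ≤ ∑ j, |D f j x * D Φ j x| := Finset.abs_sum_le_sum_abs _ _
      _ ≤ ∑ _j : ι, gn f x * C := Finset.sum_le_sum fun j _ => by
          rw [abs_mul]; exact mul_le_mul (abs_D_le_gn f j x) (hΦ' x hx j) (abs_nonneg _) hg
      _ = _ := by simp; ring
  have h3 : |D f i x * (∑ j, D f j x * D Φ j x) / gn f x| ≤ Fintype.card ι * C * gn f x := by
    rw [mul_div_right_comm, abs_mul]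
    exact (mul_le_of_le_one_left (abs_nonneg _) (abs_D_div_gn_le f i x)).trans h2
  rw [Real.norm_eq_abs]
  exact (abs_sub _ _).trans (by linarith)

lemma abs_mul_D_le {f Φ : (ι → ℝ) → ℝ} (i : ι) {C : ℝ} (hC : 0 ≤ C)
    (hΦ0 : ∀ x ∈ Q ι, |Φ x| ≤ C * min (x i) (1 - x i)) {x : ι → ℝ} (hx : x ∈ Q ι) :
    |Φ x * D f i x| ≤ C * gn f x := by
  rw [abs_mul]
  refine mul_le_mul ((hΦ0 x hx).trans ?_) (abs_D_le_gn f i x) (abs_nonneg _) hC
  exact mul_le_of_le_one_right hC ((min_le_left _ _).trans (hx i).2.le)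

lemma integrableOn_mul_D {f Φ : (ι → ℝ) → ℝ} (hf : Adm f) (i : ι) {C : ℝ} (hC : 0 ≤ C)
    (hΦ : ∀ x ∈ Q ι, DifferentiableAt ℝ Φ x)
    (hΦ0 : ∀ x ∈ Q ι, |Φ x| ≤ C * min (x i) (1 - x i)) :
    IntegrableOn (fun x => Φ x * D f i x) (Q ι) := by
  refine (hf.integrableOn_gn.const_mul C).mono' ?_
    ((ae_restrict_iff' measurableSet_Q).2 (Eventually.of_forall fun x hx =>
      abs_mul_D_le i hC hΦ0 hx))
  exact (ContinuousOn.aestronglyMeasurable (fun x hx => (hΦ x hx).continuousAt.continuousWithinAt)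
    measurableSet_Q).mul (measurable_D _ _).aestronglyMeasurable

end

/-- almost stationarity -/
theorem stepC {N : ℕ} {f Φ : (Fin N → ℝ) → ℝ} (hf : Adm f) (i : Fin N) {t H M ρ β C ε : ℝ}
    (supp : ∀ s, |s - t| ≤ ρ → J t + H * (s - t) - M * (s - t) ^ 2 ≤ J s) (hM : 0 ≤ M)
    (hft : ∫ x in Q (Fin N), f x = t) (hV : ∫ x in Q (Fin N), gn f x ≤ J t + β)
    (hI : ∫ x in Q (Fin N), Iso (f x) ≤ β) (hC : 0 ≤ C) (hε : 0 < ε) (hεC : ε * C * N ≤ 1 / 2)
    (hερ : ε * (C * (J t + β)) ≤ ρ) (hΦ : ∀ x ∈ Q (Fin N), DifferentiableAt ℝ Φ x)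
    (hΦ' : ∀ x ∈ Q (Fin N), ∀ j, |D Φ j x| ≤ C)
    (hΦ0 : ∀ x ∈ Q (Fin N), |Φ x| ≤ C * min (x i) (1 - x i)) :
    -((2 * π + 1) * β / ε + ε * (2 * N * C ^ 2) * (J t + β) + M * ε * (C * (J t + β)) ^ 2) ≤
      ∫ x in Q (Fin N), ((D Φ i x * gn f x - D f i x * (∑ j, D f j x * D Φ j x) / gn f x) +
        H * (Φ x * D f i x)) := by
  obtain ⟨g, hg, h1, h2, h3⟩ := firstVar hf i hC hε (by simpa using hεC) hΦ hΦ' hΦ0
  have iU := integrableOn_mul_D hf i hC hΦ hΦ0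
  rw [integral_add (integrableOn_var hf i hΦ') (iU.const_mul H), integral_const_mul]
  set W := ∫ x in Q (Fin N), (D Φ i x * gn f x - D f i x * (∑ j, D f j x * D Φ j x) / gn f x)
  set U := ∫ x in Q (Fin N), Φ x * D f i x with hUdef
  set V := ∫ x in Q (Fin N), gn f x with hVdef
  have hU : |U| ≤ C * (J t + β) := by
    refine le_trans ?_ (mul_le_mul_of_nonneg_left hV hC)
    rw [hVdef, ← integral_const_mul]
    exact abs_integral_le_integral_abs.trans (setIntegral_mono_on iU.abs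
      (hf.integrableOn_gn.const_mul C) measurableSet_Q fun x hx => abs_mul_D_le i hC hΦ0 hx)
  have h4 := supp (t - ε * U) (by
    rw [sub_sub_cancel_left, abs_neg, abs_mul, abs_of_pos hε]
    exact (mul_le_mul_of_nonneg_left hU hε.le).trans hερ)
  have h5 := (J_le_bob hg).trans (bob_le_add hg)
  rw [h1, hft] at h5
  rw [Fintype.card_fin] at h3
  have h6 : π * ∫ x in Q (Fin N), Iso (g x) ≤ π * (2 * β) := by
    gcongr; linarith
  have h7 : U ^ 2 ≤ (C * (J t + β)) ^ 2 := by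
    rw [← sq_abs]; exact pow_le_pow_left₀ (abs_nonneg _) hU 2
  have h8 : ε ^ 2 * (2 * N * C ^ 2) * V ≤ ε ^ 2 * (2 * N * C ^ 2) * (J t + β) := by gcongr
  have h9 : M * (ε ^ 2 * U ^ 2) ≤ M * (ε ^ 2 * (C * (J t + β)) ^ 2) := by gcongr
  refine le_of_mul_le_mul_left ?_ hε
  have : ε * -((2 * π + 1) * β / ε + ε * (2 * N * C ^ 2) * (J t + β) +
      M * ε * (C * (J t + β)) ^ 2) = -((2 * π + 1) * β + ε ^ 2 * (2 * N * C ^ 2) * (J t + β) +
      M * (ε ^ 2 * (C * (J t + β)) ^ 2)) := by field_simp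
  rw [this]
  nlinarith

lemma sum_lower {N : ℕ} (hN : 0 < N) {g p C₂ ϑ : ℝ} {d n : Fin N → ℝ} (hg : 0 ≤ g)
    (hd : g ^ 2 = ∑ j, d j ^ 2) (hC₂ : 0 ≤ C₂) (hϑ : 0 < ϑ) :
    (p ^ 2 + 1 / N - C₂ * N * ϑ) * g - C₂ / ϑ * (g * ∑ i, (d i / g - n i) ^ 2) ≤
      ∑ i, g * (p ^ 2 * (d i / g) ^ 2 + (d i / g) ^ 4 - C₂ * |d i / g - n i|) := by
  rcases hg.eq_or_lt with h | h
  · simp [← h]
  set v : Fin N → ℝ := fun i => d i / g with hv
  have h1 : ∑ j, v j ^ 2 = 1 := by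
    simp only [hv, div_pow, ← Finset.sum_div, ← hd]
    exact div_self (by positivity)
  have h2 : 1 / (N : ℝ) ≤ ∑ j, v j ^ 4 := by
    have := sq_sum_le_card_mul_sum_sq (s := Finset.univ) (f := fun j => v j ^ 2)
    rw [h1, Finset.card_univ, Fintype.card_fin] at this
    rw [div_le_iff₀ (by exact_mod_cast hN)]
    simp only [← pow_mul] at this
    linarith
  have h3 : ∑ i, |v i - n i| ≤ N * ϑ + (∑ i, (v i - n i) ^ 2) / ϑ := by
    calc _ ≤ ∑ i, (ϑ + (v i - n i) ^ 2 / ϑ) := Finset.sum_le_sum fun i _ => by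
          rw [← sq_abs, ← sub_le_iff_le_add', le_div_iff₀ hϑ]
          nlinarith [sq_nonneg (|v i - n i| - ϑ), abs_nonneg (v i - n i)]
      _ = _ := by simp [Finset.sum_add_distrib, Finset.sum_div]
  change _ - C₂ / ϑ * (g * ∑ i, (v i - n i) ^ 2) ≤
    ∑ i, g * (p ^ 2 * v i ^ 2 + v i ^ 4 - C₂ * |v i - n i|)
  simp only [← Finset.mul_sum, Finset.sum_sub_distrib, Finset.sum_add_distrib, h1]
  have h4 := mul_le_mul_of_nonneg_left h3 hC₂
  have h5 : C₂ / ϑ * (g * ∑ i, (v i - n i) ^ 2) = g * (C₂ * ((∑ i, (v i - n i) ^ 2) / ϑ)) := by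
    field_simp
  rw [h5]
  nlinarith [mul_le_mul_of_nonneg_left h4 hg, mul_le_mul_of_nonneg_left h2 hg]

/-- the main inequality -/
theorem stepD {N : ℕ} (hN : 0 < N) {f : (Fin N → ℝ) → ℝ} (hf : GAdm f) (hs : Sym 1 f)
    {t H M ρ β ε r ϑ p B : ℝ}
    (supp : ∀ s, |s - t| ≤ ρ → J t + H * (s - t) - M * (s - t) ^ 2 ≤ J s) (hM : 0 ≤ M)
    (hH : 128 ≤ H) (hp0 : 0 < p) (hp : p < π) (hB : 0 ≤ B)
    (hB' : ∀ c n, |c| ≤ tan (p / 2) → |n| ≤ 1 →
      |Ps p H c n| ≤ B * |n| ∧ |Px p c n| ≤ B ∧ |Pn p H c n| ≤ B)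
    (hft : ∫ x in Q (Fin N), f x = t) (hV : ∫ x in Q (Fin N), gn f x ≤ J t + β)
    (hI : ∫ x in Q (Fin N), Iso (f x) ≤ β) (hβ : 0 ≤ β) (hr : 0 < r) (hr' : π * r < 1)
    (hϑ : 0 < ϑ) (hε : 0 < ε) (hεC : ε * (B + B * (1 / r)) * N ≤ 1 / 2)
    (hερ : ε * ((B + B * (1 / r)) * (J t + β)) ≤ ρ) :
    (p ^ 2 + 1 / N) * (J t - π * β) - (2 * (B + B ^ 2 / 4) + H * B + 36) * N * ϑ * (J t + β) -
      N * ((2 * π + 1) * β / ε + ε * (2 * N * (B + B * (1 / r)) ^ 2) * (J t + β) +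
        M * ε * ((B + B * (1 / r)) * (J t + β)) ^ 2) ≤
      (2 / r ^ 2 + 2 * (2 * (B + B ^ 2 / 4) + H * B + 36) / ϑ) *
        (((π * r) ^ 2 / 2 * (J t + β) + (π + 1) * β) / (1 - π * r)) := by
  have hm := hf.diff.continuous.measurable
  have hP : J t ≤ Bob (heat r f) := by
    have := J_le_bob (hf.heat hr).adm
    rwa [integral_heat hm hf.abs_le_one hs, hft] at this
  obtain ⟨ζ, hζd, hζb, hDζ, hζ0, hE⟩ := stepAB hf hs hr hr' hP hV hI hβ
  set C₂ := 2 * (B + B ^ 2 / 4) + H * B + 36 with hC₂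
  have hC₂0 : 0 ≤ C₂ := by have : 0 ≤ H := by linarith
                           positivity
  set C := B + B * (1 / r) with hC
  have hC0 : 0 ≤ C := by positivity
  set η := (2 * π + 1) * β / ε + ε * (2 * N * C ^ 2) * (J t + β) + M * ε * (C * (J t + β)) ^ 2
  set V := ∫ x in Q (Fin N), gn f x with hVdef
  have hV' : J t - π * β ≤ V := by
    have h1 := (J_le_bob hf.adm).trans (bob_le_add hf.adm)
    rw [hft] at h1
    nlinarith [pi_pos]
  set Φ : Fin N → (Fin N → ℝ) → ℝ := fun i y => Ps p H (cc p (y i)) (ζ i y) with hΦdef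
  have hb := fun i x (hx : x ∈ Q (Fin N)) => hB' _ _ (abs_cc_le hp0 hp (hx i)) (hζb i x)
  have hΦ : ∀ i, ∀ x ∈ Q (Fin N), DifferentiableAt ℝ (Φ i) x := fun i x hx =>
    (hasFDerivAt_test hp0 hp i hx (hζd i x)).differentiableAt
  have hΦ' : ∀ i, ∀ x ∈ Q (Fin N), ∀ j, |D (Φ i) j x| ≤ C := fun i x hx j => by
    rw [D_test hp0 hp i hx (hζd i x)]
    refine (abs_add_le _ _).trans (add_le_add ?_ ?_)
    · split_ifs
      · exact (hb i x hx).2.1
      · simpa using hB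
    · rw [abs_mul]; exact mul_le_mul (hb i x hx).2.2 (hDζ i j x) (abs_nonneg _) hB
  have hΦ0 : ∀ i, ∀ x ∈ Q (Fin N), |Φ i x| ≤ C * min (x i) (1 - x i) := fun i x hx => by
    have h0 : 0 ≤ min (x i) (1 - x i) := le_min (hx i).1.le (sub_pos.2 (hx i).2).le
    refine (hb i x hx).1.trans ((mul_le_mul_of_nonneg_left (hζ0 i x hx) hB).trans ?_)
    rw [← mul_assoc]
    gcongr
    linarith
  set G : Fin N → (Fin N → ℝ) → ℝ := fun i x =>
    (D (Φ i) i x * gn f x - D f i x * (∑ j, D f j x * D (Φ i) j x) / gn f x) +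
      H * (Φ i x * D f i x) with hG
  have hGi : ∀ i, IntegrableOn (G i) (Q (Fin N)) := fun i =>
    (integrableOn_var hf.adm i (hΦ' i)).add
      ((integrableOn_mul_D hf.adm i hC0 (hΦ i) (hΦ0 i)).const_mul H)
  have hGη : ∀ i, -η ≤ ∫ x in Q (Fin N), G i x := fun i =>
    stepC hf.adm i supp hM hft hV hI hC0 hε hεC hερ (hΦ i) (hΦ' i) (hΦ0 i)
  have hsum : -(N * η) ≤ ∫ x in Q (Fin N), ∑ i, G i x := by
    rw [integral_finsetSum _ fun i _ => hGi i]
    have := Finset.sum_le_sum fun i (_ : i ∈ Finset.univ) => hGη i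
    simpa using this
  have iE : IntegrableOn (fun x => gn f x * (r ^ 2 * (∑ i, ∑ j, D (ζ i) j x ^ 2) / 2 +
      (∑ i, (D f i x / gn f x - ζ i x) ^ 2) / 2)) (Q (Fin N)) := by
    refine hf.adm.integrableOn_gn.mul_bdd (c := r ^ 2 * (∑ _i : Fin N, ∑ _j : Fin N, (1 / r) ^ 2) / 2
      + (∑ _i : Fin N, (2 : ℝ) ^ 2) / 2) (Measurable.aestronglyMeasurable ?_)
      (Eventually.of_forall fun x => ?_)
    · exact (((Finset.measurable_sum _ fun i _ => Finset.measurable_sum _ fun j _ =>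
        (measurable_D _ _).pow_const 2).const_mul _).div_const 2).add
        ((Finset.measurable_sum _ fun i _ => (((measurable_D _ _).div (measurable_gn _)).sub
          (hζd i).continuous.measurable).pow_const 2).div_const 2)
    · rw [Real.norm_eq_abs, abs_of_nonneg (by positivity)]
      have e1 : ∀ i j, D (ζ i) j x ^ 2 ≤ (1 / r) ^ 2 := fun i j => by
        rw [← sq_abs]; exact pow_le_pow_left₀ (abs_nonneg _) (hDζ i j x) 2
      have e2 : ∀ i, (D f i x / gn f x - ζ i x) ^ 2 ≤ 2 ^ 2 := fun i => by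
        rw [← sq_abs]
        exact pow_le_pow_left₀ (abs_nonneg _) ((abs_sub _ _).trans
          (by linarith [abs_D_div_gn_le f i x, hζb i x])) 2
      have e3 := Finset.sum_le_sum fun i (_ : i ∈ Finset.univ) =>
        Finset.sum_le_sum fun j (_ : j ∈ Finset.univ) => e1 i j
      have e4 := Finset.sum_le_sum fun i (_ : i ∈ Finset.univ) => e2 i
      have e5 := mul_le_mul_of_nonneg_left e3 (sq_nonneg r)
      linarith
  have iG : Integrable (fun x => ∑ i, G i x) (volume.restrict (Q (Fin N))) :=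
    integrable_finsetSum _ fun i _ => hGi i
  have key : ∫ x in Q (Fin N), (∑ i, G i x + (p ^ 2 + 1 / N - C₂ * N * ϑ) * gn f x) ≤
      ∫ x in Q (Fin N), (2 / r ^ 2 + 2 * C₂ / ϑ) * (gn f x *
        (r ^ 2 * (∑ i, ∑ j, D (ζ i) j x ^ 2) / 2 +
          (∑ i, (D f i x / gn f x - ζ i x) ^ 2) / 2)) := by
    refine setIntegral_mono_on (iG.add (hf.adm.integrableOn_gn.const_mul _)) (iE.const_mul _)
      measurableSet_Q fun x hx => ?_
    have hg := gn_nonneg f x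
    have h1 := sum_lower hN (p := p) (d := fun j => D f j x) (n := fun j => ζ j x) hg (gn_sq f x)
      hC₂0 hϑ
    have h2 : ∀ i, G i x + gn f x * (p ^ 2 * (D f i x / gn f x) ^ 2 + (D f i x / gn f x) ^ 4 -
        C₂ * |D f i x / gn f x - ζ i x|) ≤ gn f x * ∑ j, D (ζ i) j x ^ 2 := fun i => by
      have h3 := vector_ineq i (a := Px p (cc p (x i)) (ζ i x)) (b := Pn p H (cc p (x i)) (ζ i x))
        (d := fun j => D f j x) (z := fun j => D (ζ i) j x) hg (gn_sq f x)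
      have h4 := test_ineq' (by nlinarith [pi_le_four]) hH (hζb i x) (abs_D_div_gn_le f i x)
        (hb i x hx).1 (hb i x hx).2.1 (hb i x hx).2.2
      have h5 := mul_le_mul_of_nonneg_left h4 hg
      have h6 := gn_mul_div f i x
      simp only [hG, hΦdef, D_test hp0 hp i hx (hζd i x), if_true]
      have h7 : H * (Ps p H (cc p (x i)) (ζ i x) * D f i x) =
          gn f x * (H * Ps p H (cc p (x i)) (ζ i x) * (D f i x / gn f x)) := by
        conv_lhs => rw [← h6]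
        ring
      rw [h7]
      rw [← hC₂] at h5
      linarith
    have h3 := Finset.sum_le_sum fun i (_ : i ∈ Finset.univ) => h2 i
    rw [Finset.sum_add_distrib, ← Finset.mul_sum _ (fun i => ∑ j, D (ζ i) j x ^ 2)] at h3
    set S := ∑ i, ∑ j, D (ζ i) j x ^ 2
    set R := ∑ i, (D f i x / gn f x - ζ i x) ^ 2
    have hS : 0 ≤ S := by positivity
    have hR : 0 ≤ R := by positivity
    have h4 : (2 / r ^ 2 + 2 * C₂ / ϑ) * (gn f x * (r ^ 2 * S / 2 + R / 2)) =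
        gn f x * S + C₂ / ϑ * (gn f x * R) + (gn f x * R / r ^ 2 + C₂ / ϑ * r ^ 2 * gn f x * S) := by
      field_simp; ring
    rw [h4]
    have : 0 ≤ gn f x * R / r ^ 2 + C₂ / ϑ * r ^ 2 * gn f x * S := by positivity
    linarith
  rw [integral_add iG (hf.adm.integrableOn_gn.const_mul _), integral_const_mul,
    integral_const_mul, ← hVdef] at key
  have h1 := mul_le_mul_of_nonneg_left hE (show 0 ≤ 2 / r ^ 2 + 2 * C₂ / ϑ by positivity)
  have h2 : (p ^ 2 + 1 / N) * (J t - π * β) ≤ (p ^ 2 + 1 / N) * V := by gcongr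
  have h3 : C₂ * N * ϑ * V ≤ C₂ * N * ϑ * (J t + β) := by gcongr
  linarith

end Pool.Agent.P.MP_b7645d_gt
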