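import Pool.Agent.P.MP_b7645d_gt.GaussN

set_option autoImplicit false

open MeasureTheory ProbabilityTheory Set Real Filter Topology

namespace Pool.Agent.P.MP_b7645d_gt

variable {ι : Type} [Fintype ι] [DecidableEq ι]

omit [Fintype ι] in
lemma flip_eq (k : ι) (x : ι → ℝ) : flip k x = fun i => sgnAt k i * x i := by
  funext i
  by_cases h : i = k
  · subst h; simp [flip, sgnAt]
  · simp [flip, sgnAt, h]

omit [Fintype ι] in
lemma sgnAt_comm (i k : ι) : sgnAt i k = sgnAt k i := by simp [sgnAt, eq_comm]

omit [Fintype ι] in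
lemma sgnAt_mul_self (i k : ι) : sgnAt i k * sgnAt i k = 1 := by
  unfold sgnAt; split_ifs <;> norm_num

omit [Fintype ι] in
lemma sgnAt_cases (i k : ι) : sgnAt i k = 1 ∨ sgnAt i k = -1 := by
  unfold sgnAt; split_ifs <;> norm_num

lemma measurePreserving_flip (k : ι) : MeasurePreserving (flip k) (gam ι) (gam ι) := by
  have : flip k = fun (x : ι → ℝ) i => sgnAt k i * x i := funext (flip_eq k)
  rw [this]
  refine measurePreserving_pi (f := fun i t => sgnAt k i * t) _ _ fun i => ⟨by fun_prop, ?_⟩
  rcases sgnAt_cases k i with h | h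
  · simp [h]
  · simpa [h] using gaussianReal_map_neg (μ := 0) (v := 1)

omit [DecidableEq ι] in
lemma measurePreserving_neg_gam : MeasurePreserving (fun z => -z) (gam ι) (gam ι) :=
  measurePreserving_pi (f := fun _ t => -t) _ _ fun _ =>
    ⟨by fun_prop, by simpa using gaussianReal_map_neg (μ := 0) (v := 1)⟩

lemma integral_mp {α β : Type} [MeasurableSpace α] [MeasurableSpace β] {μ : Measure α}
    {ν : Measure β} {T : α → β} (hT : MeasurePreserving T μ ν) (G : β → ℝ) (hG : Measurable G) :
    ∫ y, G y ∂ν = ∫ x, G (T x) ∂μ := by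
  rw [← hT.map_eq, integral_map hT.measurable.aemeasurable hG.aestronglyMeasurable]

lemma Sym.heat {s : ι → ℝ} {F : (ι → ℝ) → ℝ} (hF : Measurable F) (h : Sym s F) (r : ℝ) :
    Sym s (heat r F) := by
  constructor
  · intro k x
    simp only [MP_b7645d_gt.heat, add_right_comm x (Pi.single k 2), h.per]
  · intro k x
    simp only [MP_b7645d_gt.heat]
    rw [← integral_const_mul, integral_mp (measurePreserving_flip k) _ (by fun_prop)]
    refine integral_congr_ae (Eventually.of_forall fun z => ?_)
    simp only [← h.par]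
    congr 1
    funext i
    simp only [flip_eq, Pi.add_apply, Pi.smul_apply, smul_eq_mul]
    ring

/-- the reflection as a linear map -/
noncomputable def flipL (k : ι) : (ι → ℝ) →L[ℝ] (ι → ℝ) :=
  ContinuousLinearMap.pi fun i => sgnAt k i • ContinuousLinearMap.proj i

omit [Fintype ι] in
lemma flipL_apply (k : ι) (x : ι → ℝ) : flipL k x = flip k x := by
  rw [flip_eq]; funext i; simp [flipL]

lemma Sym.D' {s : ι → ℝ} {f : (ι → ℝ) → ℝ} (hf : Differentiable ℝ f) (h : Sym s f) (i : ι) :
    Sym (fun k => sgnAt i k * s k) (D f i) := by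
  constructor
  · intro k x
    have : (fun y => f (y + Pi.single k 2)) = f := funext (h.per k)
    rw [MP_b7645d_gt.D, MP_b7645d_gt.D, ← fderiv_comp_add_right, this]
  · intro k x
    have h1 : f ∘ flipL k = fun y => s k * f y := by
      funext y; simp only [Function.comp, flipL_apply, h.par]
    have h2 := ((hf (flipL k x)).hasFDerivAt.comp x (flipL k).hasFDerivAt).fderiv
    rw [h1, ((hf x).hasFDerivAt.const_mul (s k)).fderiv] at h2
    have h3 := congrArg (fun L : (ι → ℝ) →L[ℝ] ℝ => L (Pi.single i 1)) h2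
    have h4 : flipL k (Pi.single i 1) = sgnAt i k • (Pi.single i 1 : ι → ℝ) := by
      rw [flipL_apply, flip_eq]
      funext j
      by_cases hj : j = i
      · subst hj; simp [sgnAt_comm]
      · simp [hj]
    simp only [smul_apply, smul_eq_mul, ContinuousLinearMap.comp_apply, h4, map_smul,
      flipL_apply] at h3
    simp only [MP_b7645d_gt.D]
    rw [mul_assoc, h3, ← mul_assoc, sgnAt_mul_self, one_mul]

lemma Sym.D {f : (ι → ℝ) → ℝ} (hf : Differentiable ℝ f) (h : Sym 1 f) (i : ι) :
    Sym (sgnAt i) (D f i) := by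
  simpa using h.D' hf i

lemma Sym.gn {f : (ι → ℝ) → ℝ} (hf : Differentiable ℝ f) (h : Sym 1 f) : Sym 1 (gn f) := by
  constructor
  · intro k x
    simp only [MP_b7645d_gt.gn, (h.D hf _).per]
  · intro k x
    simp only [MP_b7645d_gt.gn, (h.D hf _).par, mul_pow, sq (sgnAt _ _), sgnAt_mul_self, one_mul,
      Pi.one_apply]

omit [Fintype ι] in
lemma Sym.mul {s t : ι → ℝ} {a b : (ι → ℝ) → ℝ} (ha : Sym s a) (hb : Sym t b) :
    Sym (s * t) fun x => a x * b x :=
  ⟨fun k x => by simp only [ha.per, hb.per], fun k x => by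
    simp only [ha.par, hb.par, Pi.mul_apply]; ring⟩

/-- an odd symmetric function vanishes on the corresponding faces -/
lemma Sym.abs_le_dist {F : (ι → ℝ) → ℝ} {i : ι} (h : Sym (sgnAt i) F) (hF : Differentiable ℝ F)
    {L : ℝ} (hL : ∀ x, |Pool.Agent.P.MP_b7645d_gt.D F i x| ≤ L) {x : ι → ℝ} (hx : x ∈ Q ι) :
    |F x| ≤ L * min (x i) (1 - x i) := by
  have h0 : F (Function.update x i 0) = 0 := by
    have := h.par i (Function.update x i 0)
    simp only [flip, Function.update_self, neg_zero, Function.update_idem, sgnAt, if_true] at this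
    linarith
  have h1 : F (Function.update x i 1) = 0 := by
    have h2 := h.par i (Function.update x i 1)
    have h3 := h.per i (Function.update x i (-1))
    have h4 : Function.update x i (-1) + Pi.single i 2 = Function.update x i 1 := by
      funext j
      by_cases hj : j = i
      · subst hj; simp; norm_num
      · simp [hj]
    rw [h4] at h3
    simp only [flip, Function.update_self, Function.update_idem, sgnAt, if_true] at h2
    linarith
  have hd : ∀ t, HasDerivAt (fun t => F (Function.update x i t))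
      (MP_b7645d_gt.D F i (Function.update x i t)) t := fun t =>
    (hF _).hasFDerivAt.comp_hasDerivAt t (hasDerivAt_update x i t)
  have key : ∀ t, |F x - F (Function.update x i t)| ≤ L * |x i - t| := fun t => by
    have := convex_univ.norm_image_sub_le_of_norm_hasDerivWithin_le
      (fun t _ => (hd t).hasDerivWithinAt) (fun t _ => hL _) (mem_univ t) (mem_univ (x i))
    simpa using this
  have k0 := key 0
  have k1 := key 1
  rw [h0, sub_zero, sub_zero, abs_of_pos (hx i).1] at k0
  rw [h1, sub_zero, abs_sub_comm, abs_of_pos (sub_pos.2 (hx i).2)] at k1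
  rcases le_total (x i) (1 - x i) with hle | hle
  · rwa [min_eq_left hle]
  · rwa [min_eq_right hle]

/-- normalised Lebesgue measure on a period interval -/
noncomputable def nu : Measure ℝ := (2⁻¹ : ENNReal) • volume.restrict (Ioc (-1) (-1 + 2))

instance : IsProbabilityMeasure nu := ⟨by
  simp only [nu, Measure.smul_apply, Measure.restrict_apply_univ, Real.volume_Ioc, smul_eq_mul]
  rw [show (-1 + 2 - -1 : ℝ) = 2 by norm_num, ENNReal.ofReal_ofNat]
  exact ENNReal.inv_mul_cancel (by simp) (by simp)⟩

lemma measurePreserving_abs :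
    MeasurePreserving (fun t : ℝ => |t|) nu (volume.restrict (Ioo 0 1)) := by
  refine ⟨by fun_prop, Measure.ext_of_Iic _ _ fun y => ?_⟩
  rw [Measure.map_apply (by fun_prop) measurableSet_Iic, nu, Measure.smul_apply,
    Measure.restrict_apply (measurableSet_Iic.preimage (by fun_prop)),
    Measure.restrict_apply measurableSet_Iic, smul_eq_mul]
  have h2 : (2⁻¹ : ENNReal) * 2 = 1 := ENNReal.inv_mul_cancel (by simp) (by simp)
  rcases lt_or_ge y 0 with h | h
  · have h1 : (fun t : ℝ => |t|) ⁻¹' Iic y = ∅ := by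
      ext x; simpa using h.trans_le (abs_nonneg x)
    have h2 : Iic y ∩ Ioo 0 1 = ∅ := by
      ext x; simp only [mem_inter_iff, mem_Iic, mem_Ioo, mem_empty_iff_false, iff_false]
      rintro ⟨h1, h2, -⟩; linarith
    simp [h1, h2]
  rcases lt_or_ge y 1 with h' | h'
  · have h1 : (fun t : ℝ => |t|) ⁻¹' Iic y ∩ Ioc (-1) (-1 + 2) = Icc (-y) y := by
      ext x
      simp only [mem_inter_iff, mem_preimage, mem_Iic, abs_le, mem_Ioc, mem_Icc]
      exact ⟨fun h => h.1, fun h => ⟨h, by linarith [h.1], by linarith [h.2]⟩⟩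
    have h3 : Iic y ∩ Ioo 0 1 = Ioc 0 y := by
      ext x; simp only [mem_inter_iff, mem_Iic, mem_Ioo, mem_Ioc]
      exact ⟨fun h => ⟨h.2.1, h.1⟩, fun h => ⟨h.2, h.1, h.2.trans_lt h'⟩⟩
    rw [h1, h3, Real.volume_Icc, Real.volume_Ioc, show y - -y = 2 * y by ring,
      ENNReal.ofReal_mul (by norm_num), ENNReal.ofReal_ofNat, ← mul_assoc, h2, one_mul, sub_zero]
  · have h1 : (fun t : ℝ => |t|) ⁻¹' Iic y ∩ Ioc (-1) (-1 + 2) = Ioc (-1) (-1 + 2) :=
      inter_eq_right.2 fun x hx => show |x| ≤ y from
        abs_le.2 ⟨by linarith [hx.1], by linarith [hx.2]⟩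
    have h3 : Iic y ∩ Ioo 0 1 = Ioo 0 1 := inter_eq_right.2 fun x hx => hx.2.le.trans h'
    rw [h1, h3, Real.volume_Ioc, Real.volume_Ioo, show (-1 + 2 - -1 : ℝ) = 2 by norm_num,
      ENNReal.ofReal_ofNat, h2]
    simp

lemma measurePreserving_rot (c : ℝ) :
    MeasurePreserving (fun t : ℝ => toIocMod two_pos (-1) (t + c)) nu nu := by
  have : Fact ((0 : ℝ) < 2) := ⟨two_pos⟩
  refine MeasurePreserving.smul_measure ?_ _
  have h1 := AddCircle.measurePreserving_mk (2 : ℝ) (-1)
  have h2 := measurePreserving_add_right (volume : Measure (AddCircle (2 : ℝ))) (c : AddCircle _)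
  have h3 := AddCircle.measurePreserving_equivIoc (2 : ℝ) (a := -1)
  have h4 := measurePreserving_subtype_coe (μa := (volume : Measure ℝ))
    (measurableSet_Ioc (a := (-1 : ℝ)) (b := -1 + 2))
  exact h4.comp (h3.comp (h2.comp h1))

/-- normalised Lebesgue measure on a period cube -/
noncomputable def tor (ι : Type) [Fintype ι] : Measure (ι → ℝ) := Measure.pi fun _ => nu

instance : IsProbabilityMeasure (tor ι) := by unfold tor; infer_instance

lemma Sym.abs_eq {G : (ι → ℝ) → ℝ} (h : Sym 1 G) (x : ι → ℝ) : G (fun i => |x i|) = G x := by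
  have : ∀ s : Finset ι, G (fun i => if i ∈ s then |x i| else x i) = G x := fun s => by
    induction s using Finset.induction_on with
    | empty => simp
    | insert k s hk ih =>
      rw [← ih]
      rcases abs_choice (x k) with h1 | h1
      · congr 1
        funext i
        by_cases hi : i = k
        · subst hi; simp [hk, h1]
        · simp [hi]
      · rw [← one_mul (G fun i => if i ∈ s then |x i| else x i)]
        refine Eq.trans ?_ (h.par k _)
        congr 1
        funext i
        by_cases hi : i = k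
        · subst hi; simp [flip, hk, h1]
        · simp [flip, hi]
  simpa using this Finset.univ

lemma integral_Q_eq_tor {G : (ι → ℝ) → ℝ} (hG : Measurable G) (h : Sym 1 G) :
    ∫ x in Q ι, G x = ∫ x, G x ∂(tor ι) := by
  have := measurePreserving_pi (fun _ : ι => nu) (fun _ => volume.restrict (Ioo 0 1))
    fun _ => measurePreserving_abs
  rw [restrict_Q_eq_pi, ← this.map_eq,
    integral_map this.measurable.aemeasurable hG.aestronglyMeasurable]
  simp only [h.abs_eq, tor]

lemma per_zsmul {G : (ι → ℝ) → ℝ} (h : ∀ k x, G (x + Pi.single k 2) = G x) (n : ι → ℤ) :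
    Function.Periodic G fun i => n i • (2 : ℝ) := by
  have : ∀ s : Finset ι, Function.Periodic G (∑ k ∈ s, n k • Pi.single k 2) := fun s => by
    induction s using Finset.induction_on with
    | empty => simp [Function.Periodic]
    | insert k s hk ih =>
      rw [Finset.sum_insert hk]
      exact (Function.Periodic.zsmul (h k) (n k)).add_period ih
  convert this Finset.univ using 1
  funext i
  simp [Finset.sum_apply, Pi.single_apply]

lemma integral_tor_add {G : (ι → ℝ) → ℝ} (hG : Measurable G)
    (h : ∀ k x, G (x + Pi.single k 2) = G x) (c : ι → ℝ) :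
    ∫ x, G (x + c) ∂(tor ι) = ∫ x, G x ∂(tor ι) := by
  have := measurePreserving_pi (fun _ : ι => nu) (fun _ => nu)
    fun i => measurePreserving_rot (c i)
  conv_rhs => rw [tor, ← this.map_eq,
    integral_map this.measurable.aemeasurable hG.aestronglyMeasurable]
  refine integral_congr_ae (Eventually.of_forall fun x => ?_)
  simp only
  symm
  rw [← per_zsmul h (fun i => toIocDiv two_pos (-1) (x i + c i))]
  congr 1
  funext i
  simp only [Pi.add_apply, toIocMod_add_toIocDiv_zsmul]

omit [DecidableEq ι] in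
lemma integrable_kernel {A : (ι → ℝ) × (ι → ℝ) → ℝ} {k : (ι → ℝ) → ℝ} (hA : Measurable A) {C : ℝ}
    (hC : ∀ p, |A p| ≤ C) (hk : Integrable k (gam ι)) :
    Integrable (fun p : (ι → ℝ) × (ι → ℝ) => A p * k p.2) ((tor ι).prod (gam ι)) :=
  (hk.comp_snd (tor ι)).bdd_mul hA.aestronglyMeasurable (Eventually.of_forall hC)

lemma adj_core {a b k : (ι → ℝ) → ℝ} (ha : Measurable a) (hb : Measurable b) {C : ℝ}
    (hCa : ∀ x, |a x| ≤ C) (hCb : ∀ x, |b x| ≤ C) (pa : ∀ j x, a (x + Pi.single j 2) = a x)
    (pb : ∀ j x, b (x + Pi.single j 2) = b x) (hk : Measurable k) (hki : Integrable k (gam ι))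
    (r : ℝ) :
    ∫ x, a x * ∫ z, b (x + r • z) * k z ∂(gam ι) ∂(tor ι) =
      ∫ x, (∫ z, a (x + r • z) * k (-z) ∂(gam ι)) * b x ∂(tor ι) := by
  have hab : ∀ x y, |a x * b y| ≤ C * C := fun x y => by
    rw [abs_mul]; exact mul_le_mul (hCa _) (hCb _) (abs_nonneg _) ((abs_nonneg _).trans (hCa x))
  have i1 := integrable_kernel (A := fun p => a p.1 * b (p.1 + r • p.2))
    ((ha.comp (by fun_prop)).mul (hb.comp (by fun_prop))) (fun p => hab _ _) hki
  have i2 := integrable_kernel (A := fun p => a (p.1 - r • p.2) * b p.1)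
    ((ha.comp (by fun_prop)).mul (hb.comp (by fun_prop))) (fun p => hab _ _) hki
  calc _ = ∫ x, ∫ z, a x * b (x + r • z) * k z ∂(gam ι) ∂(tor ι) := by
        simp only [← integral_const_mul, mul_assoc]
    _ = ∫ z, ∫ x, a x * b (x + r • z) * k z ∂(tor ι) ∂(gam ι) := integral_integral_swap i1
    _ = ∫ z, ∫ x, a (x - r • z) * b x * k z ∂(tor ι) ∂(gam ι) := by
        refine integral_congr_ae (Eventually.of_forall fun z => ?_)
        have := integral_tor_add (G := fun x => a (x - r • z) * b x * k z)
          (((ha.comp (by fun_prop)).mul hb).mul_const _)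
          (fun j x => by simp only [add_sub_right_comm x, pa, pb]) (r • z)
        simpa using this
    _ = ∫ x, ∫ z, a (x - r • z) * b x * k z ∂(gam ι) ∂(tor ι) := (integral_integral_swap i2).symm
    _ = _ := by
        refine integral_congr_ae (Eventually.of_forall fun x => ?_)
        simp only
        rw [← integral_mul_const, integral_mp measurePreserving_neg_gam _ (by fun_prop)]
        refine integral_congr_ae (Eventually.of_forall fun z => ?_)
        simp only [smul_neg, sub_neg_eq_add]
        ring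

lemma heat_adjoint {s : ι → ℝ} (hs : ∀ k, s k = 1 ∨ s k = -1) {a b : (ι → ℝ) → ℝ}
    (ha : Measurable a) (hb : Measurable b) {C : ℝ} (hCa : ∀ x, |a x| ≤ C) (hCb : ∀ x, |b x| ≤ C)
    (sa : Sym s a) (sb : Sym s b) (r : ℝ) :
    ∫ x in Q ι, a x * heat r b x = ∫ x in Q ι, heat r a x * b x := by
  have hss : s * s = 1 := by
    funext k; rcases hs k with h | h <;> simp [h]
  rw [integral_Q_eq_tor (G := fun x => a x * heat r b x) (ha.mul (measurable_heat hb r))
      (hss ▸ sa.mul (sb.heat hb r)),
    integral_Q_eq_tor (G := fun x => heat r a x * b x) ((measurable_heat ha r).mul hb)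
      (hss ▸ (sa.heat ha r).mul sb)]
  simpa [heat] using adj_core (k := fun _ => 1) ha hb hCa hCb sa.per sb.per measurable_const
    (integrable_const _) r

lemma integral_heat {b : (ι → ℝ) → ℝ} (hb : Measurable b) {C : ℝ} (hCb : ∀ x, |b x| ≤ C)
    (sb : Sym 1 b) (r : ℝ) : ∫ x in Q ι, heat r b x = ∫ x in Q ι, b x := by
  have := heat_adjoint (s := 1) (fun _ => Or.inl rfl) (a := fun _ => 1) measurable_const hb
    (C := max 1 C) (fun _ => by simp) (fun x => (hCb x).trans (le_max_right _ _))
    ⟨fun _ _ => rfl, fun _ _ => by simp⟩ sb r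
  simpa [heat] using this

lemma D_heat_adjoint {i : ι} {a b : (ι → ℝ) → ℝ}
    (ha : Measurable a) (hb : Measurable b) {C : ℝ} (hCa : ∀ x, |a x| ≤ C) (hCb : ∀ x, |b x| ≤ C)
    (sa : Sym (sgnAt i) a) (sb : Sym 1 b) {r : ℝ} (hr : 0 < r) :
    ∫ x in Q ι, a x * D (heat r b) i x = - ∫ x in Q ι, D (heat r a) i x * b x := by
  have hss : sgnAt i * sgnAt i = 1 := funext fun k => sgnAt_mul_self i k
  have s1 : Sym 1 fun x => a x * D (heat r b) i x :=
    hss ▸ sa.mul ((sb.heat hb r).D ((contDiff_heat hb hCb hr).differentiable one_ne_zero) i)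
  have s2 : Sym 1 fun x => D (heat r a) i x * b x := by
    have := ((sa.heat ha r).D' ((contDiff_heat ha hCa hr).differentiable one_ne_zero) i).mul sb
    simp only [sgnAt_mul_self, mul_one] at this
    exact this
  rw [integral_Q_eq_tor (G := fun x => a x * D (heat r b) i x) (ha.mul (measurable_D _ i)) s1,
    integral_Q_eq_tor (G := fun x => D (heat r a) i x * b x) ((measurable_D _ i).mul hb) s2]
  have := adj_core (k := fun z => z i) ha hb hCa hCb sa.per sb.per (measurable_pi_apply i)
    (integrable_eval_gam i) r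
  simp only [D_heat ha hCa hr, D_heat hb hCb hr, ← mul_div_assoc, div_mul_eq_mul_div, integral_div,
    this, Pi.neg_apply, mul_neg, integral_neg, neg_mul, neg_div]

end Pool.Agent.P.MP_b7645d_gt
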