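import Pool.Agent.P.MP_b7645d_gt.Gauss1

set_option autoImplicit false

open MeasureTheory ProbabilityTheory Set Real Filter Topology

namespace Pool.Agent.P.MP_b7645d_gt

/-- smooth approximation of the indicator of `(-∞, c)` -/
noncomputable def hk (k : ℕ) (c s : ℝ) : ℝ := Real.smoothTransition (k * (c - s))

lemma hk_nonneg (k : ℕ) (c s : ℝ) : 0 ≤ hk k c s := Real.smoothTransition.nonneg _

lemma hk_le_one (k : ℕ) (c s : ℝ) : hk k c s ≤ 1 := Real.smoothTransition.le_one _

lemma hk_of_le {k : ℕ} {c s : ℝ} (h : c ≤ s) : hk k c s = 0 :=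
  Real.smoothTransition.zero_of_nonpos
    (mul_nonpos_of_nonneg_of_nonpos (Nat.cast_nonneg _) (by linarith))

lemma hk_of_one_le {k : ℕ} {c s : ℝ} (h : 1 ≤ k * (c - s)) : hk k c s = 1 :=
  Real.smoothTransition.one_of_one_le h

lemma contDiff_hk (k : ℕ) (c : ℝ) : ContDiff ℝ 1 (hk k c) := by
  unfold hk
  exact Real.smoothTransition.contDiff.comp (by fun_prop)

lemma differentiable_hk (k : ℕ) (c : ℝ) : Differentiable ℝ (hk k c) :=
  (contDiff_hk k c).differentiable one_ne_zero

lemma continuous_hk (k : ℕ) (c : ℝ) : Continuous (hk k c) := (contDiff_hk k c).continuous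

lemma continuous_deriv_hk (k : ℕ) (c : ℝ) : Continuous (deriv (hk k c)) :=
  (contDiff_hk k c).continuous_deriv le_rfl

lemma antitone_hk (k : ℕ) (c : ℝ) : Antitone (hk k c) := fun _ _ h =>
  Real.smoothTransition.monotone (mul_le_mul_of_nonneg_left (by linarith) (Nat.cast_nonneg _))

lemma deriv_hk_nonpos (k : ℕ) (c s : ℝ) : deriv (hk k c) s ≤ 0 := (antitone_hk k c).deriv_nonpos

lemma exists_deriv_hk_bound (k : ℕ) (c : ℝ) : ∃ L, ∀ s, |deriv (hk k c) s| ≤ L := by
  have hcs : HasCompactSupport (deriv (hk k c)) := by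
    refine HasCompactSupport.intro (K := Icc (c - 1) c) isCompact_Icc fun s hs => ?_
    rcases Nat.eq_zero_or_pos k with rfl | hk0
    · have : hk 0 c = fun _ => Real.smoothTransition 0 := by ext s; simp [hk]
      rw [this]; simp
    have hk1 : (1 : ℝ) ≤ k := by exact_mod_cast hk0
    rw [mem_Icc, not_and_or] at hs
    rcases hs with hs | hs
    · have : hk k c =ᶠ[𝓝 s] fun _ => 1 := by
        filter_upwards [Iio_mem_nhds (not_le.1 hs)] with t ht
        refine hk_of_one_le ?_
        have : t < c - 1 := ht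
        nlinarith
      rw [this.deriv_eq]; simp
    · have : hk k c =ᶠ[𝓝 s] fun _ => 0 := by
        filter_upwards [Ioi_mem_nhds (not_le.1 hs)] with t ht
        exact hk_of_le (le_of_lt ht)
      rw [this.deriv_eq]; simp
  obtain ⟨L, hL⟩ := (continuous_deriv_hk k c).bounded_above_of_compact_support hcs
  exact ⟨L, hL⟩

lemma tendsto_hk (c s : ℝ) :
    Tendsto (fun k : ℕ => hk k c s) atTop (𝓝 (if s < c then 1 else 0)) := by
  split_ifs with h
  · have h1 : Tendsto (fun k : ℕ => (k : ℝ) * (c - s)) atTop atTop :=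
      tendsto_natCast_atTop_atTop.atTop_mul_const (by linarith)
    refine tendsto_const_nhds.congr' ?_
    filter_upwards [h1.eventually_ge_atTop 1] with k hk1
    exact (hk_of_one_le hk1).symm
  · simp only [hk_of_le (not_lt.1 h)]
    exact tendsto_const_nhds

variable {ι : Type} [Fintype ι] [DecidableEq ι]

/-- integration by parts against one component of a test field -/
lemma ibp_test {G g : (ι → ℝ) → ℝ} (hd : ∀ x ∈ Q ι, DifferentiableAt ℝ G x) {C : ℝ}
    (hG : ∀ x ∈ Q ι, |G x| ≤ C) (hG' : ∀ x ∈ Q ι, ∀ i, |D G i x| ≤ C)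
    (hg : ContDiff ℝ 1 g) (hc : HasCompactSupport g) (hs : tsupport g ⊆ Q ι) (i : ι) :
    ∫ x in Q ι, G x * D g i x = - ∫ x in Q ι, D G i x * g x := by
  have hGm : AEStronglyMeasurable G (volume.restrict (Q ι)) :=
    ContinuousOn.aestronglyMeasurable
      (fun x hx => (hd x hx).continuousAt.continuousWithinAt) measurableSet_Q
  have g0 : ∀ x, x ∉ Q ι → g x = 0 := fun x hx =>
    image_eq_zero_of_notMem_tsupport fun h => hx (hs h)
  have g0' : ∀ x, x ∉ Q ι → D g i x = 0 := fun x hx => by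
    have : x ∉ tsupport (fderiv ℝ g) := fun h => hx (hs (tsupport_fderiv_subset ℝ h))
    simp [D, image_eq_zero_of_notMem_tsupport this]
  obtain ⟨A, hA⟩ := hg.continuous.bounded_above_of_compact_support hc
  have hDc : Continuous (D g i) := (hg.continuous_fderiv one_ne_zero).clm_apply continuous_const
  have hDs : HasCompactSupport (D g i) := hc.fderiv_apply ℝ _
  obtain ⟨A', hA'⟩ := hDc.bounded_above_of_compact_support hDs
  have key : ∀ {F₁ F₂ : (ι → ℝ) → ℝ} {B : ℝ},
      AEStronglyMeasurable F₁ (volume.restrict (Q ι)) → Continuous F₂ →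
      (∀ x ∈ Q ι, |F₁ x| ≤ C) → (∀ x, ‖F₂ x‖ ≤ B) → (∀ x, x ∉ Q ι → F₂ x = 0) →
      Integrable fun x => F₁ x * F₂ x := by
    intro F₁ F₂ B h1 h2 h3 h4 h5
    refine IntegrableOn.integrable_of_forall_notMem_eq_zero (s := Q ι) ?_
      fun x hx => by simp [h5 x hx]
    refine integrableOn_Q (h1.mul h2.aestronglyMeasurable) (C := C * B) fun x hx => ?_
    rw [abs_mul]
    exact mul_le_mul (h3 x hx) (h4 x) (abs_nonneg _) ((abs_nonneg _).trans (h3 x hx))
  have := integral_mul_fderiv_eq_neg_fderiv_mul_of_integrable (μ := volume) (f := G) (g := g)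
    (v := Pi.single i 1)
    (key (measurable_D G i).aestronglyMeasurable hg.continuous (fun x hx => hG' x hx i) hA g0)
    (key hGm hDc hG hA' g0') (key hGm hg.continuous hG hA g0)
    (fun x hx => hd x (hs hx)) (fun x _ => hg.differentiable one_ne_zero x)
  rw [setIntegral_eq_integral_of_forall_compl_eq_zero fun x hx => by simp [g0' x hx],
    setIntegral_eq_integral_of_forall_compl_eq_zero fun x hx => by simp [g0 x hx]]
  exact this

lemma D_comp {h : ℝ → ℝ} {W : (ι → ℝ) → ℝ} {x : ι → ℝ} {h' : ℝ} (hh : HasDerivAt h h' (W x))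
    (hW : DifferentiableAt ℝ W x) (i : ι) : D (fun y => h (W y)) i x = h' * D W i x := by
  have := (hh.comp_hasFDerivAt x hW.hasFDerivAt).fderiv
  unfold D
  rw [show (fun y => h (W y)) = h ∘ W from rfl, this]
  simp

omit [DecidableEq ι] in
lemma isOpen_sublevel {W : (ι → ℝ) → ℝ} (hd : ∀ x ∈ Q ι, DifferentiableAt ℝ W x) (c : ℝ) :
    IsOpen {x | x ∈ Q ι ∧ W x < c} :=
  ContinuousOn.isOpen_inter_preimage (f := W) (t := Iio c)
    (fun x hx => (hd x hx).continuousAt.continuousWithinAt) isOpen_Q isOpen_Iio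

/-- the perimeter of a sublevel set -/
theorem per_le {n : ℕ} {W : (Fin n → ℝ) → ℝ} (hd : ∀ x ∈ Q (Fin n), DifferentiableAt ℝ W x)
    {C : ℝ} (hg : ∀ x ∈ Q (Fin n), ∀ i, |D W i x| ≤ C) (c : ℝ) {B : ℝ}
    (hB : ∀ᶠ k : ℕ in atTop, ∫ x in Q (Fin n), -deriv (hk k c) (W x) * gn W x ≤ B) :
    Per {x | x ∈ Q (Fin n) ∧ W x < c} ≤ ENNReal.ofReal B := by
  unfold Per
  refine iSup_le fun φ => iSup_le fun hφ => iSup_le fun hc => iSup_le fun hs =>
    iSup_le fun hb => ENNReal.ofReal_le_ofReal ?_
  have hWc : ContinuousOn W (Q (Fin n)) := fun x hx => (hd x hx).continuousAt.continuousWithinAt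
  have hWm : AEStronglyMeasurable W (volume.restrict (Q (Fin n))) :=
    hWc.aestronglyMeasurable measurableSet_Q
  have hφi : ∀ i, ContDiff ℝ 1 fun x => φ x i := fun i => contDiff_pi.1 hφ i
  have hsi : ∀ i, tsupport (fun x => φ x i) ⊆ tsupport φ := fun i =>
    closure_mono fun x hx h => hx (by simp [h])
  have hci : ∀ i, HasCompactSupport fun x => φ x i := fun i =>
    hc.of_isClosed_subset (isClosed_tsupport _) (hsi i)
  have hb1 : ∀ x i, |φ x i| ≤ 1 := fun x i => by
    have := (Finset.single_le_sum (f := fun i => φ x i ^ 2) (fun _ _ => sq_nonneg _)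
      (Finset.mem_univ i)).trans (hb x)
    exact (sq_le_one_iff_abs_le_one _).1 this
  have hdiv : ∀ x, ∑ i, fderiv ℝ φ x (Pi.single i 1) i = ∑ i, D (fun y => φ y i) i x := by
    intro x
    refine Finset.sum_congr rfl fun i _ => ?_
    unfold D
    rw [fderiv_apply ((hφ.differentiable one_ne_zero) x) i]
    simp
  simp_rw [hdiv]
  have hDc : ∀ i, Continuous (D (fun y => φ y i) i) := fun i =>
    ((hφi i).continuous_fderiv one_ne_zero).clm_apply continuous_const
  have hDb : ∀ i, ∃ A, ∀ x, ‖D (fun y => φ y i) i x‖ ≤ A := fun i =>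
    (hDc i).bounded_above_of_compact_support ((hci i).fderiv_apply ℝ _)
  choose A hA using hDb
  set dv : (Fin n → ℝ) → ℝ := fun x => ∑ i, D (fun y => φ y i) i x with hdv
  have hdvc : Continuous dv := continuous_finsetSum _ fun i _ => hDc i
  have hdvb : ∀ x, |dv x| ≤ ∑ i, A i := fun x =>
    (Finset.abs_sum_le_sum_abs _ _).trans (Finset.sum_le_sum fun i _ => hA i x)
  have hE := (isOpen_sublevel hd c).measurableSet
  have h1 : ∫ x in {x | x ∈ Q (Fin n) ∧ W x < c}, dv x
      = ∫ x in Q (Fin n), (if W x < c then 1 else 0) * dv x := by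
    rw [← integral_indicator hE, ← integral_indicator measurableSet_Q]
    congr 1
    ext x
    by_cases hx : x ∈ Q (Fin n) <;> by_cases hw : W x < c <;> simp [indicator, hx, hw]
  have h2 : Tendsto (fun k : ℕ => ∫ x in Q (Fin n), hk k c (W x) * dv x) atTop
      (𝓝 (∫ x in Q (Fin n), (if W x < c then 1 else 0) * dv x)) := by
    refine tendsto_integral_of_dominated_convergence (fun _ => ∑ i, A i) (fun k => ?_)
      (integrable_const _) (fun k => Eventually.of_forall fun x => ?_)
      (Eventually.of_forall fun x => (tendsto_hk c (W x)).mul_const _)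
    · exact ((continuous_hk k c).comp_aestronglyMeasurable hWm).mul hdvc.aestronglyMeasurable
    · rw [Real.norm_eq_abs, abs_mul, abs_of_nonneg (hk_nonneg _ _ _)]
      calc hk k c (W x) * |dv x| ≤ 1 * |dv x| :=
            mul_le_mul_of_nonneg_right (hk_le_one _ _ _) (abs_nonneg _)
        _ ≤ _ := by rw [one_mul]; exact hdvb x
  rw [h1]
  refine le_of_tendsto h2 ?_
  filter_upwards [hB] with k hk'
  refine le_trans ?_ hk'
  obtain ⟨L, hL⟩ := exists_deriv_hk_bound k c
  have hL0 : 0 ≤ L := (abs_nonneg _).trans (hL 0)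
  have hGd : ∀ x ∈ Q (Fin n), DifferentiableAt ℝ (fun y => hk k c (W y)) x := fun x hx =>
    (differentiable_hk k c _).comp x (hd x hx)
  have hGD : ∀ x ∈ Q (Fin n), ∀ i, D (fun y => hk k c (W y)) i x
      = deriv (hk k c) (W x) * D W i x := fun x hx i =>
    D_comp (differentiable_hk k c _).hasDerivAt (hd x hx) i
  have hGb : ∀ x ∈ Q (Fin n), ∀ i, |D (fun y => hk k c (W y)) i x| ≤ 1 + L * |C| := by
    intro x hx i
    rw [hGD x hx, abs_mul]
    have := mul_le_mul (hL (W x)) ((hg x hx i).trans (le_abs_self C)) (abs_nonneg _) hL0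
    linarith
  have hGb0 : ∀ x ∈ Q (Fin n), |hk k c (W x)| ≤ 1 + L * |C| := by
    intro x _
    rw [abs_of_nonneg (hk_nonneg _ _ _)]
    have := hk_le_one k c (W x)
    have := mul_nonneg hL0 (abs_nonneg C)
    linarith
  have h3 : ∀ i, ∫ x in Q (Fin n), hk k c (W x) * D (fun y => φ y i) i x
      = - ∫ x in Q (Fin n), D (fun y => hk k c (W y)) i x * φ x i := fun i =>
    ibp_test hGd hGb0 hGb (hφi i) (hci i) ((hsi i).trans hs) i
  have i1 : ∀ i, IntegrableOn (fun x => hk k c (W x) * D (fun y => φ y i) i x) (Q (Fin n)) := by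
    intro i
    refine integrableOn_Q (((continuous_hk k c).comp_aestronglyMeasurable hWm).mul
      (hDc i).aestronglyMeasurable) (C := (1 + L * |C|) * A i) fun x hx => ?_
    rw [abs_mul]
    exact mul_le_mul (hGb0 x hx) (hA i x) (abs_nonneg _) ((abs_nonneg _).trans (hGb0 x hx))
  have i2 : ∀ i, IntegrableOn (fun x => D (fun y => hk k c (W y)) i x * φ x i) (Q (Fin n)) := by
    intro i
    refine integrableOn_Q ((measurable_D _ i).aestronglyMeasurable.mul
      (hφi i).continuous.aestronglyMeasurable) (C := (1 + L * |C|) * 1) fun x hx => ?_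
    rw [abs_mul]
    exact mul_le_mul (hGb x hx i) (hb1 x i) (abs_nonneg _) ((abs_nonneg _).trans (hGb0 x hx))
  have i3 : IntegrableOn (fun x => -deriv (hk k c) (W x) * gn W x) (Q (Fin n)) := by
    refine integrableOn_Q (((continuous_deriv_hk k c).comp_aestronglyMeasurable hWm).neg.mul
      (measurable_gn W).aestronglyMeasurable) (C := L * (Fintype.card (Fin n) * |C|))
      fun x hx => ?_
    rw [abs_mul, abs_neg, abs_of_nonneg (gn_nonneg _ _)]
    exact mul_le_mul (hL _) (gn_le_of_abs_D_le (hg x hx)) (gn_nonneg _ _) hL0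
  calc ∫ x in Q (Fin n), hk k c (W x) * dv x
      = ∫ x in Q (Fin n), ∑ i, hk k c (W x) * D (fun y => φ y i) i x := by
        simp only [hdv, Finset.mul_sum]
    _ = ∑ i, ∫ x in Q (Fin n), hk k c (W x) * D (fun y => φ y i) i x :=
        integral_finsetSum _ fun i _ => i1 i
    _ = ∑ i, ∫ x in Q (Fin n), -(D (fun y => hk k c (W y)) i x * φ x i) := by
        simp only [h3, integral_neg]
    _ = ∫ x in Q (Fin n), ∑ i, -(D (fun y => hk k c (W y)) i x * φ x i) :=
        (integral_finsetSum _ fun i _ => (i2 i).neg).symm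
    _ ≤ _ := by
        refine setIntegral_mono_on (integrable_finsetSum _ fun i _ => (i2 i).neg) i3
          measurableSet_Q fun x hx => ?_
        simp only [hGD x hx]
        have e : ∑ i, -(deriv (hk k c) (W x) * D W i x * φ x i)
            = -deriv (hk k c) (W x) * ∑ i, D W i x * φ x i := by
          rw [Finset.mul_sum]
          exact Finset.sum_congr rfl fun i _ => by ring
        rw [e]
        refine mul_le_mul_of_nonneg_left ?_ (neg_nonneg.2 (deriv_hk_nonpos _ _ _))
        refine (Real.sum_mul_le_sqrt_mul_sqrt _ _ _).trans ?_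
        calc √(∑ i, D W i x ^ 2) * √(∑ i, φ x i ^ 2) ≤ √(∑ i, D W i x ^ 2) * 1 :=
              mul_le_mul_of_nonneg_left (Real.sqrt_le_one.2 (hb x)) (Real.sqrt_nonneg _)
          _ = gn W x := mul_one _

end Pool.Agent.P.MP_b7645d_gt
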