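import Pool.Agent.P.MP_b7645d_gt.Upper1

set_option autoImplicit false

open MeasureTheory ProbabilityTheory Set Real Filter Topology

namespace Pool.Agent.P.MP_b7645d_gt

variable {ι ι₁ ι₂ : Type} [Fintype ι] [DecidableEq ι] [Fintype ι₁] [DecidableEq ι₁]
  [Fintype ι₂] [DecidableEq ι₂]

/-- precomposition with an index map, as a continuous linear map -/
noncomputable def pre (e : ι₁ → ι₂) : (ι₂ → ℝ) →L[ℝ] (ι₁ → ℝ) :=
  ContinuousLinearMap.pi fun i => ContinuousLinearMap.proj (e i)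

omit [Fintype ι₁] [DecidableEq ι₁] [Fintype ι₂] [DecidableEq ι₂] in
@[simp] lemma pre_apply (e : ι₁ → ι₂) (x : ι₂ → ℝ) (i : ι₁) : pre e x i = x (e i) := rfl

omit [Fintype ι₁] [DecidableEq ι₁] [Fintype ι₂] [DecidableEq ι₂] in
lemma pre_mem_Q (e : ι₁ → ι₂) {x : ι₂ → ℝ} (hx : x ∈ Q ι₂) : pre e x ∈ Q ι₁ := fun i => hx (e i)

omit [DecidableEq ι₁] in
lemma D_pre (e : ι₁ → ι₂) {W : (ι₁ → ℝ) → ℝ} {x : ι₂ → ℝ} (hW : DifferentiableAt ℝ W (pre e x))
    (j : ι₂) : D (fun y => W (pre e y)) j x = fderiv ℝ W (pre e x) (pre e (Pi.single j 1)) := by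
  unfold D
  rw [show (fun y => W (pre e y)) = W ∘ pre e from rfl,
    (hW.hasFDerivAt.comp x (pre e).hasFDerivAt).fderiv]
  rfl

lemma D_pre_of_inj {e : ι₁ → ι₂} (he : Function.Injective e) {W : (ι₁ → ℝ) → ℝ} {x : ι₂ → ℝ}
    (hW : DifferentiableAt ℝ W (pre e x)) (i : ι₁) :
    D (fun y => W (pre e y)) (e i) x = D W i (pre e x) := by
  rw [D_pre e hW]
  unfold D
  congr 1
  ext k
  simp [Pi.single_apply, he.eq_iff]

omit [DecidableEq ι₁] in
lemma D_pre_of_notMem {e : ι₁ → ι₂} {W : (ι₁ → ℝ) → ℝ} {x : ι₂ → ℝ}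
    (hW : DifferentiableAt ℝ W (pre e x)) {j : ι₂} (hj : ∀ i, e i ≠ j) :
    D (fun y => W (pre e y)) j x = 0 := by
  rw [D_pre e hW]
  have : pre e (Pi.single j 1) = 0 := by
    ext k
    simp [hj k]
  rw [this, map_zero]

omit [DecidableEq ι₁] [DecidableEq ι₂] in
lemma integral_pre_equiv (e : ι₁ ≃ ι₂) (G : (ι₁ → ℝ) → ℝ) :
    ∫ x in Q ι₂, G (pre e x) = ∫ x in Q ι₁, G x := by
  rw [restrict_Q_eq_pi, restrict_Q_eq_pi]
  exact (measurePreserving_arrowCongr' (fun _ : ι₂ => (volume : Measure ℝ).restrict (Ioo 0 1))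
    (fun _ : ι₁ => (volume : Measure ℝ).restrict (Ioo 0 1)) e.symm (MeasurableEquiv.refl ℝ)
    (fun _ => MeasurePreserving.id _)).integral_comp' G

omit [DecidableEq ι₁] [DecidableEq ι₂] in
lemma integral_pre_sum (G : (ι₁ → ℝ) × (ι₂ → ℝ) → ℝ) :
    ∫ w in Q (ι₁ ⊕ ι₂), G (pre Sum.inl w, pre Sum.inr w)
      = ∫ p, G p ∂((volume.restrict (Q ι₁)).prod (volume.restrict (Q ι₂))) := by
  rw [restrict_Q_eq_pi, restrict_Q_eq_pi, restrict_Q_eq_pi]
  exact (measurePreserving_sumPiEquivProdPi (X := fun _ : ι₁ ⊕ ι₂ => ℝ)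
    (fun _ => (volume : Measure ℝ).restrict (Ioo 0 1))).integral_comp' G

lemma integral_Q_unit (G : ℝ → ℝ) : ∫ z in Q Unit, G (z ()) = ∫ s in Ioo (0 : ℝ) 1, G s := by
  rw [restrict_Q_eq_pi]
  exact (measurePreserving_funUnique ((volume : Measure ℝ).restrict (Ioo 0 1)) Unit).integral_comp' G

/-- the profile is bounded by the perimeter bound of a sublevel set, any index type -/
theorem prof_le {n : ℕ} (hn : Fintype.card ι = n) {W : (ι → ℝ) → ℝ}
    (hd : ∀ x ∈ Q ι, DifferentiableAt ℝ W x)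
    {C : ℝ} (hg : ∀ x ∈ Q ι, ∀ i, |D W i x| ≤ C) (c : ℝ) {B : ℝ}
    (hB : ∀ᶠ k : ℕ in atTop, ∫ x in Q ι, -deriv (hk k c) (W x) * gn W x ≤ B) :
    Prof n (∫ x in Q ι, if W x < c then 1 else 0) ≤ ENNReal.ofReal B := by
  let e : ι ≃ Fin n := Fintype.equivFinOfCardEq hn
  set W' : (Fin n → ℝ) → ℝ := fun y => W (pre e y) with hW'
  have hd' : ∀ x ∈ Q (Fin n), DifferentiableAt ℝ W' x := fun x hx =>
    (hd _ (pre_mem_Q e hx)).comp x (pre e).differentiableAt
  have hD : ∀ x ∈ Q (Fin n), ∀ i, D W' (e i) x = D W i (pre e x) := fun x hx i =>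
    D_pre_of_inj e.injective (hd _ (pre_mem_Q e hx)) i
  have hg' : ∀ x ∈ Q (Fin n), ∀ j, |D W' j x| ≤ C := fun x hx j => by
    obtain ⟨i, rfl⟩ := e.surjective j
    rw [hD x hx]
    exact hg _ (pre_mem_Q e hx) i
  have hgn : ∀ x ∈ Q (Fin n), gn W' x = gn W (pre e x) := fun x hx => by
    unfold gn
    rw [← e.sum_comp]
    simp only [hD x hx]
  have hB' : ∀ᶠ k : ℕ in atTop, ∫ x in Q (Fin n), -deriv (hk k c) (W' x) * gn W' x ≤ B := by
    filter_upwards [hB] with k hk'
    rw [← integral_pre_equiv e] at hk'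
    refine le_of_eq_of_le (setIntegral_congr_fun measurableSet_Q fun x hx => ?_) hk'
    simp only [hgn x hx]
    rfl
  have hE := (isOpen_sublevel hd' c).measurableSet
  refine le_trans ?_ (per_le hd' hg' c hB')
  unfold Prof
  refine iInf_le_of_le _ (iInf_le_of_le hE (iInf_le_of_le (fun x hx => hx.1)
    (iInf_le_of_le ?_ le_rfl)))
  rw [← integral_pre_equiv e]
  have h1 : (∫ x in Q (Fin n), if W (pre e x) < c then (1 : ℝ) else 0)
      = volume.real {x | x ∈ Q (Fin n) ∧ W' x < c} := by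
    rw [← integral_indicator_one hE, ← integral_indicator measurableSet_Q]
    congr 1
    ext x
    by_cases hx : x ∈ Q (Fin n) <;> by_cases hw : W (pre e x) < c <;> simp [indicator, hx, hw, hW']
  rw [h1, Measure.real, ENNReal.ofReal_toReal]
  refine ne_top_of_le_ne_top ?_ (measure_mono (t := Q (Fin n)) fun x hx => hx.1)
  rw [volume_Q]
  exact ENNReal.one_ne_top

section sum

variable {a : (ι₁ → ℝ) → ℝ} {b : (ι₂ → ℝ) → ℝ} {w : ι₁ ⊕ ι₂ → ℝ}

/-- separated sum of two functions -/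
noncomputable def ssum (a : (ι₁ → ℝ) → ℝ) (b : (ι₂ → ℝ) → ℝ) (w : ι₁ ⊕ ι₂ → ℝ) : ℝ :=
  a (pre Sum.inl w) + b (pre Sum.inr w)

omit [DecidableEq ι₁] [DecidableEq ι₂] in
lemma differentiableAt_ssum (ha : DifferentiableAt ℝ a (pre Sum.inl w))
    (hb : DifferentiableAt ℝ b (pre Sum.inr w)) : DifferentiableAt ℝ (ssum a b) w :=
  (ha.comp w (pre Sum.inl).differentiableAt).add (hb.comp w (pre Sum.inr).differentiableAt)

lemma D_ssum (ha : DifferentiableAt ℝ a (pre Sum.inl w))
    (hb : DifferentiableAt ℝ b (pre Sum.inr w)) (j : ι₁ ⊕ ι₂) :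
    D (ssum a b) j w = D (fun y => a (pre Sum.inl y)) j w + D (fun y => b (pre Sum.inr y)) j w := by
  unfold D ssum
  rw [fderiv_fun_add (f := fun y => a (pre Sum.inl y)) (g := fun y => b (pre Sum.inr y))
    (ha.comp w (pre Sum.inl).differentiableAt) (hb.comp w (pre Sum.inr).differentiableAt)]
  rfl

lemma D_ssum_inl (ha : DifferentiableAt ℝ a (pre Sum.inl w))
    (hb : DifferentiableAt ℝ b (pre Sum.inr w)) (i : ι₁) :
    D (ssum a b) (Sum.inl i) w = D a i (pre Sum.inl w) := by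
  rw [D_ssum ha hb, D_pre_of_inj Sum.inl_injective ha, D_pre_of_notMem hb (by simp), add_zero]

lemma D_ssum_inr (ha : DifferentiableAt ℝ a (pre Sum.inl w))
    (hb : DifferentiableAt ℝ b (pre Sum.inr w)) (i : ι₂) :
    D (ssum a b) (Sum.inr i) w = D b i (pre Sum.inr w) := by
  rw [D_ssum ha hb, D_pre_of_inj Sum.inr_injective hb, D_pre_of_notMem ha (by simp), zero_add]

lemma gn_ssum (ha : DifferentiableAt ℝ a (pre Sum.inl w))
    (hb : DifferentiableAt ℝ b (pre Sum.inr w)) :
    gn (ssum a b) w = √(gn a (pre Sum.inl w) ^ 2 + gn b (pre Sum.inr w) ^ 2) := by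
  rw [gn_sq, gn_sq, gn, Fintype.sum_sum_type]
  simp only [D_ssum_inl ha hb, D_ssum_inr ha hb]

lemma abs_D_ssum_le (ha : DifferentiableAt ℝ a (pre Sum.inl w))
    (hb : DifferentiableAt ℝ b (pre Sum.inr w)) {C : ℝ} (hA : ∀ i, |D a i (pre Sum.inl w)| ≤ C)
    (hB : ∀ i, |D b i (pre Sum.inr w)| ≤ C) (j : ι₁ ⊕ ι₂) : |D (ssum a b) j w| ≤ C := by
  rcases j with i | i
  · rw [D_ssum_inl ha hb]; exact hA i
  · rw [D_ssum_inr ha hb]; exact hB i

omit [Fintype ι₁] [DecidableEq ι₁] [Fintype ι₂] [DecidableEq ι₂] in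
lemma measurable_pre (e : ι₁ → ι₂) : Measurable (pre e) :=
  measurable_pi_iff.2 fun i => measurable_pi_apply (e i)

omit [Fintype ι₁] [DecidableEq ι₁] [Fintype ι₂] [DecidableEq ι₂] in
lemma measurable_ssum (ha : Measurable a) (hb : Measurable b) : Measurable (ssum a b) :=
  (ha.comp (measurable_pre _)).add (hb.comp (measurable_pre _))

end sum

/-- clamp to `[0,1]` -/
noncomputable def clamp (s : ℝ) : ℝ := max 0 (min 1 s)

lemma continuous_clamp : Continuous clamp := by unfold clamp; fun_prop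

lemma clamp_nonneg (s : ℝ) : 0 ≤ clamp s := le_max_left _ _

lemma clamp_le_one (s : ℝ) : clamp s ≤ 1 := max_le zero_le_one (min_le_left _ _)

lemma integral_slab_vol {ε : ℝ} (hε : 0 < ε) (A c : ℝ) :
    (∫ s in Ioo (0 : ℝ) 1, if A + -ε * s < c then (1 : ℝ) else 0) = clamp ((c - A) / ε + 1) := by
  have h1 : (fun s : ℝ => if A + -ε * s < c then (1 : ℝ) else 0)
      = (Ioi ((A - c) / ε)).indicator 1 := by
    ext s
    have : A + -ε * s < c ↔ (A - c) / ε < s := by
      rw [div_lt_iff₀ hε]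
      constructor <;> intro h <;> linarith
    simp only [indicator, mem_Ioi, this, Pi.one_apply]
  rw [h1, integral_indicator_one measurableSet_Ioi, measureReal_restrict_apply measurableSet_Ioi,
    inter_comm, Ioo_inter_Ioi, Real.volume_real_Ioo]
  have : (c - A) / ε + 1 = 1 - (A - c) / ε := by ring
  rw [this, clamp]
  generalize (A - c) / ε = t
  rcases le_total t 0 with h | h
  · rw [max_eq_left h, min_eq_left (by linarith)]; simp
  · rw [max_eq_right h, min_eq_right (by linarith), max_comm]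

lemma integral_slab_per {ε : ℝ} (hε : 0 < ε) (k : ℕ) (A c : ℝ) :
    (∫ s in Ioo (0 : ℝ) 1, -deriv (hk k c) (A + -ε * s)) = (hk k c (A - ε) - hk k c A) / ε := by
  rw [← integral_Ioc_eq_integral_Ioo, ← intervalIntegral.integral_of_le zero_le_one]
  have := intervalIntegral.integral_eq_sub_of_hasDerivAt (a := 0) (b := 1)
    (f := fun s => hk k c (A + -ε * s) / ε) (f' := fun s => -deriv (hk k c) (A + -ε * s))
    (fun s _ => by
      have h1 : HasDerivAt (fun s : ℝ => A + -ε * s) (-ε) s := by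
        simpa using ((hasDerivAt_id s).const_mul (-ε)).const_add A
      have h2 := ((differentiable_hk k c _).hasDerivAt.comp s h1).div_const ε
      have e : deriv (hk k c) (A + -ε * s) * -ε / ε = -deriv (hk k c) (A + -ε * s) := by
        field_simp
      rw [e] at h2
      exact h2)
    (Continuous.intervalIntegrable
      (((continuous_deriv_hk k c).comp (by fun_prop)).neg) _ _)
  rw [this]
  simp only [mul_one, mul_zero, add_zero, ← sub_eq_add_neg, sub_div]

/-- the slab competitor -/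
theorem prof_le_slab {n : ℕ} (hn : Fintype.card ι + 1 = n) {a : (ι → ℝ) → ℝ} (ham : Measurable a)
    (hd : ∀ x ∈ Q ι, DifferentiableAt ℝ a x)
    {C : ℝ} (hg : ∀ x ∈ Q ι, ∀ i, |D a i x| ≤ C) (c : ℝ) {ε : ℝ} (hε : 0 < ε) {B : ℝ}
    (hB : ∀ᶠ k : ℕ in atTop,
      ∫ x in Q ι, (hk k c (a x - ε) - hk k c (a x)) / ε * (gn a x + ε) ≤ B) :
    Prof n (∫ x in Q ι, clamp ((c - a x) / ε + 1)) ≤ ENNReal.ofReal B := by
  set b : (Unit → ℝ) → ℝ := fun z => -ε * z () with hb
  have hbd : ∀ z, HasFDerivAt b ((-ε) • (ContinuousLinearMap.proj () : (Unit → ℝ) →L[ℝ] ℝ)) z :=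
    fun z => (hasFDerivAt_apply () z).const_mul (-ε)
  have hbD : ∀ z i, D b i z = -ε := fun z i => by
    unfold D
    rw [(hbd z).fderiv]
    simp
  have hbg : ∀ z, gn b z ^ 2 = ε ^ 2 := fun z => by
    rw [gn_sq]
    simp [hbD]
  have hbm : Measurable b := by fun_prop
  have hd' : ∀ w ∈ Q (ι ⊕ Unit), DifferentiableAt ℝ (ssum a b) w := fun w hw =>
    differentiableAt_ssum (hd _ (pre_mem_Q _ hw)) (hbd _).differentiableAt
  have hg' : ∀ w ∈ Q (ι ⊕ Unit), ∀ j, |D (ssum a b) j w| ≤ |C| + ε := fun w hw j => by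
    refine abs_D_ssum_le (hd _ (pre_mem_Q _ hw)) (hbd _).differentiableAt (fun i => ?_)
      (fun i => ?_) j
    · have := (hg _ (pre_mem_Q Sum.inl hw) i).trans (le_abs_self C)
      linarith
    · rw [hbD, abs_neg, abs_of_pos hε]
      linarith [abs_nonneg C]
  have key := prof_le (ι := ι ⊕ Unit) (n := n) (by simpa using hn) hd' hg' c (B := B) ?_
  · convert key using 2
    have h1 := integral_pre_sum (ι₁ := ι) (ι₂ := Unit)
      (fun p => if a p.1 + b p.2 < c then (1 : ℝ) else 0)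
    refine Eq.trans ?_ h1.symm
    rw [integral_prod]
    · refine integral_congr_ae (Eventually.of_forall fun x => ?_)
      exact ((integral_Q_unit fun s => if a x + -ε * s < c then (1 : ℝ) else 0).trans
        (integral_slab_vol hε (a x) c)).symm
    · refine Integrable.of_bound (C := 1) ?_ (Eventually.of_forall fun p => ?_)
      · refine (Measurable.ite ?_ measurable_const measurable_const).aestronglyMeasurable
        exact measurableSet_lt ((ham.comp measurable_fst).add (hbm.comp measurable_snd))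
          measurable_const
      · split_ifs <;> simp
  filter_upwards [hB] with k hk'
  refine le_trans ?_ hk'
  obtain ⟨L, hL⟩ := exists_deriv_hk_bound k c
  have hL0 : 0 ≤ L := (abs_nonneg _).trans (hL 0)
  have hgb : ∀ x ∈ Q ι, gn a x ≤ Fintype.card ι * |C| := fun x hx => gn_le_of_abs_D_le (hg x hx)
  have hm : Measurable fun p : (ι → ℝ) × (Unit → ℝ) =>
      -deriv (hk k c) (a p.1 + b p.2) * (gn a p.1 + ε) :=
    ((continuous_deriv_hk k c).measurable.comp
      ((ham.comp measurable_fst).add (hbm.comp measurable_snd))).neg.mul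
      (((measurable_gn a).comp measurable_fst).add_const ε)
  have hbound : ∀ (s : ℝ), ∀ x ∈ Q ι,
      |-deriv (hk k c) s * (gn a x + ε)| ≤ L * (Fintype.card ι * |C| + ε) := fun s x hx => by
    have h0 : 0 ≤ gn a x + ε := add_nonneg (gn_nonneg _ _) hε.le
    rw [abs_mul, abs_neg, abs_of_nonneg h0]
    exact mul_le_mul (hL _) (by linarith [hgb x hx]) h0 hL0
  calc ∫ w in Q (ι ⊕ Unit), -deriv (hk k c) (ssum a b w) * gn (ssum a b) w
      ≤ ∫ w in Q (ι ⊕ Unit), -deriv (hk k c) (a (pre Sum.inl w) + b (pre Sum.inr w))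
          * (gn a (pre Sum.inl w) + ε) := by
        refine integral_mono_of_nonneg (Eventually.of_forall fun w => mul_nonneg
          (neg_nonneg.2 (deriv_hk_nonpos _ _ _)) (gn_nonneg _ _)) ?_ ?_
        · exact integrableOn_Q (hm.comp ((measurable_pre Sum.inl).prodMk
            (measurable_pre Sum.inr))).aestronglyMeasurable
            fun w hw => hbound _ _ (pre_mem_Q Sum.inl hw)
        · refine (ae_restrict_iff' measurableSet_Q).2 (Eventually.of_forall fun w hw => ?_)
          refine mul_le_mul_of_nonneg_left ?_ (neg_nonneg.2 (deriv_hk_nonpos _ _ _))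
          rw [gn_ssum (hd _ (pre_mem_Q _ hw)) (hbd _).differentiableAt, hbg,
            Real.sqrt_le_left (add_nonneg (gn_nonneg _ _) hε.le)]
          nlinarith [gn_nonneg a (pre Sum.inl w)]
    _ = ∫ p, -deriv (hk k c) (a p.1 + b p.2) * (gn a p.1 + ε)
          ∂((volume.restrict (Q ι)).prod (volume.restrict (Q Unit))) :=
        integral_pre_sum fun p => -deriv (hk k c) (a p.1 + b p.2) * (gn a p.1 + ε)
    _ = _ := by
        rw [integral_prod]
        · refine integral_congr_ae (Eventually.of_forall fun x => ?_)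
          simp only [integral_mul_const]
          congr 1
          exact (integral_Q_unit fun s => -deriv (hk k c) (a x + -ε * s)).trans
            (integral_slab_per hε k (a x) c)
        · refine Integrable.of_bound (C := L * (Fintype.card ι * |C| + ε))
            hm.aestronglyMeasurable ?_
          have : ∀ᵐ p ∂((volume.restrict (Q ι)).prod (volume.restrict (Q Unit))), p.1 ∈ Q ι :=
            Measure.quasiMeasurePreserving_fst.ae (ae_restrict_mem measurableSet_Q)
          filter_upwards [this] with p hp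
          exact hbound _ _ hp

end Pool.Agent.P.MP_b7645d_gt
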