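import Pool.Agent.P.MP_b7645d_gt.Upper2

set_option autoImplicit false

open MeasureTheory ProbabilityTheory Set Real Filter Topology

namespace Pool.Agent.P.MP_b7645d_gt

instance isProb_Ioo : IsProbabilityMeasure ((volume : Measure ℝ).restrict (Ioo 0 1)) :=
  ⟨by simp⟩

/-- normalised sum of cosines -/
noncomputable def TT (m : ℕ) (y : Fin m → ℝ) : ℝ := (√m)⁻¹ * ∑ j, √2 * cos (π * y j)

/-- its distribution function -/
noncomputable def FF (m : ℕ) (s : ℝ) : ℝ := (volume.restrict (Q (Fin m))).real {y | TT m y ≤ s}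

lemma continuous_TT (m : ℕ) : Continuous (TT m) := by unfold TT; fun_prop

lemma integral_Ioo_eq (f : ℝ → ℝ) : ∫ s in Ioo (0 : ℝ) 1, f s = ∫ s in (0 : ℝ)..1, f s := by
  rw [← integral_Ioc_eq_integral_Ioo, ← intervalIntegral.integral_of_le zero_le_one]

lemma integral_cos_pi : ∫ s in Ioo (0 : ℝ) 1, √2 * cos (π * s) = 0 := by
  rw [integral_Ioo_eq, intervalIntegral.integral_const_mul,
    intervalIntegral.integral_comp_mul_left (fun x => cos x) pi_ne_zero]
  simp

lemma integral_cos_two_pi : ∫ s in Ioo (0 : ℝ) 1, cos (2 * π * s) = 0 := by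
  rw [integral_Ioo_eq,
    intervalIntegral.integral_comp_mul_left (fun x => cos x) (by positivity : (2 * π) ≠ 0)]
  simp

lemma integral_cos_pi_sq : ∫ s in Ioo (0 : ℝ) 1, (√2 * cos (π * s)) ^ 2 = 1 := by
  have : ∀ s : ℝ, (√2 * cos (π * s)) ^ 2 = cos (2 * π * s) + 1 := fun s => by
    rw [mul_pow, Real.sq_sqrt (by norm_num), mul_assoc, Real.cos_two_mul]
    ring
  simp_rw [this]
  rw [integral_add, integral_cos_two_pi]
  · simp
  · exact Integrable.of_bound (C := 1) (by fun_prop)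
      (Eventually.of_forall fun s => Real.abs_cos_le_one _)
  · exact integrable_const _

lemma tendsto_FF (s : ℝ) : Tendsto (fun m => FF m s) atTop (𝓝 (Phi s)) := by
  set U : Measure ℝ := (volume : Measure ℝ).restrict (Ioo 0 1) with hU
  set X : ℝ → ℝ := fun s => √2 * cos (π * s) with hX
  have mX : Measurable X := by fun_prop
  let P : ℕ → ProbabilityMeasure ℝ := fun m =>
    ⟨(Measure.pi fun _ : Fin m => U).map (TT m),
      Measure.isProbabilityMeasure_map (continuous_TT m).measurable.aemeasurable⟩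
  let G : ProbabilityMeasure ℝ := ⟨gaussianReal 0 1, inferInstance⟩
  have hlim : Tendsto P atTop (𝓝 G) := by
    refine ProbabilityMeasure.tendsto_iff_tendsto_charFun.2 fun t => ?_
    have h1 := tendsto_charFun_inv_sqrt_mul_pow (P := U) (X := X) mX.aemeasurable
      integral_cos_pi integral_cos_pi_sq t
    have h2 : ∀ m : ℕ, charFun (P m : Measure ℝ) t = (charFun (U.map X) ((√m)⁻¹ * t)) ^ m := by
      intro m
      have hi : iIndepFun (fun (i : Fin m) (ω : Fin m → ℝ) => X (ω i))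
          (Measure.pi fun _ : Fin m => U) := iIndepFun_pi fun _ => mX.aemeasurable
      have hm : ∀ i : Fin m, AEMeasurable (fun ω : Fin m → ℝ => X (ω i))
          (Measure.pi fun _ : Fin m => U) := fun i =>
        (mX.comp (measurable_pi_apply i)).aemeasurable
      change charFun ((Measure.pi fun _ : Fin m => U).map
        (fun y => (√m)⁻¹ * ∑ j, X (y j))) t = _
      rw [charFun_map_mul_comp (Finset.aemeasurable_fun_sum _ fun i _ => hm i),
        hi.charFun_map_fun_sum_eq_prod hm]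
      have : ∀ i : Fin m, (Measure.pi fun _ : Fin m => U).map (fun ω => X (ω i)) = U.map X := by
        intro i
        conv_rhs => rw [← (measurePreserving_eval (fun _ : Fin m => U) i).map_eq,
          Measure.map_map mX (measurable_pi_apply i)]
        rfl
      simp [this]
    simp_rw [h2]
    convert h1 using 2
    simp [G, charFun_gaussianReal, neg_div]
  have h3 := ProbabilityMeasure.tendsto_measure_of_null_frontier_of_tendsto' hlim
    (E := Iic s) (by
      have : NullSingletonClass (gaussianReal 0 1) := nullSingletonClass_gaussianReal one_ne_zero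
      simp [G])
  have h4 := (ENNReal.tendsto_toReal (measure_ne_top _ _)).comp h3
  convert h4 using 2 with m
  · simp only [FF, P, Function.comp, restrict_Q_eq_pi, ProbabilityMeasure.coe_mk]
    rw [Measure.map_apply (continuous_TT m).measurable measurableSet_Iic]
    rfl
  · simp only [Phi, cdf_eq_real]
    rfl

lemma monotone_FF (m : ℕ) : Monotone (FF m) := fun _ _ h =>
  measureReal_mono fun _ hy => le_trans hy h

/-- Polya's theorem on a compact interval -/
lemma FF_unif (M : ℝ) {τ : ℝ} (hτ : 0 < τ) :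
    ∀ᶠ m in atTop, ∀ s ∈ Icc (-M) M, |FF m s - Phi s| ≤ τ := by
  refine (isCompact_Icc (a := -M) (b := M)).induction_on
    (p := fun K => ∀ᶠ m in atTop, ∀ s ∈ K, |FF m s - Phi s| ≤ τ) (by simp)
    (fun s t hst h => h.mono fun m hm x hx => hm x (hst hx))
    (fun s t hs ht => (hs.and ht).mono fun m hm x hx => hx.elim (hm.1 x) (hm.2 x)) ?_
  intro s _
  obtain ⟨δ, hδ, hc⟩ := Metric.continuousAt_iff.1 (continuous_Phi.continuousAt (x := s))
    (τ / 4) (by linarith)
  refine ⟨Icc (s - δ / 2) (s + δ / 2),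
    mem_nhdsWithin_of_mem_nhds (Icc_mem_nhds (by linarith) (by linarith)), ?_⟩
  have h1 := (Metric.tendsto_nhds.1 (tendsto_FF (s - δ / 2))) (τ / 2) (by linarith)
  have h2 := (Metric.tendsto_nhds.1 (tendsto_FF (s + δ / 2))) (τ / 2) (by linarith)
  filter_upwards [h1, h2] with m h1 h2 t ht
  have a1 := abs_lt.1 (hc (x := s - δ / 2) (by rw [Real.dist_eq, abs_lt]; constructor <;> linarith))
  have a2 := abs_lt.1 (hc (x := s + δ / 2) (by rw [Real.dist_eq, abs_lt]; constructor <;> linarith))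
  have b1 := abs_lt.1 h1
  have b2 := abs_lt.1 h2
  have c1 := monotone_FF m ht.1
  have c2 := monotone_FF m ht.2
  have d1 := strictMono_Phi.monotone ht.1
  have d2 := strictMono_Phi.monotone ht.2
  rw [abs_le]
  constructor <;> linarith [a1.1, a1.2, a2.1, a2.2, b1.1, b1.2, b2.1, b2.2]

lemma hasFDerivAt_TT (m : ℕ) (y : Fin m → ℝ) :
    HasFDerivAt (TT m) ((√m)⁻¹ • ∑ j, (√2 * (-sin (π * y j) * π)) •
      (ContinuousLinearMap.proj j : (Fin m → ℝ) →L[ℝ] ℝ)) y := by
  unfold TT
  refine HasFDerivAt.const_mul (HasFDerivAt.fun_sum fun j _ => ?_) _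
  have h1 : HasDerivAt (fun s : ℝ => √2 * cos (π * s)) (√2 * (-sin (π * y j) * π)) (y j) := by
    have := ((hasDerivAt_id (y j)).const_mul π).cos.const_mul √2
    simpa using this
  exact HasDerivAt.comp_hasFDerivAt (f := fun y : Fin m → ℝ => y j) y h1 (hasFDerivAt_apply j y)

lemma D_TT (m : ℕ) (y : Fin m → ℝ) (j : Fin m) :
    D (TT m) j y = (√m)⁻¹ * (√2 * (-sin (π * y j) * π)) := by
  unfold D
  rw [(hasFDerivAt_TT m y).fderiv]
  simp [Pi.single_apply]

lemma abs_D_TT_le (m : ℕ) (y : Fin m → ℝ) (j : Fin m) : |D (TT m) j y| ≤ (√m)⁻¹ * (√2 * π) := by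
  rw [D_TT, abs_mul, abs_mul, abs_mul, abs_neg, abs_of_nonneg (by positivity : (0 : ℝ) ≤ (√m)⁻¹),
    abs_of_nonneg (Real.sqrt_nonneg 2), abs_of_pos pi_pos]
  have := Real.abs_sin_le_one (π * y j)
  gcongr
  nlinarith [pi_pos]

/-- the fluctuation of the squared gradient -/
noncomputable def ZZ (m : ℕ) (y : Fin m → ℝ) : ℝ := (m : ℝ)⁻¹ * ∑ j, cos (2 * π * y j)

lemma continuous_ZZ (m : ℕ) : Continuous (ZZ m) := by unfold ZZ; fun_prop

lemma gn_TT_sq {m : ℕ} (hm : 0 < m) (y : Fin m → ℝ) : gn (TT m) y ^ 2 = π ^ 2 * (1 - ZZ m y) := by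
  have hm' : (0 : ℝ) < m := by exact_mod_cast hm
  rw [gn_sq, ZZ]
  have : ∀ j, D (TT m) j y ^ 2 = π ^ 2 * ((m : ℝ)⁻¹ * (1 - cos (2 * π * y j))) := fun j => by
    rw [D_TT, mul_pow, mul_pow, inv_pow, Real.sq_sqrt hm'.le, Real.sq_sqrt (by norm_num),
      mul_assoc 2, Real.cos_two_mul, Real.cos_sq']
    ring
  simp only [this, ← Finset.mul_sum, Finset.sum_sub_distrib, Finset.sum_const, Finset.card_univ,
    Fintype.card_fin, nsmul_eq_mul, mul_one]
  field_simp

lemma abs_ZZ_le (m : ℕ) (y : Fin m → ℝ) : |ZZ m y| ≤ 1 := by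
  rcases Nat.eq_zero_or_pos m with rfl | hm
  · simp [ZZ]
  have hm' : (0 : ℝ) < m := by exact_mod_cast hm
  rw [ZZ, abs_mul, abs_of_pos (inv_pos.2 hm'), inv_mul_le_iff₀ hm', mul_one]
  refine (Finset.abs_sum_le_sum_abs _ _).trans ?_
  calc ∑ j, |cos (2 * π * y j)| ≤ ∑ _j : Fin m, (1 : ℝ) :=
        Finset.sum_le_sum fun j _ => Real.abs_cos_le_one _
    _ = m := by simp

lemma integral_ZZ_sq {m : ℕ} (hm : 0 < m) : ∫ y in Q (Fin m), ZZ m y ^ 2 ≤ (m : ℝ)⁻¹ := by
  have hm' : (0 : ℝ) < m := by exact_mod_cast hm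
  set U : Measure ℝ := (volume : Measure ℝ).restrict (Ioo 0 1) with hU
  set X : ℝ → ℝ := fun s => cos (2 * π * s) with hX
  have mX : Measurable X := by fun_prop
  have hXb : ∀ s, |X s| ≤ 1 := fun s => Real.abs_cos_le_one _
  have hL : MemLp X 2 U := MemLp.of_bound mX.aestronglyMeasurable 1 (Eventually.of_forall hXb)
  have hv := variance_sum_pi (ι := Fin m) (μ := fun _ => U) (X := fun _ => X) fun _ => hL
  have hv1 : Var[X; U] ≤ 1 := by
    refine (variance_le_expectation_sq mX.aestronglyMeasurable).trans ?_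
    calc ∫ s, (X ^ 2) s ∂U ≤ ∫ _s, (1 : ℝ) ∂U :=
          integral_mono_of_nonneg (Eventually.of_forall fun s => sq_nonneg _) (integrable_const _)
            (Eventually.of_forall fun s => (sq_le_one_iff_abs_le_one _).2 (hXb s))
      _ = 1 := by simp
  have hmean : ∫ ω, (∑ i : Fin m, fun ω : Fin m → ℝ => X (ω i)) ω
      ∂(Measure.pi fun _ : Fin m => U) = 0 := by
    simp only [Finset.sum_apply]
    rw [integral_finsetSum]
    · refine Finset.sum_eq_zero fun i _ => ?_
      rw [integral_comp_eval mX.aestronglyMeasurable]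
      exact integral_cos_two_pi
    · intro i _
      exact Integrable.of_bound (C := 1) (mX.comp (measurable_pi_apply i)).aestronglyMeasurable
        (Eventually.of_forall fun ω => hXb _)
  rw [variance_of_integral_eq_zero (by fun_prop) hmean] at hv
  simp only [Finset.sum_apply, Finset.sum_const, Finset.card_univ, Fintype.card_fin,
    nsmul_eq_mul] at hv
  rw [restrict_Q_eq_pi]
  simp only [ZZ, mul_pow]
  rw [integral_const_mul]
  change (m : ℝ)⁻¹ ^ 2 * ∫ y, (∑ j, X (y j)) ^ 2 ∂(Measure.pi fun _ : Fin m => U) ≤ _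
  rw [hv]
  calc (m : ℝ)⁻¹ ^ 2 * (m * Var[X; U]) ≤ (m : ℝ)⁻¹ ^ 2 * (m * 1) := by gcongr
    _ = (m : ℝ)⁻¹ := by field_simp

lemma integrableOn_abs_ZZ (m : ℕ) : IntegrableOn (fun y => |ZZ m y|) (Q (Fin m)) :=
  integrableOn_Q (continuous_ZZ m).abs.aestronglyMeasurable (C := 1)
    fun y _ => by rw [abs_abs]; exact abs_ZZ_le m y

lemma eventually_integral_abs_ZZ {θ : ℝ} (hθ : 0 < θ) :
    ∀ᶠ m in atTop, ∫ y in Q (Fin m), |ZZ m y| ≤ θ := by
  have h1 : ∀ᶠ m : ℕ in atTop, (m : ℝ)⁻¹ ≤ θ ^ 2 :=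
    (tendsto_inv_atTop_zero.comp tendsto_natCast_atTop_atTop).eventually_le_const (by positivity)
  filter_upwards [h1, eventually_gt_atTop 0] with m h1 hm
  have i2 : IntegrableOn (fun y => ZZ m y ^ 2) (Q (Fin m)) :=
    integrableOn_Q ((continuous_ZZ m).pow 2).aestronglyMeasurable (C := 1) fun y _ => by
      rw [abs_of_nonneg (sq_nonneg _)]
      exact (sq_le_one_iff_abs_le_one _).2 (abs_ZZ_le m y)
  calc ∫ y in Q (Fin m), |ZZ m y| ≤ ∫ y in Q (Fin m), (θ / 2 + (2 * θ)⁻¹ * ZZ m y ^ 2) := by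
        refine integral_mono (integrableOn_abs_ZZ m) ((integrable_const _).add (i2.const_mul _))
          fun y => ?_
        have : 0 ≤ (2 * θ)⁻¹ * (|ZZ m y| - θ) ^ 2 := by positivity
        have e : (2 * θ)⁻¹ * (|ZZ m y| - θ) ^ 2
            = θ / 2 + (2 * θ)⁻¹ * |ZZ m y| ^ 2 - |ZZ m y| := by
          field_simp
          ring
        rw [e, sq_abs] at this
        simp only
        linarith
    _ = θ / 2 + (2 * θ)⁻¹ * ∫ y in Q (Fin m), ZZ m y ^ 2 := by
        rw [integral_add (integrable_const _) (i2.const_mul _), integral_const_mul]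
        simp
    _ ≤ θ / 2 + (2 * θ)⁻¹ * θ ^ 2 := by
        gcongr
        exact (integral_ZZ_sq hm).trans h1
    _ = θ := by field_simp; ring

end Pool.Agent.P.MP_b7645d_gt
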